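import Mathlib

/-!
# Counting arithmetic for MP_9fc547_co (note 3500, section 4)
-/

namespace Pool.SpA

open Finset

/-- Eventually `K * (n * (n+1)) ≤ exp (2 n)`. -/
theorem eventually_poly (K : ℝ) : ∃ n0 : ℕ, ∀ n : ℕ, n0 ≤ n →
    K * (n * (n + 1)) ≤ Real.exp (2 * n) := by
  have h3 : Filter.Tendsto (fun x : ℝ => Real.exp x / x ^ 3) Filter.atTop Filter.atTop :=
    Real.tendsto_exp_div_pow_atTop 3
  have h4 : Filter.Tendsto (fun n : ℕ => ((n : ℝ))) Filter.atTop Filter.atTop :=
    tendsto_natCast_atTop_atTop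
  have h5 := (h3.comp h4).eventually (Filter.eventually_ge_atTop (2 * |K|))
  obtain ⟨N, hN⟩ := Filter.eventually_atTop.1 h5
  refine ⟨max N 1, fun n hn => ?_⟩
  have hn1 : (1 : ℝ) ≤ n := by exact_mod_cast le_trans (le_max_right _ _) hn
  have hnN := hN n (le_trans (le_max_left _ _) hn)
  simp only [Function.comp] at hnN
  have hpos : (0 : ℝ) < (n : ℝ) ^ 3 := by positivity
  rw [le_div_iff₀ hpos] at hnN
  have hK : K ≤ |K| := le_abs_self K
  have hK0 : 0 ≤ |K| := abs_nonneg K
  have e1 : K * (n * (n + 1)) ≤ |K| * (n * (n + 1)) := by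
    apply mul_le_mul_of_nonneg_right hK; positivity
  have e2 : |K| * ((n : ℝ) * (n + 1)) ≤ 2 * |K| * (n : ℝ) ^ 3 := by
    have : (n : ℝ) * (n + 1) ≤ 2 * (n : ℝ) ^ 3 := by nlinarith [mul_self_nonneg ((n : ℝ) - 1)]
    nlinarith
  have e3 : Real.exp n ≤ Real.exp (2 * n) := by
    apply Real.exp_le_exp.2; linarith
  linarith

/-- Number of spider forests with many legs against the number of Hamilton paths from a vertex. -/
theorem count_arith (C : ℕ) : ∃ n0 : ℕ, ∀ n : ℕ, n0 ≤ n →
    ∑ c ∈ range (n + 1), ∑ N ∈ (range (n + 1)).filter (fun N => n < (2 * C + 1) * N),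
      ((n.factorial : ℝ) * 2 ^ n * (c : ℝ) ^ N) / (c.factorial * N.factorial)
      ≤ Real.exp (-n) * (n - 1).factorial := by
  set s : ℝ := Real.exp (4 * (2 * C + 1)) with hs
  have hs0 : 0 < s := Real.exp_pos _
  obtain ⟨n0, hn0⟩ := eventually_poly (Real.exp (Real.exp s))
  refine ⟨max n0 1, fun n hn => ?_⟩
  have hn1 : 1 ≤ n := le_trans (le_max_right _ _) hn
  have hnn := hn0 n (le_trans (le_max_left _ _) hn)
  -- termwise bound
  have hterm : ∀ c ∈ range (n + 1), ∀ N ∈ (range (n + 1)).filter (fun N => n < (2 * C + 1) * N),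
      ((n.factorial : ℝ) * 2 ^ n * (c : ℝ) ^ N) / (c.factorial * N.factorial)
      ≤ (n.factorial : ℝ) * 2 ^ n * Real.exp (-(4 * n)) * ((Real.exp s) ^ c / c.factorial) := by
    intro c _ N hN
    rw [mem_filter] at hN
    have hN2 : (n : ℝ) ≤ (2 * C + 1) * N := by exact_mod_cast hN.2.le
    have h1 : (s * c) ^ N / N.factorial ≤ Real.exp (s * c) :=
      Real.pow_div_factorial_le_exp (s * c) (by positivity) N
    have h2 : Real.exp (4 * n) ≤ s ^ N := by
      rw [hs, ← Real.exp_nat_mul]
      apply Real.exp_le_exp.2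
      nlinarith
    have h3 : (c : ℝ) ^ N / N.factorial ≤ Real.exp (-(4 * n)) * (Real.exp s) ^ c := by
      have h4 : (Real.exp s) ^ c = Real.exp (s * c) := by
        rw [← Real.exp_nat_mul]; ring_nf
      rw [h4]
      have h5 : (c : ℝ) ^ N / N.factorial * s ^ N = (s * c) ^ N / N.factorial := by
        rw [mul_pow]; ring
      have h6 : (c : ℝ) ^ N / N.factorial * Real.exp (4 * n) ≤ Real.exp (s * c) := by
        calc (c : ℝ) ^ N / N.factorial * Real.exp (4 * n)
            ≤ (c : ℝ) ^ N / N.factorial * s ^ N := by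
              apply mul_le_mul_of_nonneg_left h2; positivity
          _ = (s * c) ^ N / N.factorial := h5
          _ ≤ _ := h1
      rw [Real.exp_neg, inv_mul_eq_div, le_div_iff₀ (Real.exp_pos _)]
      exact h6
    calc ((n.factorial : ℝ) * 2 ^ n * (c : ℝ) ^ N) / (c.factorial * N.factorial)
        = (n.factorial : ℝ) * 2 ^ n / c.factorial * ((c : ℝ) ^ N / N.factorial) := by
          field_simp
      _ ≤ (n.factorial : ℝ) * 2 ^ n / c.factorial * (Real.exp (-(4 * n)) * (Real.exp s) ^ c) := by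
          apply mul_le_mul_of_nonneg_left h3; positivity
      _ = _ := by ring
  have hA : 0 ≤ (n.factorial : ℝ) * 2 ^ n * Real.exp (-(4 * n)) := by positivity
  calc ∑ c ∈ range (n + 1), ∑ N ∈ (range (n + 1)).filter (fun N => n < (2 * C + 1) * N),
        ((n.factorial : ℝ) * 2 ^ n * (c : ℝ) ^ N) / (c.factorial * N.factorial)
      ≤ ∑ c ∈ range (n + 1), ∑ N ∈ (range (n + 1)).filter (fun N => n < (2 * C + 1) * N),
        (n.factorial : ℝ) * 2 ^ n * Real.exp (-(4 * n)) * ((Real.exp s) ^ c / c.factorial) :=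
        sum_le_sum fun c hc => sum_le_sum fun N hN => hterm c hc N hN
    _ ≤ ∑ c ∈ range (n + 1), (n + 1) *
          ((n.factorial : ℝ) * 2 ^ n * Real.exp (-(4 * n)) * ((Real.exp s) ^ c / c.factorial)) := by
        apply sum_le_sum
        intro c _
        rw [sum_const, nsmul_eq_mul]
        apply mul_le_mul_of_nonneg_right
        · have : ((range (n + 1)).filter (fun N => n < (2 * C + 1) * N)).card ≤ n + 1 :=
            (card_filter_le _ _).trans (by simp)
          exact_mod_cast this
        · positivity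
    _ = (n + 1) * ((n.factorial : ℝ) * 2 ^ n * Real.exp (-(4 * n))) *
          ∑ c ∈ range (n + 1), (Real.exp s) ^ c / c.factorial := by
        rw [mul_sum]; apply sum_congr rfl; intro c _; ring
    _ ≤ (n + 1) * ((n.factorial : ℝ) * 2 ^ n * Real.exp (-(4 * n))) * Real.exp (Real.exp s) := by
        apply mul_le_mul_of_nonneg_left
        · exact Real.sum_le_exp_of_nonneg (Real.exp_pos s).le (n + 1)
        · positivity
    _ = (Real.exp (Real.exp s) * (n * (n + 1))) * 2 ^ n * Real.exp (-(4 * n)) *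
          (n - 1).factorial := by
        have : (n.factorial : ℝ) = n * (n - 1).factorial := by
          rw [← Nat.mul_factorial_pred (by omega)]; push_cast; ring
        rw [this]; ring
    _ ≤ Real.exp (2 * n) * Real.exp n * Real.exp (-(4 * n)) * (n - 1).factorial := by
        have h2 : (2 : ℝ) ^ n ≤ Real.exp n := by
          have h21 : (2 : ℝ) ≤ Real.exp 1 := by
            have := Real.add_one_le_exp (1 : ℝ); linarith
          calc (2 : ℝ) ^ n ≤ (Real.exp 1) ^ n := pow_le_pow_left₀ (by norm_num) h21 n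
            _ = Real.exp n := by rw [← Real.exp_nat_mul]; ring_nf
        gcongr
    _ = Real.exp (-n) * (n - 1).factorial := by
        rw [← Real.exp_add, ← Real.exp_add]; ring_nf

end Pool.SpA
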