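import Pool.Agent.SpA.CountFun

/-!
# SpA/CountBridge

`C(n,c) C(n-c,N) c^N (n-c)(n-c-1)...(N+1) ≤ n! 2^n c^N / (c! N!)`.

Proof.  If `c > n` or `N > n - c` the left side is 0.  Otherwise this is `term_le`.
-/

namespace Pool.SpA

theorem count_bridge (n N c : ℕ) :
    ((n.choose c * ((n - c).choose N * (c ^ N * (n - c).descFactorial (n - c - N))) : ℕ) : ℝ) ≤
      ((n.factorial : ℝ) * 2 ^ n * (c : ℝ) ^ N) / (c.factorial * N.factorial) := by
  by_cases hc : c ≤ n
  · by_cases hN : N ≤ n - c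
    · exact term_le n c N hc hN
    · rw [Nat.choose_eq_zero_of_lt (not_le.1 hN)]
      simp only [zero_mul, mul_zero, Nat.cast_zero]
      positivity
  · rw [Nat.choose_eq_zero_of_lt (not_le.1 hc)]
    simp only [zero_mul, Nat.cast_zero]
    positivity

end Pool.SpA
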