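import Pool.Agent.SpA.Defs

/-!
# SpA/CountLower

There are at least `(n-1)!` spider forests on `Fin n`, `n ≥ 3`: the Hamilton paths starting
at the vertex `0`.
-/

namespace Pool.SpA

open Finset

theorem cl_path_acyclic (m : ℕ) : (SimpleGraph.pathGraph (m + 1)).IsAcyclic := by
  have hc := SimpleGraph.pathGraph_connected m
  have h1 := hc.card_vert_le_card_edgeSet_add_one
  have h2 : Nat.card (SimpleGraph.pathGraph (m + 1)).edgeSet ≤ m := by
    have hsub : (SimpleGraph.pathGraph (m + 1)).edgeSet ⊆
        Set.range (fun i : Fin m => s(i.castSucc, i.succ)) := by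
      intro e he
      induction e with
      | _ u v =>
        rw [SimpleGraph.mem_edgeSet, SimpleGraph.pathGraph_adj] at he
        rcases he with h | h
        · refine ⟨⟨u, by have := v.2; omega⟩, ?_⟩
          simp only [Sym2.eq_iff]
          left
          refine ⟨?_, ?_⟩ <;> ext <;> simp [h]
        · refine ⟨⟨v, by have := u.2; omega⟩, ?_⟩
          simp only [Sym2.eq_iff]
          right
          refine ⟨?_, ?_⟩ <;> ext <;> simp [h]
    have h3 := Set.ncard_le_ncard hsub (Set.toFinite _)
    have h4 : (Set.range (fun i : Fin m => s(i.castSucc, i.succ))).ncard ≤ m := by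
      rw [← Set.image_univ]
      refine (Set.ncard_image_le (Set.toFinite _)).trans ?_
      simp
    rw [Nat.card_coe_set_eq]
    omega
  refine (SimpleGraph.isTree_iff_connected_and_card.2 ⟨hc, ?_⟩).isAcyclic
  have h5 : Nat.card (Fin (m + 1)) = m + 1 := by simp
  omega

theorem cl_eq {m : ℕ} (σ τ : Equiv.Perm (Fin (m + 1))) (hσ : σ 0 = 0) (hτ : τ 0 = 0)
    (h : (SimpleGraph.pathGraph (m + 1)).comap σ.symm =
      (SimpleGraph.pathGraph (m + 1)).comap τ.symm) : σ = τ := by
  have hadj : ∀ u v, (SimpleGraph.pathGraph (m + 1)).Adj (σ.symm u) (σ.symm v) ↔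
      (SimpleGraph.pathGraph (m + 1)).Adj (τ.symm u) (τ.symm v) := by
    intro u v
    have := congrArg (fun G : SimpleGraph (Fin (m + 1)) => G.Adj u v) h
    simpa using this
  -- `ρ = τ⁻¹ σ`
  have hρ : ∀ j : ℕ, ∀ hj : j < m + 1, τ.symm (σ ⟨j, hj⟩) = ⟨j, hj⟩ := by
    intro j
    induction j using Nat.strong_induction_on with
    | _ j ih =>
      intro hj
      rcases Nat.eq_zero_or_pos j with rfl | hpos
      · have : (⟨0, hj⟩ : Fin (m + 1)) = 0 := rfl
        rw [this, hσ]
        exact (Equiv.symm_apply_eq _).2 hτ.symm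
      · obtain ⟨i, rfl⟩ : ∃ i, j = i + 1 := ⟨j - 1, by omega⟩
        have hi := ih i (by omega) (by omega)
        have ha : (SimpleGraph.pathGraph (m + 1)).Adj (τ.symm (σ ⟨i, by omega⟩))
            (τ.symm (σ ⟨i + 1, hj⟩)) := by
          rw [← hadj]
          simp [SimpleGraph.pathGraph_adj]
        rw [hi, SimpleGraph.pathGraph_adj] at ha
        rcases ha with ha | ha
        · ext
          simp only at ha ⊢
          omega
        · exfalso
          simp only at ha
          have hi' := ih (i - 1) (by omega) (by omega)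
          have heq : τ.symm (σ ⟨i + 1, hj⟩) = ⟨i - 1, by omega⟩ := by
            ext; simp only; omega
          rw [← hi'] at heq
          have := σ.injective (τ.symm.injective heq)
          have := congrArg Fin.val this
          simp only at this
          omega
  ext1 x
  have := hρ x.1 x.2
  exact (Equiv.symm_apply_eq _).1 this

theorem cl_deg {m : ℕ} (hm : 2 ≤ m) (σ : Equiv.Perm (Fin (m + 1))) :
    2 ≤ deg ((SimpleGraph.pathGraph (m + 1)).comap σ.symm) (σ ⟨1, by omega⟩) := by
  classical
  unfold deg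
  have h : ({σ ⟨0, by omega⟩, σ ⟨2, by omega⟩} : Finset (Fin (m + 1))) ⊆
      univ.filter fun w => ((SimpleGraph.pathGraph (m + 1)).comap σ.symm).Adj
        (σ ⟨1, by omega⟩) w := by
    intro w hw
    rw [Finset.mem_insert, Finset.mem_singleton] at hw
    rcases hw with rfl | rfl <;> simp [SimpleGraph.pathGraph_adj]
  have h2 : ({σ ⟨0, by omega⟩, σ ⟨2, by omega⟩} : Finset (Fin (m + 1))).card = 2 := by
    rw [Finset.card_pair]
    intro h
    have := congrArg Fin.val (σ.injective h)
    simp at this
  calc 2 = _ := h2.symm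
    _ ≤ _ := Finset.card_le_card h
    _ = _ := by congr

theorem cl_deg_le {m : ℕ} (σ : Equiv.Perm (Fin (m + 1))) (v : Fin (m + 1)) :
    deg ((SimpleGraph.pathGraph (m + 1)).comap σ.symm) v ≤ 2 := by
  classical
  unfold deg
  obtain ⟨u, rfl⟩ := σ.surjective v
  have h : (univ.filter fun w => ((SimpleGraph.pathGraph (m + 1)).comap σ.symm).Adj (σ u) w) ⊆
      (((univ : Finset (Fin (m + 1))).filter fun x => x.1 + 1 = u.1 ∨ u.1 + 1 = x.1).image σ) := by
    intro w hw
    rw [Finset.mem_filter] at hw
    obtain ⟨x, rfl⟩ := σ.surjective w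
    rw [Finset.mem_image]
    refine ⟨x, ?_, rfl⟩
    have := hw.2
    simp [SimpleGraph.pathGraph_adj] at this
    simp
    tauto
  have h2 : ((univ : Finset (Fin (m + 1))).filter fun x => x.1 + 1 = u.1 ∨ u.1 + 1 = x.1).card ≤ 2 := by
    have : (((univ : Finset (Fin (m + 1))).filter fun x =>
        x.1 + 1 = u.1 ∨ u.1 + 1 = x.1).image Fin.val) ⊆ {u.1 - 1, u.1 + 1} := by
      intro y hy
      rw [Finset.mem_image] at hy
      obtain ⟨x, hx, rfl⟩ := hy
      rw [Finset.mem_filter] at hx
      rw [Finset.mem_insert, Finset.mem_singleton]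
      omega
    rw [← Finset.card_image_of_injective _ Fin.val_injective]
    exact (Finset.card_le_card this).trans (Finset.card_insert_le _ _)
  calc _ = _ := by congr
    _ ≤ _ := Finset.card_le_card h
    _ ≤ _ := Finset.card_image_le
    _ ≤ 2 := h2

theorem cl_spider {m : ℕ} (hm : 2 ≤ m) (σ : Equiv.Perm (Fin (m + 1))) :
    IsSpiderForest ((SimpleGraph.pathGraph (m + 1)).comap σ.symm) := by
  refine ⟨?_, ?_, ?_⟩
  · exact (SimpleGraph.Iso.comap σ.symm (SimpleGraph.pathGraph (m + 1))).isAcyclic_iff.2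
      (cl_path_acyclic m)
  · intro v
    refine ⟨σ ⟨1, by omega⟩, ?_, cl_deg hm σ⟩
    have hc : ((SimpleGraph.pathGraph (m + 1)).comap σ.symm).Connected :=
      (SimpleGraph.Iso.comap σ.symm (SimpleGraph.pathGraph (m + 1))).connected_iff.2
        (SimpleGraph.pathGraph_connected m)
    exact hc.preconnected _ _
  · intro a b _ ha _
    have := cl_deg_le σ a
    omega

theorem count_lower (n : ℕ) (hn : 3 ≤ n) :
    (n - 1).factorial ≤ {G : SimpleGraph (Fin n) | IsSpiderForest G}.ncard := by
  obtain ⟨m, rfl⟩ : ∃ m, n = m + 1 := ⟨n - 1, by omega⟩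
  have hinj : Function.Injective (fun e : Equiv.Perm (Fin m) =>
      (SimpleGraph.pathGraph (m + 1)).comap (Equiv.Perm.decomposeFin.symm (0, e)).symm) := by
    intro e e' h
    have := cl_eq _ _ (Equiv.Perm.decomposeFin_symm_apply_zero 0 e)
      (Equiv.Perm.decomposeFin_symm_apply_zero 0 e') h
    have := Equiv.Perm.decomposeFin.symm.injective this
    exact (Prod.mk.inj this).2
  have h1 : (Set.range (fun e : Equiv.Perm (Fin m) =>
      (SimpleGraph.pathGraph (m + 1)).comap (Equiv.Perm.decomposeFin.symm (0, e)).symm)).ncard =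
      m.factorial := by
    rw [← Set.image_univ, Set.ncard_image_of_injective _ hinj, Set.ncard_univ,
      Nat.card_eq_fintype_card, Fintype.card_perm, Fintype.card_fin]
  rw [Nat.add_sub_cancel, ← h1]
  refine Set.ncard_le_ncard ?_ (Set.toFinite _)
  rintro _ ⟨e, rfl⟩
  exact cl_spider (by omega) _

end Pool.SpA
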