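import Mathlib

/-!
# Counting parent functions (MP_9fc547_co, note 3500, section 4)

A rooted spider forest on `Fin n` is recorded by its parent function `p` (`p v = v` exactly at the
roots).  `RR p` is the set of roots, `AA p` the set of first vertices of the legs; on the other
vertices `p` is injective.
-/

namespace Pool.SpA

open Finset

variable {n : ℕ}

/-- Roots. -/
def RR (p : Fin n → Fin n) : Finset (Fin n) := univ.filter fun v => p v = v

/-- First vertices of the legs. -/
def AA (p : Fin n → Fin n) : Finset (Fin n) := univ.filter fun v => p v ≠ v ∧ p (p v) = p v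

open Classical in
/-- The functions with given roots and first vertices. -/
theorem card_fixed (R A : Finset (Fin n)) (hd : Disjoint R A) :
    ((univ : Finset (Fin n → Fin n)).filter (fun p => Set.InjOn p {v | p (p v) ≠ p v} ∧
      RR p = R ∧ AA p = A)).card ≤
      R.card ^ A.card * (n - R.card).descFactorial (n - R.card - A.card) := by
  -- code
  let T := ({v // v ∈ A} → {v // v ∈ R}) × ({v : Fin n // v ∉ R ∧ v ∉ A} ↪ {v : Fin n // v ∉ R})
  let S := {p : Fin n → Fin n // Set.InjOn p {v | p (p v) ≠ p v} ∧ RR p = R ∧ AA p = A}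
  have hS : ((univ : Finset (Fin n → Fin n)).filter (fun p => Set.InjOn p {v | p (p v) ≠ p v} ∧
      RR p = R ∧ AA p = A)).card = Fintype.card S := by
    rw [Fintype.card_subtype]
  have hR : ∀ p : S, ∀ v, v ∈ R ↔ p.1 v = v := by
    intro p v
    have := Finset.ext_iff.1 p.2.2.1 v
    simpa [RR] using this.symm
  have hA : ∀ p : S, ∀ v, v ∈ A ↔ p.1 v ≠ v ∧ p.1 (p.1 v) = p.1 v := by
    intro p v
    have := Finset.ext_iff.1 p.2.2.2 v
    simpa [AA] using this.symm
  have hrest : ∀ p : S, ∀ v, (v ∉ R ∧ v ∉ A) → p.1 (p.1 v) ≠ p.1 v := by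
    intro p v h h2
    by_cases h3 : p.1 v = v
    · exact h.1 ((hR p v).2 h3)
    · exact h.2 ((hA p v).2 ⟨h3, h2⟩)
  let F : S → T := fun p =>
    (fun v => ⟨p.1 v.1, (hR p _).2 ((hA p v.1).1 v.2).2⟩,
      ⟨fun v => ⟨p.1 v.1, fun h => hrest p v.1 v.2 ((hR p _).1 h)⟩, by
        intro v w hvw
        have h1 : p.1 v.1 = p.1 w.1 := by simpa using congrArg Subtype.val hvw
        exact Subtype.ext (p.2.1 (hrest p v.1 v.2) (hrest p w.1 w.2) h1)⟩)
  have hF : Function.Injective F := by
    intro p q hpq
    apply Subtype.ext
    funext v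
    by_cases h1 : v ∈ R
    · rw [(hR p v).1 h1, (hR q v).1 h1]
    · by_cases h2 : v ∈ A
      · have := congrArg (fun t : T => (t.1 ⟨v, h2⟩).1) hpq
        exact this
      · have := congrArg (fun t : T => (t.2 ⟨v, h1, h2⟩).1) hpq
        exact this
  have hc := Fintype.card_le_of_injective F hF
  rw [hS]
  refine hc.trans ?_
  have e1 : Fintype.card ({v // v ∈ A} → {v // v ∈ R}) = R.card ^ A.card := by
    rw [Fintype.card_fun, Fintype.card_coe, Fintype.card_coe]
  have e2 : Fintype.card {v : Fin n // v ∉ R} = n - R.card := by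
    rw [Fintype.card_subtype_compl, Fintype.card_fin, Fintype.card_coe]
  have e3 : Fintype.card {v : Fin n // v ∉ R ∧ v ∉ A} = n - R.card - A.card := by
    have h1 : Fintype.card {v : Fin n // v ∉ R ∧ v ∉ A} =
        Fintype.card {v : Fin n // ¬ (v ∈ R ∪ A)} := by
      apply Fintype.card_congr
      exact Equiv.subtypeEquivRight (by intro v; simp [not_or])
    rw [h1, Fintype.card_subtype_compl, Fintype.card_fin, Fintype.card_coe,
      card_union_of_disjoint hd]
    omega
  rw [Fintype.card_prod, e1, Fintype.card_embedding_eq, e2, e3]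

/-- The arithmetic of one term. -/
theorem term_le (n c N : ℕ) (hc : c ≤ n) (hN : N ≤ n - c) :
    ((n.choose c * ((n - c).choose N * (c ^ N * (n - c).descFactorial (n - c - N))) : ℕ) : ℝ) ≤
      ((n.factorial : ℝ) * 2 ^ n * (c : ℝ) ^ N) / (c.factorial * N.factorial) := by
  have h1 : (c.factorial : ℝ) * (n - c).factorial * n.choose c = n.factorial := by
    have := Nat.choose_mul_factorial_mul_factorial hc
    have h : c.factorial * (n - c).factorial * n.choose c = n.factorial := by
      rw [← this]; ring
    exact_mod_cast h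
  have h2 : (N.factorial : ℝ) * (n - c).descFactorial (n - c - N) = (n - c).factorial := by
    have := Nat.factorial_mul_descFactorial (Nat.sub_le (n - c) N)
    have h3 : n - c - (n - c - N) = N := by omega
    rw [h3] at this
    exact_mod_cast this
  have h3 : ((n - c).choose N : ℝ) ≤ 2 ^ n := by
    have h31 : (n - c).choose N ≤ 2 ^ (n - c) := Nat.choose_le_two_pow _ _
    have h32 : 2 ^ (n - c) ≤ 2 ^ n := Nat.pow_le_pow_right (by norm_num) (by omega)
    exact_mod_cast h31.trans h32
  have p1 : (0 : ℝ) < c.factorial := by exact_mod_cast Nat.factorial_pos c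
  have p2 : (0 : ℝ) < N.factorial := by exact_mod_cast Nat.factorial_pos N
  rw [le_div_iff₀ (by positivity)]
  push_cast
  calc (n.choose c : ℝ) * ((n - c).choose N * ((c : ℝ) ^ N * (n - c).descFactorial (n - c - N)))
        * (c.factorial * N.factorial)
      = (n - c).choose N * (c : ℝ) ^ N * (c.factorial *
          (N.factorial * (n - c).descFactorial (n - c - N)) * n.choose c) := by ring
    _ = (n - c).choose N * (c : ℝ) ^ N * n.factorial := by rw [h2, h1]
    _ ≤ 2 ^ n * (c : ℝ) ^ N * n.factorial := by
        gcongr
    _ = _ := by ring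

open Classical in
/-- The number of parent functions with many legs. -/
theorem card_fun (n C : ℕ) :
    (((univ : Finset (Fin n → Fin n)).filter (fun p => Set.InjOn p {v | p (p v) ≠ p v} ∧
      n < (2 * C + 1) * (AA p).card)).card : ℝ) ≤
    ∑ c ∈ range (n + 1), ∑ N ∈ (range (n + 1)).filter (fun N => n < (2 * C + 1) * N),
      ((n.factorial : ℝ) * 2 ^ n * (c : ℝ) ^ N) / (c.factorial * N.factorial) := by
  set f : ℕ → ℕ → ℕ := fun c N => if n < (2 * C + 1) * N then
    c ^ N * (n - c).descFactorial (n - c - N) else 0 with hf
  have h1 : ((univ : Finset (Fin n → Fin n)).filter (fun p => Set.InjOn p {v | p (p v) ≠ p v} ∧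
      n < (2 * C + 1) * (AA p).card)).card ≤
      ∑ R ∈ (univ : Finset (Fin n)).powerset, ∑ A ∈ (univ \ R).powerset, f R.card A.card := by
    have h2 : (univ : Finset (Fin n → Fin n)).filter (fun p => Set.InjOn p {v | p (p v) ≠ p v} ∧
        n < (2 * C + 1) * (AA p).card) ⊆
        (univ : Finset (Fin n)).powerset.biUnion fun R => (univ \ R).powerset.biUnion fun A =>
          if n < (2 * C + 1) * A.card then
          (univ : Finset (Fin n → Fin n)).filter (fun p => Set.InjOn p {v | p (p v) ≠ p v} ∧
            RR p = R ∧ AA p = A) else ∅ := by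
      intro p hp
      rw [mem_filter] at hp
      rw [mem_biUnion]
      refine ⟨RR p, by simp, ?_⟩
      rw [mem_biUnion]
      refine ⟨AA p, ?_, ?_⟩
      · rw [mem_powerset]
        intro v hv
        simp only [AA, mem_filter, mem_univ, true_and] at hv
        simp only [RR, mem_sdiff, mem_filter, mem_univ, true_and]
        exact hv.1
      · rw [if_pos hp.2.2, mem_filter]
        exact ⟨mem_univ _, hp.2.1, rfl, rfl⟩
    refine (card_le_card h2).trans ?_
    refine card_biUnion_le.trans (sum_le_sum fun R _ => ?_)
    refine card_biUnion_le.trans (sum_le_sum fun A hA => ?_)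
    rw [mem_powerset] at hA
    have hd : Disjoint R A := by
      rw [disjoint_left]
      intro v hv hv2
      have := hA hv2
      rw [mem_sdiff] at this
      exact this.2 hv
    simp only [hf]
    split_ifs with h
    · exact card_fixed R A hd
    · simp
  have h3 : ∑ R ∈ (univ : Finset (Fin n)).powerset, ∑ A ∈ (univ \ R).powerset, f R.card A.card
      = ∑ c ∈ range (n + 1), n.choose c * ∑ N ∈ range (n - c + 1), (n - c).choose N * f c N := by
    have h4 : ∀ R ∈ (univ : Finset (Fin n)).powerset,
        ∑ A ∈ (univ \ R).powerset, f R.card A.card =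
        (fun c => ∑ N ∈ range (n - c + 1), (n - c).choose N * f c N) R.card := by
      intro R _
      rw [sum_powerset_apply_card (fun N => f R.card N)]
      have : (univ \ R).card = n - R.card := by
        rw [card_sdiff_of_subset (subset_univ R), card_univ, Fintype.card_fin]
      rw [this]
      simp only [smul_eq_mul]
    rw [sum_congr rfl h4, sum_powerset_apply_card
      (fun c => ∑ N ∈ range (n - c + 1), (n - c).choose N * f c N)]
    simp only [card_univ, Fintype.card_fin, smul_eq_mul]
  calc (((univ : Finset (Fin n → Fin n)).filter (fun p => Set.InjOn p {v | p (p v) ≠ p v} ∧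
      n < (2 * C + 1) * (AA p).card)).card : ℝ)
      ≤ ((∑ c ∈ range (n + 1), n.choose c *
          ∑ N ∈ range (n - c + 1), (n - c).choose N * f c N : ℕ) : ℝ) := by
        rw [← h3]; exact_mod_cast h1
    _ = ∑ c ∈ range (n + 1), ∑ N ∈ range (n - c + 1),
          ((n.choose c * ((n - c).choose N * f c N) : ℕ) : ℝ) := by
        rw [Nat.cast_sum]
        apply sum_congr rfl
        intro c _
        rw [mul_sum, Nat.cast_sum]
    _ ≤ ∑ c ∈ range (n + 1), ∑ N ∈ range (n - c + 1),
          if n < (2 * C + 1) * N then
            ((n.factorial : ℝ) * 2 ^ n * (c : ℝ) ^ N) / (c.factorial * N.factorial) else 0 := by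
        apply sum_le_sum
        intro c hc
        apply sum_le_sum
        intro N hN
        rw [mem_range] at hc hN
        simp only [hf]
        split_ifs with h
        · exact term_le n c N (by omega) (by omega)
        · simp
    _ ≤ ∑ c ∈ range (n + 1), ∑ N ∈ range (n + 1),
          if n < (2 * C + 1) * N then
            ((n.factorial : ℝ) * 2 ^ n * (c : ℝ) ^ N) / (c.factorial * N.factorial) else 0 := by
        apply sum_le_sum
        intro c hc
        apply sum_le_sum_of_subset_of_nonneg
        · intro N hN
          rw [mem_range] at hN ⊢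
          omega
        · intro N _ _
          split_ifs
          · positivity
          · exact le_refl _
    _ = _ := by
        refine sum_congr rfl fun c _ => ?_
        rw [sum_filter]

end Pool.SpA
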