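import Pool.Agent.SpA.LegsCount
import Pool.Agent.SpA.CountFun

/-!
# SpA/CountUpper

At most `C(n,c) C(n-c,N) c^N (n-c)(n-c-1)...(N+1)` graphs on `Fin n` are described by `N` legs
with `c` roots.

Proof.  To `G` with a description `L` (choose one) attach the parent function `p`: `p` fixes the
roots and maps `vert i t` to the previous vertex.  `p` determines `G`, the set of fixed points of
`p` has `c` elements, the set `AA p` of the first vertices of the legs has `N` elements, and `p` is
injective on the other vertices.  The number of such functions is bounded with `card_fixed`.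
-/

namespace Pool.SpA

open Finset

open Classical in
/-- The number of parent functions with `c` roots and `N` legs. -/
theorem card_RA (n c N : ℕ) :
    ((univ : Finset (Fin n → Fin n)).filter (fun p => Set.InjOn p {v | p (p v) ≠ p v} ∧
      (RR p).card = c ∧ (AA p).card = N)).card ≤
      n.choose c * ((n - c).choose N * (c ^ N * (n - c).descFactorial (n - c - N))) := by
  have h2 : (univ : Finset (Fin n → Fin n)).filter (fun p => Set.InjOn p {v | p (p v) ≠ p v} ∧
      (RR p).card = c ∧ (AA p).card = N) ⊆
      (powersetCard c (univ : Finset (Fin n))).biUnion fun R =>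
        (powersetCard N (univ \ R)).biUnion fun A =>
        (univ : Finset (Fin n → Fin n)).filter (fun p => Set.InjOn p {v | p (p v) ≠ p v} ∧
          RR p = R ∧ AA p = A) := by
    intro p hp
    rw [mem_filter] at hp
    rw [mem_biUnion]
    refine ⟨RR p, by rw [mem_powersetCard]; exact ⟨subset_univ _, hp.2.2.1⟩, ?_⟩
    rw [mem_biUnion]
    refine ⟨AA p, ?_, ?_⟩
    · rw [mem_powersetCard]
      refine ⟨?_, hp.2.2.2⟩
      intro v hv
      simp only [AA, mem_filter, mem_univ, true_and] at hv
      simp only [RR, mem_sdiff, mem_filter, mem_univ, true_and]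
      exact hv.1
    · rw [mem_filter]
      exact ⟨mem_univ _, hp.2.1, rfl, rfl⟩
  refine (card_le_card h2).trans ?_
  have h3 : ∀ R ∈ powersetCard c (univ : Finset (Fin n)),
      ((powersetCard N (univ \ R)).biUnion fun A =>
        (univ : Finset (Fin n → Fin n)).filter (fun p => Set.InjOn p {v | p (p v) ≠ p v} ∧
          RR p = R ∧ AA p = A)).card ≤
      (n - c).choose N * (c ^ N * (n - c).descFactorial (n - c - N)) := by
    intro R hR
    rw [mem_powersetCard] at hR
    have h4 : ∀ A ∈ powersetCard N (univ \ R),
        ((univ : Finset (Fin n → Fin n)).filter (fun p => Set.InjOn p {v | p (p v) ≠ p v} ∧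
          RR p = R ∧ AA p = A)).card ≤ c ^ N * (n - c).descFactorial (n - c - N) := by
      intro A hA
      rw [mem_powersetCard] at hA
      have hd : Disjoint R A := by
        rw [disjoint_left]
        intro v hv hv2
        have := hA.1 hv2
        rw [mem_sdiff] at this
        exact this.2 hv
      have := card_fixed R A hd
      rw [hR.2, hA.2] at this
      exact this
    refine card_biUnion_le.trans ((sum_le_sum h4).trans ?_)
    rw [sum_const, card_powersetCard, smul_eq_mul, card_sdiff_of_subset (subset_univ R),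
      card_univ, Fintype.card_fin, hR.2]
  refine card_biUnion_le.trans ((sum_le_sum h3).trans ?_)
  rw [sum_const, card_powersetCard, smul_eq_mul, card_univ, Fintype.card_fin]

/-- The parent function of a description by legs. -/
theorem exists_parent_of_legs {n N : ℕ} {G : SimpleGraph (Fin n)} (L : Legs G N) :
    ∃ p : Fin n → Fin n, Set.InjOn p {v | p (p v) ≠ p v} ∧
      (RR p).card = (univ.image L.root).card ∧ (AA p).card = N ∧
      ∀ u v, G.Adj u v ↔ u ≠ v ∧ (p u = v ∨ p v = u) := by
  classical
  set pv : Fin N → ℕ → Fin n := fun i t => if t = 0 then L.root i else L.vert i (t - 1) with hpv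
  have hex : ∀ v, ∃ u, (∀ i t, t < L.n i → L.vert i t = v → u = pv i t) ∧
      ((∀ i t, t < L.n i → L.vert i t ≠ v) → u = v) := by
    intro v
    by_cases h : ∃ i t, t < L.n i ∧ L.vert i t = v
    · obtain ⟨i, t, ht, hv⟩ := h
      refine ⟨pv i t, ?_, ?_⟩
      · intro j s hs hjs
        obtain ⟨rfl, rfl⟩ := L.inj i j t s ht hs (hv.trans hjs.symm)
        rfl
      · intro h2
        exact absurd hv (h2 i t ht)
    · push Not at h
      refine ⟨v, ?_, fun _ => rfl⟩
      intro i t ht hv
      exact absurd hv (h i t ht)
  choose p hp1 hp2 using hex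
  have pvert : ∀ i t, t < L.n i → p (L.vert i t) = pv i t := fun i t ht => hp1 _ i t ht rfl
  have proot : ∀ i, p (L.root i) = L.root i := by
    intro i
    apply hp2
    intro j t ht h
    exact L.root_ne i j t ht h.symm
  have pv0 : ∀ i, pv i 0 = L.root i := fun i => by simp [hpv]
  have pvs : ∀ i t, pv i (t + 1) = L.vert i t := fun i t => by simp [hpv]
  have pne : ∀ i t, t < L.n i → pv i t ≠ L.vert i t := by
    intro i t ht h
    rcases t with _ | t
    · rw [pv0] at h
      exact L.root_ne i i 0 ht h
    · rw [pvs] at h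
      have := (L.inj i i t (t + 1) (by omega) ht h).2
      omega
  have hRR : RR p = univ.image L.root := by
    ext v
    simp only [RR, mem_filter, mem_univ, true_and, mem_image]
    constructor
    · intro h
      rcases L.cover v with h1 | ⟨i, t, ht, hv⟩
      · exact h1
      · exfalso
        rw [← hv, pvert i t ht] at h
        exact pne i t ht h
    · rintro ⟨i, rfl⟩
      exact proot i
  have hroot_or : ∀ v, p v ≠ v → ∃ i t, t < L.n i ∧ L.vert i t = v := by
    intro v hv
    rcases L.cover v with ⟨i, h1⟩ | h1
    · exfalso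
      apply hv
      rw [← h1]
      exact proot i
    · exact h1
  have hAA : AA p = univ.image (fun i => L.vert i 0) := by
    ext v
    simp only [AA, mem_filter, mem_univ, true_and, mem_image]
    constructor
    · rintro ⟨h1, h2⟩
      obtain ⟨i, t, ht, rfl⟩ := hroot_or v h1
      rcases t with _ | t
      · exact ⟨i, rfl⟩
      · exfalso
        rw [pvert i _ ht, pvs, pvert i t (by omega)] at h2
        exact pne i t (by omega) h2
    · rintro ⟨i, rfl⟩
      have h0 : 0 < L.n i := L.pos i
      rw [pvert i 0 h0]
      refine ⟨pne i 0 h0, ?_⟩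
      rw [pv0, proot]
  refine ⟨p, ?_, by rw [hRR], ?_, ?_⟩
  · intro v hv w hw hvw
    have hv : p (p v) ≠ p v := hv
    have hw : p (p w) ≠ p w := hw
    have hv1 : p v ≠ v := fun h => hv (by rw [h, h])
    have hw1 : p w ≠ w := fun h => hw (by rw [h, h])
    obtain ⟨i, t, ht, rfl⟩ := hroot_or v hv1
    obtain ⟨j, s, hs, rfl⟩ := hroot_or w hw1
    rw [pvert i t ht, pvert j s hs] at hvw
    rw [pvert i t ht] at hv
    rw [pvert j s hs] at hw
    rcases t with _ | t
    · exfalso
      apply hv
      rw [pv0, proot]
    · rcases s with _ | s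
      · exfalso
        apply hw
        rw [pv0, proot]
      · rw [pvs, pvs] at hvw
        obtain ⟨rfl, rfl⟩ := L.inj i j t s (by omega) (by omega) hvw
        rfl
  · rw [hAA, card_image_of_injective, card_univ, Fintype.card_fin]
    intro i j hij
    exact (L.inj i j 0 0 (L.pos i) (L.pos j) hij).1
  · intro u v
    rw [L.adj]
    constructor
    · rintro ⟨i, t, ht, ⟨hu, hv⟩ | ⟨hv, hu⟩⟩
      · have h1 : u = pv i t := hu
        rw [h1, hv, pvert i t ht]
        exact ⟨pne i t ht, Or.inr rfl⟩
      · have h1 : v = pv i t := hv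
        rw [h1, hu, pvert i t ht]
        exact ⟨(pne i t ht).symm, Or.inl rfl⟩
    · rintro ⟨hne, h | h⟩
      · obtain ⟨i, t, ht, rfl⟩ := hroot_or u (by rw [h]; exact hne.symm)
        refine ⟨i, t, ht, Or.inr ⟨?_, rfl⟩⟩
        rw [← h, pvert i t ht]
      · obtain ⟨i, t, ht, rfl⟩ := hroot_or v (by rw [h]; exact hne)
        refine ⟨i, t, ht, Or.inl ⟨?_, rfl⟩⟩
        rw [← h, pvert i t ht]

theorem count_upper (n N c : ℕ) :
    {G : SimpleGraph (Fin n) | ∃ L : Legs G N, (univ.image L.root).card = c}.ncard ≤
      n.choose c * ((n - c).choose N * (c ^ N * (n - c).descFactorial (n - c - N))) := by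
  classical
  refine le_trans ?_ (card_RA n c N)
  rw [← Set.ncard_coe_finset]
  have hex : ∀ G : SimpleGraph (Fin n), ∃ p : Fin n → Fin n,
      (∃ L : Legs G N, (univ.image L.root).card = c) →
      (Set.InjOn p {v | p (p v) ≠ p v} ∧ (RR p).card = c ∧ (AA p).card = N ∧
        ∀ u v, G.Adj u v ↔ u ≠ v ∧ (p u = v ∨ p v = u)) := by
    intro G
    by_cases h : ∃ L : Legs G N, (univ.image L.root).card = c
    · obtain ⟨L, hL⟩ := h
      obtain ⟨p, h1, h2, h3, h4⟩ := exists_parent_of_legs L
      exact ⟨p, fun _ => ⟨h1, h2.trans hL, h3, h4⟩⟩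
    · exact ⟨id, fun h2 => absurd h2 h⟩
  choose P hP using hex
  apply Set.ncard_le_ncard_of_injOn P
  · intro G hG
    have := hP G hG
    rw [Finset.mem_coe, mem_filter]
    exact ⟨mem_univ _, this.1, this.2.1, this.2.2.1⟩
  · intro G hG H hH hGH
    ext u v
    rw [(hP G hG).2.2.2 u v, (hP H hH).2.2.2 u v, hGH]

end Pool.SpA
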