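import Pool.Agent.SpA.Defs
import Pool.Agent.SpA57.Rooted

/-!
# SpA/ExistsLegs

Every spider forest is described by legs (from the parent function of `SpA57/Rooted`).
-/

namespace Pool.SpA

open Finset

open Classical in
lemma deg_eq {V : Type*} [Fintype V] (G : SimpleGraph V) (v : V) :
    deg G v = (G.neighborSet v).ncard := by
  unfold deg
  rw [← Set.ncard_coe_finset]
  congr 1
  ext w
  simp

lemma IsSpiderForest.to57 {V : Type*} [Fintype V] {G : SimpleGraph V} (hG : IsSpiderForest G) :
    Pool.SpA57.IsSpiderForest G := by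
  refine ⟨hG.acyclic, ?_, ?_⟩
  · intro v
    obtain ⟨b, hb, hb'⟩ := hG.two v
    exact ⟨b, hb, by rw [← deg_eq]; exact hb'⟩
  · intro v w hvw hv hw
    rw [← deg_eq] at hv hw
    exact hG.one v w hvw hv hw

section

variable {V : Type*} {G : SimpleGraph V} {p : V → V} {dep : V → ℕ}

/-- first vertex of the leg of `v` -/
def fst (p : V → V) (dep : V → ℕ) (v : V) : V := p^[dep v - 1] v

lemma dep_iter (h : Pool.SpA57.Rooted G p dep) (v : V) (k : ℕ) (hk : k ≤ dep v) :
    dep (p^[k] v) = dep v - k := by
  induction k with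
  | zero => simp
  | succ k ih =>
    rw [Function.iterate_succ_apply']
    have h1 := ih (by omega)
    have h2 : p (p^[k] v) ≠ p^[k] v := by
      intro h3
      rw [h.root] at h3
      omega
    have h3 := h.step _ h2
    omega

lemma dep_fst (h : Pool.SpA57.Rooted G p dep) (v : V) (hv : dep v ≠ 0) :
    dep (fst p dep v) = 1 := by
  unfold fst
  rw [dep_iter h v _ (by omega)]
  omega

lemma fst_of_one (v : V) (hv : dep v = 1) : fst p dep v = v := by
  unfold fst
  rw [hv]
  rfl

lemma fst_iter (h : Pool.SpA57.Rooted G p dep) (v : V) (k : ℕ) (hk : k + 1 ≤ dep v) :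
    fst p dep (p^[k] v) = fst p dep v := by
  unfold fst
  rw [dep_iter h v k (by omega), ← Function.iterate_add_apply]
  congr 1
  congr 1
  omega

lemma fst_unique (h : Pool.SpA57.Rooted G p dep) : ∀ (d : ℕ) (v w : V), dep v = d + 1 →
    dep w = d + 1 → fst p dep v = fst p dep w → v = w := by
  intro d
  induction d with
  | zero =>
    intro v w hv hw hvw
    rwa [fst_of_one v hv, fst_of_one w hw] at hvw
  | succ d ih =>
    intro v w hv hw hvw
    have hpv : p v ≠ v := by rw [Ne, h.root]; omega
    have hpw : p w ≠ w := by rw [Ne, h.root]; omega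
    have h1 := h.step v hpv
    have h2 := h.step w hpw
    have h3 : fst p dep (p v) = fst p dep v := fst_iter h v 1 (by omega)
    have h4 : fst p dep (p w) = fst p dep w := fst_iter h w 1 (by omega)
    have h5 : p v = p w := ih (p v) (p w) (by omega) (by omega) (by rw [h3, h4, hvw])
    refine h.inj v w hpv hpw h5 ?_
    rw [Ne, h.root]
    omega

end

theorem exists_legs {V : Type*} [Fintype V] (G : SimpleGraph V) (hG : IsSpiderForest G) :
    ∃ N, Nonempty (Legs G N) := by
  classical
  obtain ⟨p, dep, h⟩ := Pool.SpA57.exists_rooted hG.to57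
  -- first vertices
  let A : Finset V := univ.filter (fun v => dep v = 1)
  let e : A ≃ Fin A.card := A.equivFin
  set a : Fin A.card → V := fun i => (e.symm i).1 with ha
  have ha1 : ∀ i, dep (a i) = 1 := fun i => (mem_filter.1 (e.symm i).2).2
  have hainj : Function.Injective a := fun i j hij => e.symm.injective (Subtype.ext hij)
  have hasurj : ∀ v, dep v = 1 → ∃ i, a i = v := by
    intro v hv
    refine ⟨e ⟨v, mem_filter.2 ⟨mem_univ _, hv⟩⟩, ?_⟩
    rw [ha]
    simp
  set len : Fin A.card → ℕ := fun i =>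
    (univ.filter (fun v => dep v ≠ 0 ∧ fst p dep v = a i)).sup dep with hlen
  have hle : ∀ i v, dep v ≠ 0 → fst p dep v = a i → dep v ≤ len i := by
    intro i v hv hv'
    exact Finset.le_sup (f := dep) (mem_filter.2 ⟨mem_univ _, hv, hv'⟩)
  have hex : ∀ i t, t < len i → ∃ v, dep v = t + 1 ∧ fst p dep v = a i := by
    intro i t ht
    have hne : (univ.filter (fun v => dep v ≠ 0 ∧ fst p dep v = a i)).Nonempty :=
      ⟨a i, mem_filter.2 ⟨mem_univ _, by rw [ha1]; norm_num, fst_of_one _ (ha1 i)⟩⟩
    obtain ⟨w, hw, hw'⟩ := Finset.exists_mem_eq_sup _ hne dep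
    rw [mem_filter] at hw
    have hw'' : len i = dep w := hw'
    refine ⟨p^[dep w - (t + 1)] w, ?_, ?_⟩
    · rw [dep_iter h w _ (by omega)]
      omega
    · rw [fst_iter h w _ (by omega)]
      exact hw.2.2
  have hex' : ∀ i t, ∃ v, t < len i → (dep v = t + 1 ∧ fst p dep v = a i) := by
    intro i t
    by_cases ht : t < len i
    · obtain ⟨v, hv⟩ := hex i t ht
      exact ⟨v, fun _ => hv⟩
    · exact ⟨a i, fun h => absurd h ht⟩
  choose vt hvt using hex'
  have hvt1 := fun i t ht => (hvt i t ht).1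
  have hvt2 := fun i t ht => (hvt i t ht).2
  have huniq : ∀ i t v, t < len i → dep v = t + 1 → fst p dep v = a i → vt i t = v := by
    intro i t v ht hv hv'
    exact fst_unique h t _ _ (hvt1 i t ht) hv (by rw [hvt2 i t ht, hv'])
  have hprev : ∀ i t, t < len i → p (vt i t) = if t = 0 then p (a i) else vt i (t - 1) := by
    intro i t ht
    by_cases h0 : t = 0
    · rw [if_pos h0]
      subst h0
      rw [huniq i 0 (a i) ht (ha1 i) (fst_of_one _ (ha1 i))]
    · rw [if_neg h0]
      have hd := hvt1 i t ht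
      have h1 : p (vt i t) ≠ vt i t := by rw [Ne, h.root]; omega
      have h2 := h.step _ h1
      symm
      apply huniq i (t - 1) _ (by omega) (by omega)
      have h3 : fst p dep (p^[1] (vt i t)) = fst p dep (vt i t) := fst_iter h (vt i t) 1 (by omega)
      rw [Function.iterate_one] at h3
      rw [h3, hvt2 i t ht]
  have hcov : ∀ v, dep v ≠ 0 → ∃ i t, t < len i ∧ vt i t = v := by
    intro v hv
    obtain ⟨i, hi⟩ := hasurj (fst p dep v) (dep_fst h v hv)
    have h1 := hle i v hv hi.symm
    exact ⟨i, dep v - 1, by omega, huniq i (dep v - 1) v (by omega) (by omega) hi.symm⟩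
  have hpd : ∀ i, dep (p (a i)) = 0 := by
    intro i
    have h1 : p (a i) ≠ a i := by rw [Ne, h.root, ha1]; norm_num
    have h2 := h.step _ h1
    rw [ha1] at h2
    omega
  have hchild : ∀ c x, p c = c → p x = c → x ≠ c → dep x = 1 := by
    intro c x hc hx hne
    have h1 := h.step x (by rw [hx]; exact hne.symm)
    rw [hx, (h.root c).1 hc] at h1
    omega
  refine ⟨A.card, ⟨{
    n := len
    root := fun i => p (a i)
    vert := vt
    pos := ?_
    inj := ?_
    root_ne := ?_
    cover := ?_
    adj := ?_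
    one := ?_ }⟩⟩
  · intro i
    have := hle i (a i) (by rw [ha1]; norm_num) (fst_of_one _ (ha1 i))
    rw [ha1] at this
    exact this
  · intro i j t s ht hs hts
    have h1 := hvt2 i t ht
    have h2 := hvt2 j s hs
    rw [hts, h2] at h1
    have h3 := hvt1 i t ht
    have h4 := hvt1 j s hs
    rw [hts, h4] at h3
    exact ⟨(hainj h1).symm, by omega⟩
  · intro i j t ht hh
    have h1 := hvt1 j t ht
    rw [← hh, hpd i] at h1
    omega
  · intro v
    by_cases hv : dep v = 0
    · left
      have hv' := (h.root v).2 hv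
      obtain ⟨x, y, hxy, hx, hy, hpx, hpy⟩ := h.child v hv'
      obtain ⟨i, hi⟩ := hasurj x (hchild v x hv' hpx hx)
      exact ⟨i, by rw [hi]; exact hpx⟩
    · right
      exact hcov v hv
  · have key : ∀ u v, u ≠ v → p v = u → ∃ i t, t < len i ∧
        u = (if t = 0 then p (a i) else vt i (t - 1)) ∧ v = vt i t := by
      intro u v huv hpv
      have hv : dep v ≠ 0 := by
        intro hv
        rw [← h.root] at hv
        exact huv (hpv.symm.trans hv)
      obtain ⟨i, t, ht, hit⟩ := hcov v hv
      refine ⟨i, t, ht, ?_, hit.symm⟩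
      rw [← hprev i t ht, hit, hpv]
    have key2 : ∀ i t, t < len i → p (vt i t) ≠ vt i t := by
      intro i t ht
      rw [Ne, h.root, hvt1 i t ht]
      omega
    intro u v
    rw [h.adj]
    constructor
    · rintro ⟨huv, h1 | h1⟩
      · obtain ⟨i, t, ht, h2, h3⟩ := key v u huv.symm h1
        exact ⟨i, t, ht, Or.inr ⟨h2, h3⟩⟩
      · obtain ⟨i, t, ht, h2, h3⟩ := key u v huv h1
        exact ⟨i, t, ht, Or.inl ⟨h2, h3⟩⟩
    · rintro ⟨i, t, ht, ⟨h1, h2⟩ | ⟨h1, h2⟩⟩
      · rw [← hprev i t ht] at h1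
        rw [h1, h2]
        exact ⟨key2 i t ht, Or.inr rfl⟩
      · rw [← hprev i t ht] at h1
        rw [h1, h2]
        exact ⟨(key2 i t ht).symm, Or.inl rfl⟩
  · intro i _
    have hr : p (p (a i)) = p (a i) := (h.root _).2 (hpd i)
    obtain ⟨x, y, hxy, hx, hy, hpx, hpy⟩ := h.child (p (a i)) hr
    obtain ⟨j, hj⟩ := hasurj x (hchild _ x hr hpx hx)
    obtain ⟨j', hj'⟩ := hasurj y (hchild _ y hr hpy hy)
    by_cases hji : j = i
    · refine ⟨j', ?_, ?_⟩
      · rintro rfl
        apply hxy
        rw [← hj, ← hj', hji]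
      · show p (a j') = p (a i)
        rw [hj', hpy]
    · refine ⟨j, hji, ?_⟩
      show p (a j) = p (a i)
      rw [hj, hpx]

end Pool.SpA
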