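import Pool.Agent.SpA.LegsCount

/-!
# SpA/Transfer

A good labeling of the legs gives a shifted antimagic labeling of the graph.

Proof.  Define the labeling `F : Sym2 V → ℤ` by `F e = f i t` if `e = s(prev i t, vert i t)`, `t < n i`
(choice; unique by `LegsCount`), and `0` otherwise.  `BijOn`: maps to `Ioc k (k+m)` by `lo`, `hi`
(`edges_card`), injective by `inj`, surjective by counting (`m` labels, `m` numbers).
Neighbours of `vert i t`: `prev i t`, and `vert i (t+1)` if `t + 1 < n i`; so the sum at `vert i t` is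
`vs n f i t`.  Neighbours of a root `c`: the `vert i 0` with `root i = c`; so the sum at `c` is
`rs root f c`.  Every vertex is a root or a `vert i t` (`cover`), so injectivity follows from `vinj`,
`rinj`, `vr` (and `root_ne`).
-/

namespace Pool.SpA

open Finset

/-- the vertex before the `t`-th vertex of leg `i` -/
def Legs.prev {V : Type*} {G : SimpleGraph V} {N : ℕ} (L : Legs G N) (i : Fin N) (t : ℕ) : V :=
  if t = 0 then L.root i else L.vert i (t - 1)

theorem Legs.prev_ne {V : Type*} {G : SimpleGraph V} {N : ℕ} (L : Legs G N) {i j : Fin N}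
    {t s : ℕ} (ht : t < L.n i) (hs : s < L.n j) (h : L.prev i t = L.vert j s) :
    i = j ∧ 0 < t ∧ t - 1 = s := by
  unfold Legs.prev at h
  split_ifs at h with h0
  · exact absurd h (L.root_ne i j s hs)
  · have := L.inj i j (t - 1) s (by omega) hs h
    exact ⟨this.1, by omega, this.2⟩

theorem Legs.edge_inj {V : Type*} {G : SimpleGraph V} {N : ℕ} (L : Legs G N) {i j : Fin N}
    {t s : ℕ} (ht : t < L.n i) (hs : s < L.n j)
    (h : s(L.prev i t, L.vert i t) = s(L.prev j s, L.vert j s)) : i = j ∧ t = s := by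
  rw [Sym2.eq_iff] at h
  rcases h with ⟨_, h⟩ | ⟨h1, h2⟩
  · exact L.inj i j t s ht hs h
  · have k1 := L.prev_ne ht hs h1
    have k2 := L.prev_ne hs ht h2.symm
    omega

theorem Legs.adj_iff {V : Type*} {G : SimpleGraph V} {N : ℕ} (L : Legs G N) (u v : V) :
    G.Adj u v ↔ ∃ i t, t < L.n i ∧ s(u, v) = s(L.prev i t, L.vert i t) := by
  rw [L.adj]
  constructor
  · rintro ⟨i, t, ht, h⟩
    refine ⟨i, t, ht, ?_⟩
    rw [Sym2.eq_iff]
    rcases h with ⟨h1, h2⟩ | ⟨h1, h2⟩
    · left; exact ⟨h1, h2⟩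
    · right; exact ⟨h2, h1⟩
  · rintro ⟨i, t, ht, h⟩
    refine ⟨i, t, ht, ?_⟩
    rw [Sym2.eq_iff] at h
    rcases h with ⟨h1, h2⟩ | ⟨h1, h2⟩
    · left; exact ⟨h1, h2⟩
    · right; exact ⟨h2, h1⟩

theorem Legs.mem_edgeSet_iff {V : Type*} {G : SimpleGraph V} {N : ℕ} (L : Legs G N) (e : Sym2 V) :
    e ∈ G.edgeSet ↔ ∃ i t, t < L.n i ∧ e = s(L.prev i t, L.vert i t) := by
  induction e using Sym2.ind with
  | _ u v => rw [SimpleGraph.mem_edgeSet, L.adj_iff]

open Classical in
/-- the labeling of the edges -/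
noncomputable def Legs.lab {V : Type*} {G : SimpleGraph V} {N : ℕ} (L : Legs G N)
    (f : Fin N → ℕ → ℤ) (e : Sym2 V) : ℤ :=
  if h : ∃ p : Fin N × ℕ, p.2 < L.n p.1 ∧ e = s(L.prev p.1 p.2, L.vert p.1 p.2) then
    f h.choose.1 h.choose.2 else 0

theorem Legs.lab_edge {V : Type*} {G : SimpleGraph V} {N : ℕ} (L : Legs G N)
    (f : Fin N → ℕ → ℤ) {i : Fin N} {t : ℕ} (ht : t < L.n i) :
    L.lab f s(L.prev i t, L.vert i t) = f i t := by
  have h : ∃ p : Fin N × ℕ, p.2 < L.n p.1 ∧
      s(L.prev i t, L.vert i t) = s(L.prev p.1 p.2, L.vert p.1 p.2) := ⟨(i, t), ht, rfl⟩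
  unfold Legs.lab
  rw [dif_pos h]
  have h1 := h.choose_spec
  have h2 := L.edge_inj ht h1.1 h1.2
  rw [← h2.1, ← h2.2]

theorem Legs.sum_root {V : Type*} [Fintype V] [DecidableEq V] {G : SimpleGraph V} {N : ℕ}
    (L : Legs G N) (f : Fin N → ℕ → ℤ) (c : V) (hc : ∃ i, L.root i = c)
    [DecidablePred fun w => G.Adj c w] :
    ∑ w ∈ univ.filter (fun w => G.Adj c w), L.lab f s(c, w) = rs L.root f c := by
  have hset : univ.filter (fun w => G.Adj c w) =
      (univ.filter (fun i => L.root i = c)).image (fun i => L.vert i 0) := by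
    ext w
    simp only [mem_filter, mem_univ, true_and, mem_image]
    rw [L.adj_iff]
    obtain ⟨i0, hi0⟩ := hc
    constructor
    · rintro ⟨i, t, ht, h⟩
      rw [Sym2.eq_iff] at h
      rcases h with ⟨h1, h2⟩ | ⟨h1, h2⟩
      · by_cases h0 : t = 0
        · refine ⟨i, ?_, ?_⟩
          · rw [h1]; simp [Legs.prev, h0]
          · rw [h2, h0]
        · exfalso
          have h3 : L.root i0 = L.vert i (t - 1) := by
            rw [hi0, h1]; simp [Legs.prev, h0]
          exact L.root_ne i0 i (t - 1) (by omega) h3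
      · exfalso
        exact L.root_ne i0 i t ht (by rw [hi0, h1])
    · rintro ⟨i, h1, h2⟩
      refine ⟨i, 0, L.pos i, ?_⟩
      rw [← h1, ← h2]
      simp [Legs.prev]
  rw [hset, sum_image]
  · unfold rs
    apply sum_congr rfl
    intro i hi
    simp only [mem_filter, mem_univ, true_and] at hi
    have h := L.lab_edge f (L.pos i)
    rw [← h]
    congr 2
    simp [Legs.prev, hi]
  · intro i hi j hj h
    exact (L.inj i j 0 0 (L.pos i) (L.pos j) h).1

theorem Legs.sum_vert {V : Type*} [Fintype V] [DecidableEq V] {G : SimpleGraph V} {N : ℕ}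
    (L : Legs G N) (f : Fin N → ℕ → ℤ) {i : Fin N} {t : ℕ} (ht : t < L.n i)
    [DecidablePred fun w => G.Adj (L.vert i t) w] :
    ∑ w ∈ univ.filter (fun w => G.Adj (L.vert i t) w), L.lab f s(L.vert i t, w) =
      vs L.n f i t := by
  by_cases h1 : t + 1 < L.n i
  · have hset : univ.filter (fun w => G.Adj (L.vert i t) w) =
        {L.prev i t, L.vert i (t + 1)} := by
      ext w
      simp only [mem_filter, mem_univ, true_and, mem_insert, mem_singleton]
      rw [L.adj_iff]
      constructor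
      · rintro ⟨j, s, hs, h⟩
        rw [Sym2.eq_iff] at h
        rcases h with ⟨h2, h3⟩ | ⟨h2, h3⟩
        · obtain ⟨k1, k2, k3⟩ := L.prev_ne hs ht h2.symm
          right
          rw [h3, k1]
          congr 1
          omega
        · obtain ⟨k1, k2⟩ := L.inj i j t s ht hs h2
          left
          rw [h3, k1, k2]
      · rintro (h | h)
        · exact ⟨i, t, ht, by rw [h, Sym2.eq_swap]⟩
        · refine ⟨i, t + 1, h1, ?_⟩
          rw [h]
          simp [Legs.prev]
    have hne : L.prev i t ≠ L.vert i (t + 1) := by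
      intro h
      have := L.prev_ne ht h1 h
      omega
    rw [hset, sum_pair hne]
    unfold vs
    rw [if_pos h1, Sym2.eq_swap, L.lab_edge f ht]
    congr 1
    have h2 := L.lab_edge f h1
    rw [← h2]
    congr 2
  · have hset : univ.filter (fun w => G.Adj (L.vert i t) w) = {L.prev i t} := by
      ext w
      simp only [mem_filter, mem_univ, true_and, mem_singleton]
      rw [L.adj_iff]
      constructor
      · rintro ⟨j, s, hs, h⟩
        rw [Sym2.eq_iff] at h
        rcases h with ⟨h2, h3⟩ | ⟨h2, h3⟩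
        · obtain ⟨k1, k2, k3⟩ := L.prev_ne hs ht h2.symm
          subst k1
          omega
        · obtain ⟨k1, k2⟩ := L.inj i j t s ht hs h2
          rw [h3, k1, k2]
      · intro h
        exact ⟨i, t, ht, by rw [h, Sym2.eq_swap]⟩
    rw [hset, sum_singleton]
    unfold vs
    rw [if_neg h1, Sym2.eq_swap, L.lab_edge f ht]

theorem transfer {V : Type*} [Fintype V] [DecidableEq V] (G : SimpleGraph V) {N : ℕ}
    (L : Legs G N) (k : ℤ) (f : Fin N → ℕ → ℤ) (hf : Good L.n L.root k f) :
    ShiftedAntimagic G k := by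
  classical
  refine ⟨L.lab f, ?_, ?_⟩
  · have hmaps : Set.MapsTo (L.lab f) G.edgeSet (Set.Ioc k (k + G.edgeSet.ncard)) := by
      intro e he
      rw [L.mem_edgeSet_iff] at he
      obtain ⟨i, t, ht, rfl⟩ := he
      rw [L.lab_edge f ht, edges_card L]
      exact ⟨hf.lo i t ht, hf.hi i t ht⟩
    have hinj : Set.InjOn (L.lab f) G.edgeSet := by
      intro e he e' he' h
      rw [L.mem_edgeSet_iff] at he he'
      obtain ⟨i, t, ht, rfl⟩ := he
      obtain ⟨j, s, hs, rfl⟩ := he'
      rw [L.lab_edge f ht, L.lab_edge f hs] at h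
      obtain ⟨h1, h2⟩ := hf.inj i j t s ht hs h
      rw [h1, h2]
    refine ⟨hmaps, hinj, ?_⟩
    have himg : L.lab f '' G.edgeSet = Set.Ioc k (k + G.edgeSet.ncard) := by
      apply Set.eq_of_subset_of_ncard_le
      · rintro _ ⟨e, he, rfl⟩
        exact hmaps he
      · rw [hinj.ncard_image, ← Finset.coe_Ioc, Set.ncard_coe_finset, Int.card_Ioc]
        omega
      · exact Set.finite_Ioc _ _
    rw [Set.SurjOn, himg]
  · intro v v' h
    simp only at h
    rcases L.cover v with ⟨i, hi⟩ | ⟨i, t, ht, hi⟩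
    · rw [L.sum_root f v ⟨i, hi⟩] at h
      rcases L.cover v' with ⟨j, hj⟩ | ⟨j, s, hs, hj⟩
      · rw [L.sum_root f v' ⟨j, hj⟩, ← hi, ← hj] at h
        rw [← hi, ← hj]
        exact hf.rinj i j h
      · exfalso
        subst hj
        rw [L.sum_vert f hs, ← hi] at h
        exact hf.vr j i s hs h.symm
    · subst hi
      rw [L.sum_vert f ht] at h
      rcases L.cover v' with ⟨j, hj⟩ | ⟨j, s, hs, hj⟩
      · exfalso
        rw [L.sum_root f v' ⟨j, hj⟩, ← hj] at h
        exact hf.vr i j t ht h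
      · subst hj
        rw [L.sum_vert f hs] at h
        obtain ⟨h1, h2⟩ := hf.vinj i j t s ht hs h
        rw [h1, h2]

end Pool.SpA
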