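import Pool.Agent.SpA.Core
import Pool.Agent.SpA.Transfer
import Pool.Agent.SpA.ExistsLegs
import Pool.Agent.SpA.CountUpper
import Pool.Agent.SpA.CountLower
import Pool.Agent.SpA.CountArith
import Pool.Agent.SpA.CountBridge

/-!
# SpA/Final

Theorem 1 (few leaves) and Theorem 2 (almost all).
-/

namespace Pool.SpA

open Finset

/-- a spider forest described by few legs is `k`-shifted antimagic for every `k` -/
theorem of_legs {V : Type*} [Fintype V] [DecidableEq V] [Nonempty V] (G : SimpleGraph V) {N : ℕ}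
    (L : Legs G N) (hm : 100000 * N ≤ ∑ i, L.n i) (k : ℤ) : ShiftedAntimagic G k := by
  obtain ⟨f, hf⟩ := core L.n L.root k (legs_pos L) L.pos L.one hm
  exact transfer G L k f hf

theorem few_leaves {V : Type*} [Fintype V] [Nonempty V] (G : SimpleGraph V)
    (hG : IsSpiderForest G) (h : 100000 * leaves G ≤ G.edgeSet.ncard) (k : ℤ) :
    ShiftedAntimagic G k := by
  classical
  obtain ⟨N, ⟨L⟩⟩ := exists_legs G hG
  refine of_legs G L ?_ k
  rw [← edges_card L]
  exact (Nat.mul_le_mul_left _ (legs_le_leaves L)).trans h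

/-- the bad spider forests on `Fin n` are described by many legs -/
theorem bad_subset (n : ℕ) (hn : 1 ≤ n) :
    {G : SimpleGraph (Fin n) | IsSpiderForest G ∧ ¬ ∀ k : ℤ, ShiftedAntimagic G k} ⊆
      ⋃ c ∈ range (n + 1), ⋃ N ∈ (range (n + 1)).filter (fun N => n < (2 * 50000 + 1) * N),
        {G : SimpleGraph (Fin n) | ∃ L : Legs G N, (univ.image L.root).card = c} := by
  intro G hG
  obtain ⟨hG, hbad⟩ := hG
  have : Nonempty (Fin n) := ⟨⟨0, hn⟩⟩
  obtain ⟨N, ⟨L⟩⟩ := exists_legs G hG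
  have hV := card_V L
  rw [Fintype.card_fin] at hV
  have hr := roots_le L
  have hsum : N ≤ ∑ i, L.n i := by
    calc N = ∑ _i : Fin N, 1 := by simp
      _ ≤ _ := sum_le_sum fun i _ => L.pos i
  have hlt : ∑ i, L.n i < 100000 * N := by
    by_contra h
    exact hbad fun k => of_legs G L (by omega) k
  rw [Set.mem_iUnion₂]
  refine ⟨(univ.image L.root).card, ?_, ?_⟩
  · rw [mem_range]
    omega
  · rw [Set.mem_iUnion₂]
    refine ⟨N, ?_, ⟨L, rfl⟩⟩
    rw [mem_filter, mem_range]
    omega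

theorem bad_le (n : ℕ) (hn : 1 ≤ n) :
    ({G : SimpleGraph (Fin n) | IsSpiderForest G ∧ ¬ ∀ k : ℤ, ShiftedAntimagic G k}.ncard : ℝ) ≤
      ∑ c ∈ range (n + 1), ∑ N ∈ (range (n + 1)).filter (fun N => n < (2 * 50000 + 1) * N),
        ((n.factorial : ℝ) * 2 ^ n * (c : ℝ) ^ N) / (c.factorial * N.factorial) := by
  have h1 : {G : SimpleGraph (Fin n) | IsSpiderForest G ∧
      ¬ ∀ k : ℤ, ShiftedAntimagic G k}.ncard ≤
      ∑ c ∈ range (n + 1), ∑ N ∈ (range (n + 1)).filter (fun N => n < (2 * 50000 + 1) * N),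
        n.choose c * ((n - c).choose N * (c ^ N * (n - c).descFactorial (n - c - N))) := by
    refine (Set.ncard_le_ncard (bad_subset n hn) (Set.toFinite _)).trans ?_
    refine (Finset.set_ncard_biUnion_le _ _).trans (sum_le_sum fun c _ => ?_)
    exact (Finset.set_ncard_biUnion_le _ _).trans (sum_le_sum fun N _ => count_upper n N c)
  refine (Nat.cast_le.2 h1).trans ?_
  push_cast
  refine sum_le_sum fun c _ => sum_le_sum fun N _ => ?_
  have := count_bridge n N c
  push_cast at this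
  exact this

theorem almost_all : ∃ n0 : ℕ, ∀ n : ℕ, n0 ≤ n →
    Real.exp n *
      ({G : SimpleGraph (Fin n) | IsSpiderForest G ∧ ¬ ∀ k : ℤ, ShiftedAntimagic G k}.ncard : ℝ) ≤
      ({G : SimpleGraph (Fin n) | IsSpiderForest G}.ncard : ℝ) := by
  obtain ⟨n0, h0⟩ := count_arith 50000
  refine ⟨max n0 3, fun n hn => ?_⟩
  have h3 : 3 ≤ n := (le_max_right _ _).trans hn
  have h1 := (bad_le n (by omega)).trans (h0 n ((le_max_left _ _).trans hn))
  have h2 : (((n - 1).factorial : ℕ) : ℝ) ≤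
      ({G : SimpleGraph (Fin n) | IsSpiderForest G}.ncard : ℝ) := Nat.cast_le.2 (count_lower n h3)
  calc _ ≤ Real.exp n * (Real.exp (-n) * (n - 1).factorial) :=
        mul_le_mul_of_nonneg_left h1 (Real.exp_pos _).le
    _ = ((n - 1).factorial : ℝ) := by
        rw [← mul_assoc, ← Real.exp_add, add_neg_cancel, Real.exp_zero, one_mul]
    _ ≤ _ := h2

end Pool.SpA
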