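import Mathlib

/-!
# Parent functions of spider forests (MP_9fc547_co, note 3500)

`exists_parent`: a finite acyclic graph in which every component has at most one vertex of degree at
least 3 has a parent function `p` and a level function `l`: `p v = v` exactly at the roots (one in
every component), the edges are the pairs `v, p v`, the level of a nonroot is one more than the level
of its parent, `p` is injective on the vertices whose parent is not a root, and a root has degree at
most 1 or at least 3.
-/

namespace Pool.SpA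

open SimpleGraph

variable {V : Type*} {G : SimpleGraph V}

theorem closer_unique (hac : G.IsAcyclic) {r v u₁ u₂ : V} (h : G.Reachable r v)
    (h1 : G.Adj u₁ v) (h2 : G.Adj u₂ v) (d1 : G.dist r u₁ + 1 = G.dist r v)
    (d2 : G.dist r u₂ + 1 = G.dist r v) : u₁ = u₂ := by
  obtain ⟨p, hp, hp'⟩ := (h.trans h1.symm.reachable).exists_path_of_dist
  obtain ⟨q, hq, hq'⟩ := (h.trans h2.symm.reachable).exists_path_of_dist
  have k1 : (p.concat h1).IsPath := by
    apply Walk.isPath_of_length_eq_dist
    rw [Walk.length_concat, hp', d1]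
  have k2 : (q.concat h2).IsPath := by
    apply Walk.isPath_of_length_eq_dist
    rw [Walk.length_concat, hq', d2]
  have k3 : p.concat h1 = q.concat h2 :=
    congrArg Subtype.val (hac.subsingleton_path r v |>.elim ⟨_, k1⟩ ⟨_, k2⟩)
  have k4 := congrArg Walk.penultimate k3
  simpa using k4

theorem exists_closer {r v : V} (h : G.Reachable r v) (hne : r ≠ v) :
    ∃ u, G.Adj u v ∧ G.dist r u + 1 = G.dist r v := by
  obtain ⟨p, hp, hp'⟩ := h.exists_path_of_dist
  have hnil : ¬ p.Nil := by
    intro hn
    exact hne hn.eq
  refine ⟨p.penultimate, Walk.adj_penultimate hnil, ?_⟩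
  have h1 : G.dist r p.penultimate ≤ p.dropLast.length := dist_le _
  have h2 : p.dropLast.length + 1 = p.length := Walk.length_dropLast_add_one hnil
  have h3 := (Walk.adj_penultimate hnil).diff_dist_adj (u := r)
  omega

/-- Choice of a root in a component. -/
theorem exists_root [Finite V] (hac : G.IsAcyclic) (C : G.ConnectedComponent) :
    ∃ r ∈ C.supp, (3 ≤ (G.neighborSet r).ncard ∨
      ((G.neighborSet r).ncard ≤ 1 ∧ ∀ v ∈ C.supp, (G.neighborSet v).ncard ≤ 2)) := by
  classical
  by_cases h : ∃ v ∈ C.supp, 3 ≤ (G.neighborSet v).ncard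
  · obtain ⟨v, hv, h3⟩ := h
    exact ⟨v, hv, Or.inl h3⟩
  · push Not at h
    obtain ⟨r, hr⟩ := C.nonempty_supp
    obtain ⟨v, hv, hmax⟩ := Set.exists_max_image C.supp (fun v => G.dist r v)
      (Set.toFinite _) ⟨r, hr⟩
    have hre : ∀ w ∈ C.supp, G.Reachable r w := by
      intro w hw
      rw [ConnectedComponent.mem_supp_iff] at hw hr
      exact ConnectedComponent.exact (hr.trans hw.symm)
    refine ⟨v, hv, Or.inr ⟨?_, fun w hw => by have := h w hw; omega⟩⟩
    rw [Set.ncard_le_one (Set.toFinite _)]
    intro a ha b hb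
    rw [mem_neighborSet] at ha hb
    have key : ∀ u, G.Adj v u → G.dist r u + 1 = G.dist r v := by
      intro u hu
      have hu' : u ∈ C.supp := by
        rw [ConnectedComponent.mem_supp_iff] at hv ⊢
        rw [← hv]
        exact ConnectedComponent.sound hu.symm.reachable
      have h1 := hmax u hu'
      have h2 := hac.dist_eq_dist_add_one_of_adj_of_reachable r hu (hre v hv)
      omega
    exact closer_unique hac (hre v hv) ha.symm hb.symm (key a ha) (key b hb)

theorem exists_parent [Finite V] (hac : G.IsAcyclic)
    (hbr : ∀ u v, G.Reachable u v → 3 ≤ (G.neighborSet u).ncard →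
      3 ≤ (G.neighborSet v).ncard → u = v) :
    ∃ (p : V → V) (l : V → ℕ), (∀ v, p v = v ↔ l v = 0) ∧ (∀ v, p v ≠ v → l v = l (p v) + 1) ∧
      (∀ u v, G.Adj u v ↔ u ≠ v ∧ (p u = v ∨ p v = u)) ∧
      Set.InjOn p {v | p (p v) ≠ p v} ∧
      (∀ r, p r = r → (G.neighborSet r).ncard ≤ 1 ∨ 3 ≤ (G.neighborSet r).ncard) ∧
      (∀ v, G.Reachable v (p v)) ∧
      (∀ u v, p u = u → p v = v → G.Reachable u v → u = v) := by
  classical
  choose rc hrc1 hrc2 using exists_root (G := G) hac
  set rt : V → V := fun v => rc (G.connectedComponentMk v) with hrt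
  have hreach : ∀ v, G.Reachable (rt v) v := by
    intro v
    have := hrc1 (G.connectedComponentMk v)
    rw [ConnectedComponent.mem_supp_iff] at this
    exact ConnectedComponent.exact this
  have hrt_eq : ∀ u v, G.Reachable u v → rt u = rt v := by
    intro u v h
    simp only [hrt]
    rw [ConnectedComponent.sound h]
  have hex : ∀ v, ∃ u, v ≠ rt v → (G.Adj u v ∧ G.dist (rt v) u + 1 = G.dist (rt v) v) := by
    intro v
    by_cases h : v = rt v
    · exact ⟨v, fun h2 => absurd h h2⟩
    · obtain ⟨u, hu⟩ := exists_closer (hreach v) (Ne.symm h)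
      exact ⟨u, fun _ => hu⟩
  choose q hq using hex
  set p : V → V := fun v => if v = rt v then v else q v with hp
  have hp1 : ∀ v, v = rt v → p v = v := fun v h => by simp only [hp, if_pos h]
  have hp2 : ∀ v, v ≠ rt v → p v = q v := fun v h => by simp only [hp, if_neg h]
  have hproot : ∀ v, p v = v ↔ v = rt v := by
    intro v
    refine ⟨fun h => ?_, hp1 v⟩
    by_contra hc
    rw [hp2 v hc] at h
    have := (hq v hc).1
    rw [h] at this
    exact this.ne rfl
  have hpreach : ∀ v, G.Reachable v (p v) := by
    intro v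
    by_cases h : v = rt v
    · rw [hp1 v h]
    · rw [hp2 v h]
      exact (hq v h).1.symm.reachable
  set l : V → ℕ := fun v => G.dist (rt v) v with hl
  have hl0 : ∀ v, p v = v ↔ l v = 0 := by
    intro v
    rw [hproot, hl]
    simp only
    rw [(hreach v).dist_eq_zero_iff]
    exact eq_comm
  have hl1 : ∀ v, p v ≠ v → l v = l (p v) + 1 := by
    intro v hv
    have h1 : v ≠ rt v := fun h => hv ((hproot v).2 h)
    have h2 := (hq v h1).2
    have h3 : rt (p v) = rt v := (hrt_eq v (p v) (hpreach v)).symm
    simp only [hl]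
    rw [h3, hp2 v h1]
    exact h2.symm
  have hadjp : ∀ v, p v ≠ v → G.Adj (p v) v := by
    intro v hv
    have h1 : v ≠ rt v := fun h => hv ((hproot v).2 h)
    rw [hp2 v h1]
    exact (hq v h1).1
  have hkey : ∀ u v, G.Adj u v → G.dist (rt v) u + 1 = G.dist (rt v) v → p v = u := by
    intro u v huv hd
    have h1 : v ≠ rt v := by
      intro h
      rw [← h, dist_self] at hd
      omega
    rw [hp2 v h1]
    exact closer_unique hac (hreach v) (hq v h1).1 huv (hq v h1).2 hd
  have hadj : ∀ u v, G.Adj u v ↔ u ≠ v ∧ (p u = v ∨ p v = u) := by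
    intro u v
    constructor
    · intro huv
      refine ⟨huv.ne, ?_⟩
      have h1 := hac.dist_eq_dist_add_one_of_adj_of_reachable (rt v) huv
        ((hreach v).trans huv.symm.reachable)
      rcases h1 with h1 | h1
      · left
        apply hkey v u huv.symm
        rw [hrt_eq u v huv.reachable]
        exact h1.symm
      · right
        exact hkey u v huv h1.symm
    · rintro ⟨hne, h | h⟩
      · have := hadjp u (by rw [h]; exact hne.symm)
        rw [h] at this
        exact this.symm
      · have := hadjp v (by rw [h]; exact hne)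
        rw [h] at this
        exact this
  have hdeg3 : ∀ x, p x ≠ x → ∀ v w, v ≠ w → p v = x → p w = x → v ≠ x → w ≠ x →
      3 ≤ (G.neighborSet x).ncard := by
    intro x hx v w hvw hv hw hvx hwx
    have hpv : p x ≠ v := by
      intro h
      have h1 := hl1 x hx
      rw [h] at h1
      have h2 := hl1 v (by rw [hv]; exact hvx.symm)
      rw [hv] at h2
      omega
    have hpw : p x ≠ w := by
      intro h
      have h1 := hl1 x hx
      rw [h] at h1
      have h2 := hl1 w (by rw [hw]; exact hwx.symm)
      rw [hw] at h2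
      omega
    have hsub : ({v, w, p x} : Set V) ⊆ G.neighborSet x := by
      intro y hy
      simp only [Set.mem_insert_iff, Set.mem_singleton_iff] at hy
      rw [mem_neighborSet, hadj]
      rcases hy with rfl | rfl | rfl
      · exact ⟨hvx.symm, Or.inr hv⟩
      · exact ⟨hwx.symm, Or.inr hw⟩
      · exact ⟨hx.symm, Or.inl rfl⟩
    have hcard : ({v, w, p x} : Set V).ncard = 3 := by
      rw [Set.ncard_eq_three]
      exact ⟨v, w, p x, hvw, hpv.symm, hpw.symm, rfl⟩
    rw [← hcard]
    exact Set.ncard_le_ncard hsub (Set.toFinite _)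
  refine ⟨p, l, hl0, hl1, hadj, ?_, ?_, hpreach, ?_⟩
  · intro v hv w hw hvw
    by_contra hne
    have hv : p (p v) ≠ p v := hv
    have hw : p (p w) ≠ p w := hw
    have h1 : v ≠ p v := by
      intro h
      apply hv
      rw [← h, ← h]
    have h2 : w ≠ p v := by
      intro h
      apply hw
      rw [hvw] at h
      rw [← h, ← h]
    have h3 := hdeg3 (p v) hv v w hne rfl hvw.symm h1 h2
    have h4 : G.Reachable (rt v) (p v) := (hreach v).trans (hpreach v)
    rcases hrc2 (G.connectedComponentMk v) with h5 | h5
    · have h6 : rt v = p v := hbr _ _ h4 h5 h3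
      apply hv
      rw [hproot, ← hrt_eq v (p v) (hpreach v), h6]
    · have h7 := h5.2 (p v) (by
        rw [ConnectedComponent.mem_supp_iff]
        exact ConnectedComponent.sound (hpreach v).symm)
      omega
  · intro r hr
    rw [hproot] at hr
    have := hrc2 (G.connectedComponentMk r)
    change 3 ≤ (G.neighborSet (rt r)).ncard ∨ ((G.neighborSet (rt r)).ncard ≤ 1 ∧ _) at this
    rw [← hr] at this
    tauto
  · intro u v hu hv huv
    rw [hproot] at hu hv
    rw [hu, hv]
    exact hrt_eq u v huv

end Pool.SpA
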