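import Pool.Agent.SpA.Defs

/-!
# SpA/BlocksEx

Existence of the placement of the holes in blocks (note 3500, section 1, BLOCKS and
ASSIGNMENT).

Proof.  The block starts are the numbers `L.q j + 2 + 1200 t`, `t < L.h j`; they form a finite set
`P` of integers.  For `t < t'`: the gap is `≥ 1200`; for `j < j'` both hosting:
`L.q j' ≥ L.q j + L.b j ≥ L.q j + 1200 * L.h j + 4`, so the gap is `≥ 1200` too.  Hence
`card P = ∑ L.h j`, any two different elements of `P` are at distance `≥ 1200`, they are even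
(`L.q j` is even: `k + 1 + o1 k` is even and all `a`, `b` are even), `≥ 2` (`L.nonneg`), and the
block is inside the tile (`L.host`).  The holes are the pairs `(i, r)` with `Has n L.i0 i r`; for
each `i` there are `nh n L.i0 i` of them (all `r < 14`), so there are `∑ nh = ∑ h` holes
(`L.tot`).  Order them by `(r, i)` lexicographically (e.g. `Finset` of `ℕ ×ₗ Fin N`) and take the
order isomorphism with `P` (`Finset.orderIsoOfFin` twice).
-/

namespace Pool.SpA

open Finset

namespace BlocksEx

variable {N : ℕ} {n : Fin N → ℕ} {k : ℤ}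

theorem card_has (n : Fin N → ℕ) (i0 i : Fin N) :
    ((range 14).filter (fun r => Has n i0 i r)).card = nh n i0 i := by
  unfold nh
  by_cases h9 : n i ≤ 9
  · have e : (range 14).filter (fun r => Has n i0 i r) = range (n i) := by
      ext r
      simp only [Has, h9, if_true, mem_filter, mem_range]
      omega
    rw [e, card_range, if_pos h9]
  · rw [if_neg h9]
    by_cases hi : i = i0
    · subst hi
      have e : (range 14).filter (fun r => Has n i i r) = {0, 1, 9, 10, 12, 13} := by
        ext r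
        simp only [Has, h9, if_false, mem_filter, mem_range, ne_eq, not_true, false_and,
          and_false, false_or, and_true, mem_insert, mem_singleton]
        omega
      rw [e, if_pos rfl]
      rfl
    · by_cases he : Even (n i)
      · have e : (range 14).filter (fun r => Has n i0 i r) = {0, 1, 9, 10, 11, 12} := by
          ext r
          simp only [Has, h9, if_false, mem_filter, mem_range, hi, ne_eq, not_false_iff, he,
            and_false, or_false, and_true, mem_insert, mem_singleton]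
          omega
        rw [e, if_neg hi, if_pos he]
        rfl
      · have e : (range 14).filter (fun r => Has n i0 i r) = {0, 1, 9, 10, 12} := by
          ext r
          simp only [Has, h9, if_false, mem_filter, mem_range, hi, ne_eq, not_false_iff, he,
            and_false, or_false, mem_insert, mem_singleton]
          omega
        rw [e, if_neg hi, if_neg he]
        rfl

theorem has_lt {n : Fin N → ℕ} {i0 i : Fin N} {r : ℕ} (h : Has n i0 i r) : r < 14 := by
  unfold Has at h
  split_ifs at h <;> omega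

variable (L : Layout n k)

theorem q_step {j j' : Fin N} (h : j < j') : L.q j + L.b j ≤ L.q j' := by
  unfold Layout.q
  have h1 : insert j (univ.filter (· < j)) ⊆ univ.filter (· < j') := by
    intro x hx
    simp only [mem_insert, mem_filter, mem_univ, true_and] at hx ⊢
    rcases hx with rfl | hx
    · exact h
    · exact lt_trans hx h
  have h2 : j ∉ univ.filter (· < j) := by simp
  have h3 := sum_le_sum_of_subset_of_nonneg (f := fun i => (L.b i : ℤ)) h1
    (fun i _ _ => Int.natCast_nonneg _)
  rw [sum_insert h2] at h3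
  linarith

theorem q_nonneg (j : Fin N) : 0 ≤ L.q j := by
  unfold Layout.q
  have h1 := L.nonneg
  have h2 : (0 : ℤ) ≤ ∑ j ∈ univ.filter (· < j), (L.b j : ℤ) :=
    sum_nonneg fun i _ => Int.natCast_nonneg _
  linarith

theorem even_sum {s : Finset (Fin N)} {f : Fin N → ℕ} (h : ∀ i, Even (f i)) :
    Even (∑ i ∈ s, (f i : ℤ)) := by
  rw [even_iff_two_dvd]
  apply dvd_sum
  intro i _
  obtain ⟨c, hc⟩ := h i
  exact ⟨c, by rw [hc]; push_cast; ring⟩

theorem q_even (j : Fin N) : Even (L.q j) := by
  unfold Layout.q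
  have h1 : Even (k + 1 + (o1 k : ℤ)) := by
    unfold o1
    split_ifs with h
    · push_cast
      exact h.add_one
    · push_cast
      rw [add_zero]
      exact Int.not_odd_iff_even.1 h
  exact (h1.add (even_sum L.evena)).add (even_sum L.evenb)

/-- the start of the block `t` of the tile of leg `j` -/
def st (x : Σ _ : Fin N, ℕ) : ℤ := L.q x.1 + 2 + 1200 * x.2

/-- the slots -/
def slots : Finset (Σ _ : Fin N, ℕ) := (univ : Finset (Fin N)).sigma fun j => range (L.h j)

theorem mem_slots {x : Σ _ : Fin N, ℕ} : x ∈ slots L ↔ x.2 < L.h x.1 := by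
  simp [slots]

theorem st_lt {x y : Σ _ : Fin N, ℕ} (hx : x ∈ slots L)
    (h : x.1 < y.1 ∨ (x.1 = y.1 ∧ x.2 < y.2)) : st L x + 1200 ≤ st L y := by
  rw [mem_slots] at hx
  unfold st
  rcases h with h | ⟨h, h'⟩
  · have h1 := q_step L h
    have h2 := L.host x.1 (by omega)
    have h3 : (1200 * L.h x.1 + 4 : ℤ) ≤ L.b x.1 := by exact_mod_cast h2
    have h4 : (x.2 : ℤ) + 1 ≤ L.h x.1 := by exact_mod_cast hx
    have h5 : (0 : ℤ) ≤ y.2 := Int.natCast_nonneg _
    linarith
  · rw [h]
    have h4 : (x.2 : ℤ) + 1 ≤ y.2 := by exact_mod_cast h'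
    linarith

theorem st_sep {x y : Σ _ : Fin N, ℕ} (hx : x ∈ slots L) (hy : y ∈ slots L) (hne : x ≠ y) :
    st L x + 1200 ≤ st L y ∨ st L y + 1200 ≤ st L x := by
  rcases lt_trichotomy x.1 y.1 with h | h | h
  · exact Or.inl (st_lt L hx (Or.inl h))
  · rcases lt_trichotomy x.2 y.2 with h' | h' | h'
    · exact Or.inl (st_lt L hx (Or.inr ⟨h, h'⟩))
    · exact absurd (by cases x; cases y; simp_all) hne
    · exact Or.inr (st_lt L hy (Or.inr ⟨h.symm, h'⟩))
  · exact Or.inr (st_lt L hy (Or.inl h))

theorem st_inj : Set.InjOn (st L) (slots L) := by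
  intro x hx y hy h
  by_contra hne
  rcases st_sep L hx hy hne with h1 | h1 <;> linarith

/-- the set of the block starts -/
def PP : Finset ℤ := (slots L).image (st L)

theorem card_PP : (PP L).card = ∑ i, L.h i := by
  rw [PP, card_image_of_injOn (st_inj L), slots, card_sigma]
  simp

theorem PP_sep {u v : ℤ} (hu : u ∈ PP L) (hv : v ∈ PP L) (h : u < v) : u + 1200 ≤ v := by
  obtain ⟨x, hx, rfl⟩ := mem_image.1 hu
  obtain ⟨y, hy, rfl⟩ := mem_image.1 hv
  have hne : x ≠ y := fun e => by rw [e] at h; exact lt_irrefl _ h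
  rcases st_sep L hx hy hne with h1 | h1
  · exact h1
  · linarith

theorem PP_even {u : ℤ} (hu : u ∈ PP L) : Even u := by
  obtain ⟨x, hx, rfl⟩ := mem_image.1 hu
  unfold st
  have h1 := q_even L x.1
  have h2 : Even (2 + 1200 * (x.2 : ℤ)) := ⟨1 + 600 * x.2, by ring⟩
  have h3 := h1.add h2
  rwa [← add_assoc] at h3

theorem PP_two {u : ℤ} (hu : u ∈ PP L) : 2 ≤ u := by
  obtain ⟨x, hx, rfl⟩ := mem_image.1 hu
  unfold st
  have h1 := q_nonneg L x.1
  have h2 : (0 : ℤ) ≤ x.2 := Int.natCast_nonneg _
  linarith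

theorem slot_in {x : Σ _ : Fin N, ℕ} (hx : x ∈ slots L) :
    L.q x.1 + 2 ≤ st L x ∧ st L x + 602 ≤ L.q x.1 + L.b x.1 := by
  rw [mem_slots] at hx
  unfold st
  have h2 := L.host x.1 (by omega)
  have h3 : (1200 * L.h x.1 + 4 : ℤ) ≤ L.b x.1 := by exact_mod_cast h2
  have h4 : (x.2 : ℤ) + 1 ≤ L.h x.1 := by exact_mod_cast hx
  have h5 : (0 : ℤ) ≤ x.2 := Int.natCast_nonneg _
  constructor <;> linarith

theorem PP_tile {u : ℤ} (hu : u ∈ PP L) :
    ∃ j, 10 ≤ n j ∧ L.q j + 2 ≤ u ∧ u + 602 ≤ L.q j + L.b j := by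
  obtain ⟨x, hx, rfl⟩ := mem_image.1 hu
  refine ⟨x.1, ?_, slot_in L hx⟩
  rw [mem_slots] at hx
  by_contra h
  have h1 := (L.short x.1 (by omega)).1
  omega

theorem PP_count (j : Fin N) :
    ((PP L).filter fun u => L.q j ≤ u ∧ u < L.q j + L.b j).card = L.h j := by
  have e : (PP L).filter (fun u => L.q j ≤ u ∧ u < L.q j + L.b j) =
      (range (L.h j)).image fun t => st L ⟨j, t⟩ := by
    ext u
    simp only [mem_filter, mem_image, mem_range]
    constructor
    · rintro ⟨hu, h1, h2⟩
      obtain ⟨x, hx, rfl⟩ := mem_image.1 hu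
      obtain ⟨g1, g2⟩ := slot_in L hx
      have hj : x.1 = j := by
        rcases lt_trichotomy x.1 j with h | h | h
        · have := q_step L h
          linarith
        · exact h
        · have := q_step L h
          linarith
      refine ⟨x.2, ?_, ?_⟩
      · rw [← hj]
        exact (mem_slots L).1 hx
      · rw [← hj]
    · rintro ⟨t, ht, rfl⟩
      have hx : (⟨j, t⟩ : Σ _ : Fin N, ℕ) ∈ slots L := (mem_slots L).2 ht
      obtain ⟨g1, g2⟩ := slot_in L hx
      refine ⟨mem_image.2 ⟨_, hx, rfl⟩, by linarith, by linarith⟩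
  rw [e, card_image_of_injOn, card_range]
  intro t ht t' ht' h
  have h1 : (⟨j, t⟩ : Σ _ : Fin N, ℕ) = ⟨j, t'⟩ :=
    st_inj L ((mem_slots L).2 (by simpa using ht)) ((mem_slots L).2 (by simpa using ht')) h
  simpa using h1

/-- the holes, ordered by `(r, i)` -/
def HH : Finset (ℕ ×ₗ Fin N) :=
  ((range 14 ×ˢ univ).filter fun x : ℕ × Fin N => Has n L.i0 x.2 x.1).map toLex.toEmbedding

theorem mem_HH {r : ℕ} {i : Fin N} : toLex (r, i) ∈ HH L ↔ Has n L.i0 i r := by
  unfold HH
  rw [mem_map]
  constructor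
  · rintro ⟨x, hx, he⟩
    have : x = (r, i) := toLex.injective he
    rw [this] at hx
    exact (mem_filter.1 hx).2
  · intro h
    exact ⟨(r, i), mem_filter.2 ⟨by simp [has_lt h], h⟩, rfl⟩

theorem card_HH : (HH L).card = ∑ i, L.h i := by
  rw [HH, card_map, L.tot, card_filter, sum_product_right]
  apply sum_congr rfl
  intro i _
  rw [← card_has n L.i0 i, card_filter]

end BlocksEx

open BlocksEx in
theorem exists_blocks {N : ℕ} {n : Fin N → ℕ} {k : ℤ} (L : Layout n k) : Nonempty (Blocks L) := by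
  classical
  let e1 := (HH L).orderIsoOfFin (card_HH L)
  let e2 := (PP L).orderIsoOfFin (card_PP L)
  let g : HH L ≃o PP L := e1.symm.trans e2
  let B : Fin N → ℕ → ℤ := fun i r =>
    if h : toLex (r, i) ∈ HH L then (g ⟨toLex (r, i), h⟩ : ℤ) else 0
  have hB : ∀ i r (h : Has n L.i0 i r), B i r = (g ⟨toLex (r, i), (mem_HH L).2 h⟩ : ℤ) := by
    intro i r h
    exact dif_pos ((mem_HH L).2 h)
  have hP : ∀ i r, Has n L.i0 i r → B i r ∈ PP L := by
    intro i r h
    rw [hB i r h]
    exact (g _).2
  refine ⟨⟨B, fun i r h => PP_even L (hP i r h), fun i r h => PP_two L (hP i r h), ?_,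
    fun i r h => PP_tile L (hP i r h), ?_⟩⟩
  · intro i r i' r' h h' hlt
    apply PP_sep L (hP i r h) (hP i' r' h')
    rw [hB i r h, hB i' r' h']
    have h1 : (⟨toLex (r, i), (mem_HH L).2 h⟩ : HH L) < ⟨toLex (r', i'), (mem_HH L).2 h'⟩ := by
      rw [Subtype.mk_lt_mk, Prod.Lex.toLex_lt_toLex]
      exact hlt
    exact g.strictMono h1
  · intro j
    rw [← PP_count L j]
    apply card_bij (fun x _ => B x.1 x.2)
    · intro x hx
      simp only [mem_filter] at hx ⊢
      exact ⟨hP _ _ hx.2.1, hx.2.2⟩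
    · intro x hx y hy hxy
      simp only [mem_filter] at hx hy
      rw [hB _ _ hx.2.1, hB _ _ hy.2.1] at hxy
      have h1 := g.injective (Subtype.ext hxy)
      have h2 := toLex.injective (congrArg Subtype.val h1)
      have h3 := congrArg Prod.fst h2
      have h4 := congrArg Prod.snd h2
      exact Prod.ext h4 h3
    · intro u hu
      simp only [mem_filter] at hu
      obtain ⟨x, hx⟩ := g.surjective ⟨u, hu.1⟩
      have h0 : toLex (ofLex x.1) ∈ HH L := x.2
      have h1 : Has n L.i0 (ofLex x.1).2 (ofLex x.1).1 := (mem_HH L).1 h0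
      have h2 : B (ofLex x.1).2 (ofLex x.1).1 = u := by
        rw [hB _ _ h1]
        have : (⟨toLex ((ofLex x.1).1, (ofLex x.1).2), (mem_HH L).2 h1⟩ : HH L) = x := rfl
        rw [this, hx]
      refine ⟨((ofLex x.1).2, (ofLex x.1).1), ?_, h2⟩
      simp only [mem_filter, mem_product, mem_univ, mem_range, true_and]
      rw [h2]
      exact ⟨has_lt h1, h1, hu.2⟩

end Pool.SpA
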