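import Pool.Agent.SpA.ChooseDefs

/-!
# SpA/ChooseDist

Codes with the same last variable: at most three, and (with coefficient 1) with different
rests.  Also `rest_congr`: the rest depends only on earlier variables.

Codes by last variable `(i,r)`: (i,0): 0, 15, 14 [n i = 1]; (i,1): 1, 16, and 24 [10 ≤ n i] or 14
[n i = 2]; (i,r), 2≤r≤8: r, 15+r, 14 [n i = r+1]; (i,9): 9, 14, 31; (i,10): 10, 29 or 30, 34;
(i,11): 11, 32, 33; (i,12): 12, 25, and 26 [i≠i0] or 28 [i=i0]; (i,13): 13, 26, 27 [i = i0].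
Different rests: 0 against a hole (`hole_two`: positive), 0 against `k+m > 0` (from `hk`, `hm`);
0 against the root rest: then `n i = 1` and by `hone` another leg of the root, which is before `i`,
so the sum of positive holes is positive; hole against end of a tile: `hole_ne_ends`; `p i + a i - 1`
against `q i + b i - 1`, `k+1` against these (`p_ge`, `p_q`, twoa, twob); `k+m` against `p i`
(`q_le`, `p_q`); `k+1` or `u` against `q+b-1`.
-/

namespace Pool.SpA

open Finset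

variable {N : ℕ} {n : Fin N → ℕ} {k : ℤ} {α : Type*} [DecidableEq α]

omit [DecidableEq α] in
/-- the valid codes with the value of `lastRole` -/
theorem cd_vcases (L : Layout n k) (cen : Fin N → α) (i : Fin N) (s : ℕ) (h : Valid L cen i s) :
    (s < 14 ∧ Has n L.i0 i s ∧ lastRole L i s = s) ∨
    (s = 14 ∧ n i ≤ 9 ∧ lastRole L i s = n i - 1) ∨
    (s = 14 ∧ 10 ≤ n i ∧ lastRole L i s = 9) ∨
    (s = 15 ∧ (∀ j, i < j → cen j ≠ cen i) ∧ lastRole L i s = 0) ∨
    (16 ≤ s ∧ s ≤ 23 ∧ Has n L.i0 i (s - 16) ∧ Has n L.i0 i (s - 15) ∧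
      lastRole L i s = s - 15) ∨
    (s = 24 ∧ 10 ≤ n i ∧ lastRole L i s = 1) ∨
    (s = 25 ∧ 10 ≤ n i ∧ lastRole L i s = 12) ∨
    (s = 26 ∧ 10 ≤ n i ∧ i = L.i0 ∧ lastRole L i s = 13) ∨
    (s = 26 ∧ 10 ≤ n i ∧ i ≠ L.i0 ∧ lastRole L i s = 12) ∨
    (s = 27 ∧ i = L.i0 ∧ lastRole L i s = 13) ∨
    (s = 28 ∧ i = L.i0 ∧ o1 k = 1 ∧ lastRole L i s = 12) ∨
    (s = 29 ∧ 10 ≤ n i ∧ (i ≠ L.i0 ∨ o2 k (∑ i, n i) = 0) ∧ lastRole L i s = 10) ∨
    (s = 30 ∧ i = L.i0 ∧ o2 k (∑ i, n i) = 1 ∧ lastRole L i s = 10) ∨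
    (s = 31 ∧ i = L.i0 ∧ o2 k (∑ i, n i) = 1 ∧ lastRole L i s = 9) ∨
    (s = 32 ∧ 10 ≤ n i ∧ lastRole L i s = 11) ∨
    (s = 33 ∧ 10 ≤ n i ∧ lastRole L i s = 11) ∨
    (s = 34 ∧ 10 ≤ n i ∧ lastRole L i s = 10) := by
  rcases h with ⟨h, h'⟩ | rfl | ⟨rfl, h⟩ | ⟨h1, h2, h3, h4⟩ | ⟨rfl, h⟩ | ⟨rfl, h⟩ | ⟨rfl, h⟩ |
    ⟨rfl, h⟩ | ⟨rfl, h, h'⟩ | ⟨rfl, h, h'⟩ | ⟨rfl, h, h'⟩ | ⟨rfl, h, h'⟩ | ⟨rfl, h, h', h2⟩ |
    ⟨rfl, h, h', h2⟩ | ⟨rfl, h, h'⟩
  · exact Or.inl ⟨h, h', by simp [lastRole, h]⟩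
  · by_cases hh : n i ≤ 9
    · exact Or.inr (Or.inl ⟨rfl, hh, by simp [lastRole, hh]⟩)
    · exact Or.inr (Or.inr (Or.inl ⟨rfl, by omega, by simp [lastRole, hh]⟩))
  · exact Or.inr (Or.inr (Or.inr (Or.inl ⟨rfl, h, by simp [lastRole]⟩)))
  · refine Or.inr (Or.inr (Or.inr (Or.inr (Or.inl ⟨h1, h2, h3, h4, ?_⟩))))
    unfold lastRole
    rw [if_neg (by omega), if_neg (by omega), if_neg (by omega), if_pos (by omega)]
  · exact Or.inr (Or.inr (Or.inr (Or.inr (Or.inr (Or.inl ⟨rfl, h, by simp [lastRole]⟩)))))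
  · exact Or.inr (Or.inr (Or.inr (Or.inr (Or.inr (Or.inr (Or.inl ⟨rfl, h, by simp [lastRole]⟩))))))
  · by_cases hi : i = L.i0
    · exact Or.inr (Or.inr (Or.inr (Or.inr (Or.inr (Or.inr (Or.inr (Or.inl
        ⟨rfl, h, hi, by simp [lastRole, hi]⟩)))))))
    · exact Or.inr (Or.inr (Or.inr (Or.inr (Or.inr (Or.inr (Or.inr (Or.inr (Or.inl
        ⟨rfl, h, hi, by simp [lastRole, hi]⟩))))))))
  · exact Or.inr (Or.inr (Or.inr (Or.inr (Or.inr (Or.inr (Or.inr (Or.inr (Or.inr (Or.inl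
        ⟨rfl, h, by simp [lastRole]⟩)))))))))
  · exact Or.inr (Or.inr (Or.inr (Or.inr (Or.inr (Or.inr (Or.inr (Or.inr (Or.inr (Or.inr (Or.inl
        ⟨rfl, h, h', by simp [lastRole]⟩))))))))))
  · exact Or.inr (Or.inr (Or.inr (Or.inr (Or.inr (Or.inr (Or.inr (Or.inr (Or.inr (Or.inr (Or.inr
        (Or.inl ⟨rfl, h, h', by simp [lastRole]⟩)))))))))))
  · exact Or.inr (Or.inr (Or.inr (Or.inr (Or.inr (Or.inr (Or.inr (Or.inr (Or.inr (Or.inr (Or.inr
        (Or.inr (Or.inl ⟨rfl, h, h', by simp [lastRole]⟩))))))))))))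
  · exact Or.inr (Or.inr (Or.inr (Or.inr (Or.inr (Or.inr (Or.inr (Or.inr (Or.inr (Or.inr (Or.inr
        (Or.inr (Or.inr (Or.inl ⟨rfl, h, h', by simp [lastRole]⟩)))))))))))))
  · exact Or.inr (Or.inr (Or.inr (Or.inr (Or.inr (Or.inr (Or.inr (Or.inr (Or.inr (Or.inr (Or.inr
        (Or.inr (Or.inr (Or.inr (Or.inl ⟨rfl, h, by simp [lastRole]⟩))))))))))))))
  · exact Or.inr (Or.inr (Or.inr (Or.inr (Or.inr (Or.inr (Or.inr (Or.inr (Or.inr (Or.inr (Or.inr
        (Or.inr (Or.inr (Or.inr (Or.inr (Or.inl ⟨rfl, h, by simp [lastRole]⟩)))))))))))))))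
  · exact Or.inr (Or.inr (Or.inr (Or.inr (Or.inr (Or.inr (Or.inr (Or.inr (Or.inr (Or.inr (Or.inr
        (Or.inr (Or.inr (Or.inr (Or.inr (Or.inr ⟨rfl, h, by simp [lastRole]⟩)))))))))))))))

theorem few (hn : ∀ i, 1 ≤ n i) (L : Layout n k) (cen : Fin N → α) (i : Fin N) (r : ℕ) :
    ∀ T : Finset ℕ, (∀ s ∈ T, Valid L cen i s ∧ lastRole L i s = r) → T.card ≤ 3 := by
  intro T hT
  have hni := hn i
  have key : ∃ x y z : ℕ, ∀ s ∈ T, s = x ∨ s = y ∨ s = z := by
    rcases Nat.lt_or_ge r 2 with h2 | h2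
    · by_cases h9 : n i ≤ 9
      · refine ⟨r, 15 + (1 - 1) + r, 14, fun s hs => ?_⟩
        obtain ⟨hv, hl⟩ := hT s hs
        rcases cd_vcases L cen i s hv with h | h | h | h | h | h | h | h | h | h | h | h | h | h | h |
          h | h <;> omega
      · refine ⟨r, if r = 0 then 15 else 16, if r = 0 then 14 else 24, fun s hs => ?_⟩
        obtain ⟨hv, hl⟩ := hT s hs
        rcases cd_vcases L cen i s hv with h | h | h | h | h | h | h | h | h | h | h | h | h | h | h |
          h | h <;> split_ifs <;> omega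
    · rcases Nat.lt_or_ge r 9 with h9 | h9
      · refine ⟨r, 15 + r, 14, fun s hs => ?_⟩
        obtain ⟨hv, hl⟩ := hT s hs
        rcases cd_vcases L cen i s hv with h | h | h | h | h | h | h | h | h | h | h | h | h | h | h |
          h | h <;> omega
      · by_cases hi : i = L.i0 ∧ o2 k (∑ i, n i) = 1
        · obtain ⟨hi, ho⟩ := hi
          refine ⟨r, if r = 9 then 14 else if r = 10 then 30 else if r = 11 then 32 else
            if r = 12 then 25 else 26, if r = 9 then 31 else if r = 10 then 34 else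
            if r = 11 then 33 else if r = 12 then 28 else 27, fun s hs => ?_⟩
          obtain ⟨hv, hl⟩ := hT s hs
          rcases cd_vcases L cen i s hv with h | h | h | h | h | h | h | h | h | h | h | h | h | h | h |
            h | h <;> first | omega | (split_ifs <;> omega)
        · by_cases hi' : i = L.i0
          · have ho : o2 k (∑ i, n i) ≠ 1 := fun h => hi ⟨hi', h⟩
            refine ⟨r, if r = 9 then 14 else if r = 10 then 29 else if r = 11 then 32 else
              if r = 12 then 25 else 26, if r = 9 then 31 else if r = 10 then 34 else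
              if r = 11 then 33 else if r = 12 then 28 else 27, fun s hs => ?_⟩
            obtain ⟨hv, hl⟩ := hT s hs
            rcases cd_vcases L cen i s hv with h | h | h | h | h | h | h | h | h | h | h | h | h | h | h |
              h | h <;> first | omega | (split_ifs <;> omega)
          · refine ⟨r, if r = 9 then 14 else if r = 10 then 29 else if r = 11 then 32 else
              if r = 12 then 25 else 26, if r = 9 then 31 else if r = 10 then 34 else
              if r = 11 then 33 else if r = 12 then 26 else 27, fun s hs => ?_⟩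
            obtain ⟨hv, hl⟩ := hT s hs
            rcases cd_vcases L cen i s hv with h | h | h | h | h | h | h | h | h | h | h | h | h | h | h |
              h | h <;> first | omega | (split_ifs <;> omega)
  obtain ⟨x, y, z, h⟩ := key
  calc T.card ≤ ({x, y, z} : Finset ℕ).card :=
        card_le_card (fun s hs => by simpa using h s hs)
    _ ≤ 3 := card_le_three

theorem cd_rest14 (L : Layout n k) (cen : Fin N → α) (Y : Fin N → ℕ → ℤ) (i : Fin N) :
    restc L cen Y i 14 = 0 := by simp [restc]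

theorem cd_rest15 (L : Layout n k) (cen : Fin N → α) (Y : Fin N → ℕ → ℤ) (i : Fin N) :
    restc L cen Y i 15 = ∑ j ∈ univ.filter (fun j => j < i ∧ cen j = cen i), Y j 0 := by
  simp [restc]

theorem cd_rest16 (L : Layout n k) (cen : Fin N → α) (Y : Fin N → ℕ → ℤ) (i : Fin N) (s : ℕ)
    (h1 : 16 ≤ s) (h2 : s ≤ 23) : restc L cen Y i s = Y i (s - 16) := by
  unfold restc
  rw [if_neg (by omega), if_neg (by omega), if_pos h2]

theorem cd_has_zero (hn : ∀ i, 1 ≤ n i) (i0 i : Fin N) : Has n i0 i 0 := by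
  unfold Has
  have := hn i
  split_ifs
  · omega
  · exact Or.inl rfl

theorem cd_has_long (i0 i : Fin N) (r : ℕ) (h : 10 ≤ n i) (hr : r = 0 ∨ r = 1 ∨ r = 9 ∨ r = 10 ∨ r = 12) :
    Has n i0 i r := by
  unfold Has
  rw [if_neg (by omega)]
  rcases hr with h | h | h | h | h
  · exact Or.inl h
  · exact Or.inr (Or.inl h)
  · exact Or.inr (Or.inr (Or.inl h))
  · exact Or.inr (Or.inr (Or.inr (Or.inl h)))
  · exact Or.inr (Or.inr (Or.inr (Or.inr (Or.inl h))))

theorem cd_dist_lt (hn : ∀ i, 1 ≤ n i) (hk : 0 ≤ 2 * k + (∑ i, n i : ℕ) + 1) (hm : 2 ≤ ∑ i, n i)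
    (L : Layout n k) (Bl : Blocks L) (cen : Fin N → α)
    (hone : ∀ i, n i = 1 → ∃ j, j ≠ i ∧ cen j = cen i)
    (Y : Fin N → ℕ → ℤ) (hY : Adm Bl Y) (i : Fin N) (s t : ℕ) (hs : Valid L cen i s)
    (ht : Valid L cen i t) (hne : s < t) (h14 : 14 ≤ s) (hl : lastRole L i s = lastRole L i t) :
    restc L cen Y i s ≠ restc L cen Y i t := by
  have hlong := L.long
  have hp := p_ge L i
  have hpq := p_q L i i
  have hq := q_le L i
  rcases cd_vcases L cen i s hs with h | h | h | h | h | h | h | h | h | h | h | h | h | h | h | h | h <;>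
  rcases cd_vcases L cen i t ht with g | g | g | g | g | g | g | g | g | g | g | g | g | g | g | g | g <;>
  first
  | (exfalso; omega)
  | skip
  · -- 14 (short), 15
    obtain ⟨rfl, h9, hl1⟩ := h
    obtain ⟨rfl, hlast, hl2⟩ := g
    have h1 : n i = 1 := by
      have := hn i
      omega
    obtain ⟨j, hj, hc⟩ := hone i h1
    have hji : j < i := by
      rcases lt_trichotomy j i with h | h | h
      · exact h
      · exact absurd h hj
      · exact absurd hc (hlast j h)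
    rw [cd_rest14, cd_rest15]
    have hpos : ∀ j ∈ univ.filter (fun j => j < i ∧ cen j = cen i), (2 : ℤ) ≤ Y j 0 :=
      fun j _ => hole_two Bl hY j 0 (cd_has_zero hn _ _)
    have hmem : j ∈ univ.filter (fun j => j < i ∧ cen j = cen i) := by simp [hji, hc]
    have h2 : Y j 0 ≤ ∑ j ∈ univ.filter (fun j => j < i ∧ cen j = cen i), Y j 0 :=
      single_le_sum (f := fun j => Y j 0) (fun a ha => le_trans (by norm_num) (hpos a ha)) hmem
    have h3 := hpos j hmem
    omega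
  · -- 14 (short), 16..23
    obtain ⟨rfl, h9, hl1⟩ := h
    obtain ⟨h1, h2, h3, h4, hl2⟩ := g
    rw [cd_rest14, cd_rest16 L cen Y i t h1 h2]
    have := hole_two Bl hY i _ h3
    omega
  · -- 14 (long), 31
    obtain ⟨rfl, h9, hl1⟩ := h
    obtain ⟨rfl, hi, ho, hl2⟩ := g
    rw [cd_rest14]
    have : restc L cen Y i 31 = k + (∑ i, n i : ℕ) := by simp [restc]
    rw [this]
    omega
  · -- 16..23, 24
    obtain ⟨h1, h2, h3, h4, hl1⟩ := h
    obtain ⟨rfl, h10, hl2⟩ := g
    rw [cd_rest16 L cen Y i s h1 h2]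
    have h5 : restc L cen Y i 24 = L.q i := by simp [restc]
    rw [h5]
    exact (hole_ne_ends Bl hY i _ h3 i h10).2.2.1
  · -- 25, 26
    obtain ⟨rfl, h10, hl1⟩ := h
    obtain ⟨rfl, h10', hi, hl2⟩ := g
    have h5 : restc L cen Y i 25 = L.p i + L.a i - 1 := by simp [restc]
    have h6 : restc L cen Y i 26 = L.q i + L.b i - 1 := by simp [restc]
    rw [h5, h6]
    have := L.twob i h10
    omega
  · -- 25, 28
    obtain ⟨rfl, h10, hl1⟩ := h
    obtain ⟨rfl, hi, ho, hl2⟩ := g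
    have h5 : restc L cen Y i 25 = L.p i + L.a i - 1 := by simp [restc]
    have h6 : restc L cen Y i 28 = k + 1 := by simp [restc]
    rw [h5, h6]
    have := L.twoa i h10
    omega
  · -- 26, 27
    obtain ⟨rfl, h10, hi, hl1⟩ := h
    obtain ⟨rfl, hi', hl2⟩ := g
    have h5 : restc L cen Y i 26 = L.q i + L.b i - 1 := by simp [restc]
    have h6 : restc L cen Y i 27 = if o1 k = 1 then k + 1 else Y i 12 := by simp [restc]
    rw [h5, h6]
    have ha := L.twoa i h10
    have hb := L.twob i h10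
    split_ifs with ho
    · omega
    · exact (hole_ne_ends Bl hY i 12 (cd_has_long _ _ _ h10 (by omega)) i h10).2.2.2.1.symm
  · -- 29, 34
    obtain ⟨rfl, h10, hi, hl1⟩ := h
    obtain ⟨rfl, h10', hl2⟩ := g
    have h5 : restc L cen Y i 29 = Y i 9 := by simp [restc]
    have h6 : restc L cen Y i 34 = L.p i := by simp [restc]
    rw [h5, h6]
    exact (hole_ne_ends Bl hY i 9 (cd_has_long _ _ _ h10 (by omega)) i h10).1
  · -- 30, 34
    obtain ⟨rfl, hi, ho, hl1⟩ := h
    obtain ⟨rfl, h10, hl2⟩ := g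
    have h5 : restc L cen Y i 30 = k + (∑ i, n i : ℕ) := by simp [restc]
    have h6 : restc L cen Y i 34 = L.p i := by simp [restc]
    rw [h5, h6]
    have ha := L.twoa i h10
    have hb := L.twob i h10
    omega
  · -- 32, 33
    obtain ⟨rfl, h10, hl1⟩ := h
    obtain ⟨rfl, h10', hl2⟩ := g
    have h5 : restc L cen Y i 32 = Y i 10 := by simp [restc]
    have h6 : restc L cen Y i 33 = L.p i := by simp [restc]
    rw [h5, h6]
    exact (hole_ne_ends Bl hY i 10 (cd_has_long _ _ _ h10 (by omega)) i h10).1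

theorem dist (hn : ∀ i, 1 ≤ n i) (hk : 0 ≤ 2 * k + (∑ i, n i : ℕ) + 1) (hm : 2 ≤ ∑ i, n i)
    (L : Layout n k) (Bl : Blocks L) (cen : Fin N → α)
    (hone : ∀ i, n i = 1 → ∃ j, j ≠ i ∧ cen j = cen i)
    (Y : Fin N → ℕ → ℤ) (hY : Adm Bl Y) (i : Fin N) (s t : ℕ) (hs : Valid L cen i s)
    (ht : Valid L cen i t) (hne : s ≠ t) (hl : lastRole L i s = lastRole L i t)
    (hc : coefc s = coefc t) : restc L cen Y i s ≠ restc L cen Y i t := by
  have key : 14 ≤ s ∧ 14 ≤ t := by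
    unfold coefc at hc
    by_cases h1 : s < 14
    · rw [if_pos h1] at hc
      by_cases h2 : t < 14
      · exfalso
        have e1 : lastRole L i s = s := by simp [lastRole, h1]
        have e2 : lastRole L i t = t := by simp [lastRole, h2]
        omega
      · rw [if_neg h2] at hc
        omega
    · rw [if_neg h1] at hc
      by_cases h2 : t < 14
      · rw [if_pos h2] at hc
        omega
      · omega
  rcases lt_or_gt_of_ne hne with h | h
  · exact cd_dist_lt hn hk hm L Bl cen hone Y hY i s t hs ht h key.1 hl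
  · exact (cd_dist_lt hn hk hm L Bl cen hone Y hY i t s ht hs h key.2 hl.symm).symm

theorem rest_congr (hn : ∀ i, 1 ≤ n i) (L : Layout n k) (cen : Fin N → α) (i : Fin N) (s : ℕ)
    (hs : Valid L cen i s) (Y Y' : Fin N → ℕ → ℤ)
    (h : ∀ j r, r < 14 → (j < i ∨ (j = i ∧ r < lastRole L i s)) → Y j r = Y' j r) :
    restc L cen Y i s = restc L cen Y' i s := by
  rcases cd_vcases L cen i s hs with g | g | g | g | g | g | g | g | g | g | g | g | g | g | g | g | g
  · have : s ≤ 14 := by omega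
    simp [restc, this]
  · simp [restc, g.1]
  · simp [restc, g.1]
  · obtain ⟨rfl, -, -⟩ := g
    rw [cd_rest15, cd_rest15]
    refine sum_congr rfl fun j hj => h j 0 (by omega) (Or.inl ?_)
    simp only [mem_filter] at hj
    exact hj.2.1
  · obtain ⟨h1, h2, -, -, h5⟩ := g
    rw [cd_rest16 L cen Y i s h1 h2, cd_rest16 L cen Y' i s h1 h2]
    exact h i _ (by omega) (Or.inr ⟨rfl, by omega⟩)
  · simp [restc, g.1]
  · simp [restc, g.1]
  · simp [restc, g.1]
  · simp [restc, g.1]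
  · obtain ⟨rfl, -, h5⟩ := g
    have e : ∀ Z : Fin N → ℕ → ℤ, restc L cen Z i 27 = if o1 k = 1 then k + 1 else Z i 12 :=
      fun Z => by simp [restc]
    rw [e, e, h i 12 (by omega) (Or.inr ⟨rfl, by omega⟩)]
  · simp [restc, g.1]
  · obtain ⟨rfl, -, -, h5⟩ := g
    have e : ∀ Z : Fin N → ℕ → ℤ, restc L cen Z i 29 = Z i 9 := fun Z => by simp [restc]
    rw [e, e, h i 9 (by omega) (Or.inr ⟨rfl, by omega⟩)]
  · simp [restc, g.1]
  · simp [restc, g.1]
  · obtain ⟨rfl, -, h5⟩ := g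
    have e : ∀ Z : Fin N → ℕ → ℤ, restc L cen Z i 32 = Z i 10 := fun Z => by simp [restc]
    rw [e, e, h i 10 (by omega) (Or.inr ⟨rfl, by omega⟩)]
  · simp [restc, g.1]
  · simp [restc, g.1]

end Pool.SpA
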