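import Pool.Agent.SpA.ChooseDefs

/-!
# SpA/ChooseSep

Two different valid codes of one family other than the family 2 of the root sums have values
at distance `≥ 600` (note 3500, section 2, FAMILIES).

Proof.  Family 0: `2y`, `hole_ne`.  Family 1: leaf labels are holes (`Has` holds), `hole_ne`.
Families 3..10: for `i < j` both `y i r`, `y i (r+1)` are smaller than `y j r`, `y j (r+1)` (`hole_lt`).
Families 11, 12, 13, 21, 22: constant nondecreasing in `i` (`q_lt`, `pa_le`, `qb_le`, `p_lt`) + hole.
Families 17, 20: two holes.  Families 14, 15, 16, 18, 19: only one valid code (`i = i0`).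
Same family and `s ≠ s'` is possible only in family 0.
-/

namespace Pool.SpA

open Finset

variable {N : ℕ} {n : Fin N → ℕ} {k : ℤ} {α : Type*} [DecidableEq α]

theorem has_long {i0 i : Fin N} {r : ℕ} (h : 10 ≤ n i)
    (hr : r = 0 ∨ r = 1 ∨ r = 9 ∨ r = 10 ∨ r = 12) : Has n i0 i r := by
  unfold Has
  rw [if_neg (by omega)]
  rcases hr with h | h | h | h | h
  · exact Or.inl h
  · exact Or.inr (Or.inl h)
  · exact Or.inr (Or.inr (Or.inl h))
  · exact Or.inr (Or.inr (Or.inr (Or.inl h)))
  · exact Or.inr (Or.inr (Or.inr (Or.inr (Or.inl h))))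

theorem has_eleven {i0 i : Fin N} (h : 10 ≤ n i) (h0 : i ≠ i0) (he : Even (n i)) :
    Has n i0 i 11 := by
  unfold Has
  rw [if_neg (by omega)]
  exact Or.inr (Or.inr (Or.inr (Or.inr (Or.inr (Or.inl ⟨rfl, h0, he⟩)))))

theorem has_thirteen {i0 i : Fin N} (h : 10 ≤ n i) (h0 : i = i0) : Has n i0 i 13 := by
  unfold Has
  rw [if_neg (by omega)]
  exact Or.inr (Or.inr (Or.inr (Or.inr (Or.inr (Or.inr ⟨rfl, h0⟩)))))

theorem has_zero {i0 i : Fin N} (h : 1 ≤ n i) : Has n i0 i 0 := by
  by_cases h9 : n i ≤ 9
  · unfold Has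
    rw [if_pos h9]
    omega
  · exact has_long (by omega) (Or.inl rfl)

theorem has_leaf {i0 i : Fin N} (h : 1 ≤ n i) : Has n i0 i (if n i ≤ 9 then n i - 1 else 9) := by
  by_cases h9 : n i ≤ 9
  · rw [if_pos h9]
    unfold Has
    rw [if_pos h9]
    omega
  · rw [if_neg h9]
    exact has_long (by omega) (Or.inr (Or.inr (Or.inl rfl)))

/-- the last variable of a valid code is a hole -/
theorem has_last (hn : ∀ i, 1 ≤ n i) (L : Layout n k) (cen : Fin N → α) (i : Fin N) (s : ℕ)
    (h : Valid L cen i s) : Has n L.i0 i (lastRole L i s) := by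
  have hlong := L.long
  rcases h with ⟨h1, h2⟩ | rfl | ⟨rfl, _⟩ | ⟨h1, h2, _, h3⟩ | ⟨rfl, h1⟩ | ⟨rfl, h1⟩ | ⟨rfl, h1⟩ |
    ⟨rfl, h1⟩ | ⟨rfl, h1, _⟩ | ⟨rfl, h1, _⟩ | ⟨rfl, h1, _⟩ | ⟨rfl, h1, _⟩ | ⟨rfl, h1, h2, h3⟩ |
    ⟨rfl, h1, h2, h3⟩ | ⟨rfl, h1, _⟩
  · have : lastRole L i s = s := by simp [lastRole, h1]
    rw [this]
    exact h2
  · have : lastRole L i 14 = if n i ≤ 9 then n i - 1 else 9 := by simp [lastRole]
    rw [this]
    exact has_leaf (hn i)
  · have : lastRole L i 15 = 0 := by simp [lastRole]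
    rw [this]
    exact has_zero (hn i)
  · have : lastRole L i s = s - 15 := by
      unfold lastRole
      rw [if_neg (by omega), if_neg (by omega), if_neg (by omega), if_pos (by omega)]
    rw [this]
    exact h3
  · have : lastRole L i 24 = 1 := by simp [lastRole]
    rw [this]
    exact has_long h1 (by simp)
  · have : lastRole L i 25 = 12 := by simp [lastRole]
    rw [this]
    exact has_long h1 (by simp)
  · by_cases h0 : i = L.i0
    · have : lastRole L i 26 = 13 := by simp [lastRole, h0]
      rw [this]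
      exact has_thirteen h1 h0
    · have : lastRole L i 26 = 12 := by simp [lastRole, h0]
      rw [this]
      exact has_long h1 (by simp)
  · have : lastRole L i 27 = 13 := by simp [lastRole]
    rw [this]
    exact has_thirteen (by rw [h1]; exact hlong) h1
  · have : lastRole L i 28 = 12 := by simp [lastRole]
    rw [this]
    exact has_long (by rw [h1]; exact hlong) (by simp)
  · have : lastRole L i 29 = 10 := by simp [lastRole]
    rw [this]
    exact has_long h1 (by simp)
  · have : lastRole L i 30 = 10 := by simp [lastRole]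
    rw [this]
    exact has_long (by rw [h1]; exact hlong) (by simp)
  · have : lastRole L i 31 = 9 := by simp [lastRole]
    rw [this]
    exact has_long (by rw [h1]; exact hlong) (by simp)
  · have : lastRole L i 32 = 11 := by simp [lastRole]
    rw [this]
    exact has_eleven h1 h2 h3
  · have : lastRole L i 33 = 11 := by simp [lastRole]
    rw [this]
    exact has_eleven h1 h2 h3
  · have : lastRole L i 34 = 10 := by simp [lastRole]
    rw [this]
    exact has_long h1 (by simp)

theorem q_mono (L : Layout n k) {i j : Fin N} (h : i < j) : L.q i ≤ L.q j := by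
  have h1 := q_lt L i j h
  have h2 : (0 : ℤ) ≤ L.b i := Int.natCast_nonneg _
  linarith

theorem p_mono (L : Layout n k) {i j : Fin N} (h : i < j) : L.p i ≤ L.p j := by
  have h1 := p_lt L i j h
  have h2 : (0 : ℤ) ≤ L.a i := Int.natCast_nonneg _
  linarith

theorem cval_small (L : Layout n k) (cen : Fin N → α) (Y : Fin N → ℕ → ℤ) (i : Fin N) {s : ℕ}
    (h : s < 14) : cval L cen Y i s = 2 * Y i s := by
  unfold cval coefc lastRole restc
  rw [if_pos h, if_pos h, if_pos (by omega), add_zero]

theorem cval_leaf (L : Layout n k) (cen : Fin N → α) (Y : Fin N → ℕ → ℤ) (i : Fin N) :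
    cval L cen Y i 14 = Y i (if n i ≤ 9 then n i - 1 else 9) := by
  simp [cval, coefc, lastRole, restc]

theorem cval_mid (L : Layout n k) (cen : Fin N → α) (Y : Fin N → ℕ → ℤ) (i : Fin N) {s : ℕ}
    (h : 16 ≤ s) (h' : s ≤ 23) : cval L cen Y i s = Y i (s - 15) + Y i (s - 16) := by
  unfold cval coefc lastRole restc
  rw [if_neg (by omega), if_neg (by omega), if_neg (by omega), if_neg (by omega),
    if_pos (by omega), if_neg (by omega), if_neg (by omega), if_pos (by omega), one_mul]

theorem cval_lt (L : Layout n k) (Bl : Blocks L) (cen : Fin N → α)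
    (Y : Fin N → ℕ → ℤ) (hY : Adm Bl Y) {i j : Fin N} {s : ℕ} (hs : Valid L cen i s)
    (ht : Valid L cen j s) (h16 : 16 ≤ s) (hij : i < j) (hf : famc L i s = famc L j s) :
    cval L cen Y i s + 600 ≤ cval L cen Y j s := by
  have hne : i ≠ j := ne_of_lt hij
  have hlt : ∀ r, Has n L.i0 i r → Has n L.i0 j r → Y i r + 601 ≤ Y j r := fun r h1 h2 =>
    hole_lt Bl hY i j r r h1 h2 (Or.inr ⟨rfl, hij⟩)
  have hq := q_mono L hij
  have hp := p_mono L hij
  have hpa := pa_le L i j hij
  have hqb := qb_le L i j hij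
  rcases hs with ⟨h1, _⟩ | rfl | ⟨rfl, _⟩ | ⟨h1, h2, h3, h4⟩ | ⟨rfl, h1⟩ | ⟨rfl, h1⟩ | ⟨rfl, h1⟩ |
    ⟨rfl, h1⟩ | ⟨rfl, h1, _⟩ | ⟨rfl, h1, _⟩ | ⟨rfl, h1, _⟩ | ⟨rfl, h1, _⟩ | ⟨rfl, h1, h2, h3⟩ |
    ⟨rfl, h1, h2, h3⟩ | ⟨rfl, h1, _⟩
  · omega
  · omega
  · omega
  · have ht' : Has n L.i0 j (s - 16) ∧ Has n L.i0 j (s - 15) := by
      rcases ht with h | h | h | ⟨_, _, h5, h6⟩ | h | h | h | h | h | h | h | h | h | h | h
      · omega
      · omega
      · omega
      · exact ⟨h5, h6⟩
      all_goals exact absurd h.1 (by omega)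
    have e1 := cval_mid L cen Y i h1 h2
    have e2 := cval_mid L cen Y j h1 h2
    have e3 := hlt _ h3 ht'.1
    have e4 := hlt _ h4 ht'.2
    linarith
  · have ht' : 10 ≤ n j := by
      simpa [Valid] using ht
    have e : ∀ i, cval L cen Y i 24 = Y i 1 + L.q i := fun i => by
      simp [cval, coefc, lastRole, restc]
    have e1 := hlt 1 (has_long h1 (by simp)) (has_long ht' (by simp))
    rw [e, e]
    linarith
  · have ht' : 10 ≤ n j := by
      simpa [Valid] using ht
    have e : ∀ i, cval L cen Y i 25 = Y i 12 + (L.p i + L.a i - 1) := fun i => by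
      simp [cval, coefc, lastRole, restc]
    have e1 := hlt 12 (has_long h1 (by simp)) (has_long ht' (by simp))
    rw [e, e]
    linarith
  · have ht' : 10 ≤ n j := by
      simpa [Valid] using ht
    have hi0 : i ≠ L.i0 := by
      intro h0
      have hj0 : j ≠ L.i0 := fun h => hne (h0.trans h.symm)
      simp [famc, h0, hj0] at hf
    have hj0 : j ≠ L.i0 := by
      intro h0
      simp [famc, h0, hi0] at hf
    have e : ∀ i, i ≠ L.i0 → cval L cen Y i 26 = Y i 12 + (L.q i + L.b i - 1) := fun i h => by
      simp [cval, coefc, lastRole, restc, h]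
    have e1 := hlt 12 (has_long h1 (by simp)) (has_long ht' (by simp))
    rw [e i hi0, e j hj0]
    linarith
  · have ht' : j = L.i0 := by
      simpa [Valid] using ht
    exact absurd (h1.trans ht'.symm) hne
  · have ht' : j = L.i0 ∧ o1 k = 1 := by
      simpa [Valid] using ht
    exact absurd (h1.trans ht'.1.symm) hne
  · have ht' : 10 ≤ n j ∧ (j ≠ L.i0 ∨ o2 k (∑ i, n i) = 0) := by
      simpa [Valid] using ht
    have e : ∀ i, cval L cen Y i 29 = Y i 10 + Y i 9 := fun i => by
      simp [cval, coefc, lastRole, restc]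
    have e1 := hlt 10 (has_long h1 (by simp)) (has_long ht'.1 (by simp))
    have e2 := hlt 9 (has_long h1 (by simp)) (has_long ht'.1 (by simp))
    rw [e, e]
    linarith
  · have ht' : j = L.i0 ∧ o2 k (∑ i, n i) = 1 := by
      simpa [Valid] using ht
    exact absurd (h1.trans ht'.1.symm) hne
  · have ht' : j = L.i0 ∧ o2 k (∑ i, n i) = 1 := by
      simpa [Valid] using ht
    exact absurd (h1.trans ht'.1.symm) hne
  · have ht' : 10 ≤ n j ∧ j ≠ L.i0 ∧ Even (n j) := by
      simpa [Valid] using ht
    have e : ∀ i, cval L cen Y i 32 = Y i 11 + Y i 10 := fun i => by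
      simp [cval, coefc, lastRole, restc]
    have e1 := hlt 11 (has_eleven h1 h2 h3) (has_eleven ht'.1 ht'.2.1 ht'.2.2)
    have e2 := hlt 10 (has_long h1 (by simp)) (has_long ht'.1 (by simp))
    rw [e, e]
    linarith
  · have ht' : 10 ≤ n j ∧ j ≠ L.i0 ∧ Even (n j) := by
      simpa [Valid] using ht
    have e : ∀ i, cval L cen Y i 33 = Y i 11 + L.p i := fun i => by
      simp [cval, coefc, lastRole, restc]
    have e1 := hlt 11 (has_eleven h1 h2 h3) (has_eleven ht'.1 ht'.2.1 ht'.2.2)
    rw [e, e]
    linarith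
  · have ht' : 10 ≤ n j ∧ (j = L.i0 ∨ ¬ Even (n j)) := by
      simpa [Valid] using ht
    have e : ∀ i, cval L cen Y i 34 = Y i 10 + L.p i := fun i => by
      simp [cval, coefc, lastRole, restc]
    have e1 := hlt 10 (has_long h1 (by simp)) (has_long ht'.1 (by simp))
    rw [e, e]
    linarith

theorem valid_lt (L : Layout n k) (cen : Fin N → α) {i : Fin N} {s : ℕ}
    (hs : Valid L cen i s) : s < 35 := by
  rcases hs with h | h | h | h | h | h | h | h | h | h | h | h | h | h | h
  · omega
  · omega
  all_goals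
    first
      | (have := h.1; omega)
      | (have := h.2.1; omega)

theorem famc_cases (L : Layout n k) (i j : Fin N) {s t : ℕ} (hs : s < 35) (ht : t < 35)
    (hf : famc L i s = famc L j t) : (s < 14 ∧ t < 14) ∨ s = t := by
  unfold famc at hf
  by_cases h1 : s < 14
  · left
    refine ⟨h1, ?_⟩
    rw [if_pos h1] at hf
    by_contra h2
    rw [if_neg h2] at hf
    split_ifs at hf <;> omega
  · right
    rw [if_neg h1] at hf
    by_cases h2 : t < 14
    · rw [if_pos h2] at hf
      split_ifs at hf <;> omega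
    · rw [if_neg h2] at hf
      split_ifs at hf <;> omega

theorem sep_ne_two (hn : ∀ i, 1 ≤ n i) (L : Layout n k) (Bl : Blocks L) (cen : Fin N → α)
    (Y : Fin N → ℕ → ℤ) (hY : Adm Bl Y) (i j : Fin N) (s t : ℕ) (hs : Valid L cen i s)
    (ht : Valid L cen j t) (hf : famc L i s = famc L j t) (h2 : famc L i s ≠ 2)
    (hne : ¬ (i = j ∧ s = t)) : 600 ≤ |cval L cen Y i s - cval L cen Y j t| := by
  rcases famc_cases L i j (valid_lt L cen hs) (valid_lt L cen ht) hf with ⟨h3, h4⟩ | h3
  · have hs' : Has n L.i0 i s := by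
      have := has_last hn L cen i s hs
      have e : lastRole L i s = s := by simp [lastRole, h3]
      rwa [e] at this
    have ht' : Has n L.i0 j t := by
      have := has_last hn L cen j t ht
      have e : lastRole L j t = t := by simp [lastRole, h4]
      rwa [e] at this
    have h5 := hole_ne Bl hY i j s t hs' ht' hne
    rw [cval_small L cen Y i h3, cval_small L cen Y j h4, ← mul_sub, abs_mul]
    have h6 : |(2 : ℤ)| = 2 := rfl
    rw [h6]
    linarith
  · subst h3
    have hij : i ≠ j := fun h => hne ⟨h, rfl⟩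
    by_cases h14 : s < 14
    · have e1 := cval_small L cen Y i h14
      have e2 := cval_small L cen Y j h14
      have hs' : Has n L.i0 i s := by
        have := has_last hn L cen i s hs
        have e : lastRole L i s = s := by simp [lastRole, h14]
        rwa [e] at this
      have ht' : Has n L.i0 j s := by
        have := has_last hn L cen j s ht
        have e : lastRole L j s = s := by simp [lastRole, h14]
        rwa [e] at this
      have h5 := hole_ne Bl hY i j s s hs' ht' hne
      rw [e1, e2, ← mul_sub, abs_mul]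
      have h6 : |(2 : ℤ)| = 2 := rfl
      rw [h6]
      linarith
    · by_cases h15 : s = 14
      · subst h15
        rw [cval_leaf, cval_leaf]
        have h5 := hole_ne Bl hY i j _ _ (has_leaf (i0 := L.i0) (hn i))
          (has_leaf (i0 := L.i0) (hn j)) (fun h => hij h.1)
        linarith
      · have h16 : s ≠ 15 := by
          rintro rfl
          exact h2 (by simp [famc])
        have h17 : 16 ≤ s := by omega
        rcases lt_or_gt_of_ne hij with h | h
        · have := cval_lt L Bl cen Y hY hs ht h17 h hf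
          rw [abs_sub_comm]
          exact le_trans (by linarith) (le_abs_self _)
        · have := cval_lt L Bl cen Y hY ht hs h17 h hf.symm
          exact le_trans (by linarith) (le_abs_self _)

end Pool.SpA
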