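import Pool.Agent.SpA.ChooseRoot
import Pool.Agent.SpA.ChooseSep

/-!
# SpA/ChooseEnd

If different valid codes have different values then `EvenOK`.

Proof.  To every `Sp0` pair `(a,b)` belongs a valid code `(i,s)` with `cval = a + b` (hole: s=r;
zz: 16+r; zlo: 24; hiu, hiu0: 26; uo, uu: 27; ou: 28; uhi: 25; lox3: 33; x3x2: 32; lox2: 34; x2x1: 29;
xo: 30; ox: 31), with `s ≠ 14, 15`, and the ordered pair is determined by the code (`cePair`).  Leaf of
`i`: code `(i,14)`; root sum of `cen i`: code `(j,15)`, `j` = the last leg with `cen j = cen i`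
(`cval_root`).
-/

namespace Pool.SpA

open Finset

section

variable {N : ℕ} {n : Fin N → ℕ} {k : ℤ}

/-- the ordered pair of labels of the code -/
def cePair (L : Layout n k) (Y : Fin N → ℕ → ℤ) (i : Fin N) (s : ℕ) : ℤ × ℤ :=
  if s < 14 then (Y i s - 1, Y i s + 1)
  else if s ≤ 23 then (Y i (s - 16), Y i (s - 15))
  else if s = 24 then (Y i 1, L.q i)
  else if s = 25 then (Y i 12, L.p i + L.a i - 1)
  else if s = 26 then (L.q i + L.b i - 1, if i = L.i0 then Y i 13 else Y i 12)
  else if s = 27 then (Y i 13, if o1 k = 1 then k + 1 else Y i 12)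
  else if s = 28 then (k + 1, Y i 12)
  else if s = 29 then (Y i 10, Y i 9)
  else if s = 30 then (Y i 10, k + (∑ i, n i : ℕ))
  else if s = 31 then (k + (∑ i, n i : ℕ), Y i 9)
  else if s = 32 then (Y i 11, Y i 10)
  else if s = 33 then (L.p i, Y i 11)
  else (L.p i, Y i 10)

theorem ce_has_lt (i0 i : Fin N) (r : ℕ) (h : Has n i0 i r) : r < 14 := by
  unfold Has at h
  split_ifs at h with h1
  · omega
  · rcases h with h | h | h | h | h | h | h <;> omega

theorem ce_code0 {α : Type*} [DecidableEq α] (L : Layout n k) (cen : Fin N → α)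
    (Y : Fin N → ℕ → ℤ) (a b : ℤ) (h : Sp0 L Y a b) :
    ∃ i s, s ≠ 14 ∧ s ≠ 15 ∧ Valid L cen i s ∧ cval L cen Y i s = a + b ∧
      cePair L Y i s = (a, b) := by
  cases h with
  | hole i r h =>
    have h14 := ce_has_lt _ _ _ h
    refine ⟨i, r, by omega, by omega, Or.inl ⟨h14, h⟩, ?_, ?_⟩
    · simp only [cval, coefc, lastRole, restc, if_pos h14, if_pos h14.le]
      ring
    · simp only [cePair, if_pos h14]
  | zz i r hr h h' =>
    have e1 : 16 + r - 16 = r := by omega
    have e2 : 16 + r - 15 = r + 1 := by omega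
    refine ⟨i, 16 + r, by omega, by omega, ?_, ?_, ?_⟩
    · refine Or.inr (Or.inr (Or.inr (Or.inl ⟨by omega, by omega, ?_, ?_⟩)))
      · rw [e1]; exact h
      · rw [e2]; exact h'
    · simp only [cval, coefc, lastRole, restc, e1, e2]
      rw [if_neg (by omega), if_neg (by omega), if_neg (by omega), if_neg (by omega),
        if_pos (by omega), if_neg (by omega), if_neg (by omega), if_pos (by omega)]
      ring
    · simp only [cePair, e1, e2]
      rw [if_neg (by omega), if_pos (by omega)]
  | zlo i h =>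
    refine ⟨i, 24, by norm_num, by norm_num, ?_, ?_, ?_⟩
    · simp [Valid, h]
    · simp [cval, coefc, lastRole, restc]
    · simp [cePair]
  | hiu i h hi =>
    refine ⟨i, 26, by norm_num, by norm_num, ?_, ?_, ?_⟩
    · simp [Valid, h]
    · simp [cval, coefc, lastRole, restc, hi]
      ring
    · simp [cePair, hi]
  | hiu0 =>
    refine ⟨L.i0, 26, by norm_num, by norm_num, ?_, ?_, ?_⟩
    · simp [Valid, L.long]
    · simp [cval, coefc, lastRole, restc]
      ring
    · simp [cePair]
  | uo h =>
    refine ⟨L.i0, 27, by norm_num, by norm_num, ?_, ?_, ?_⟩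
    · simp [Valid]
    · simp [cval, coefc, lastRole, restc, h]
    · simp [cePair, h]
  | ou h =>
    refine ⟨L.i0, 28, by norm_num, by norm_num, ?_, ?_, ?_⟩
    · simp [Valid, h]
    · simp [cval, coefc, lastRole, restc]
      ring
    · simp [cePair]
  | uu h =>
    refine ⟨L.i0, 27, by norm_num, by norm_num, ?_, ?_, ?_⟩
    · simp [Valid]
    · simp [cval, coefc, lastRole, restc, h]
    · simp [cePair, h]
  | uhi i h =>
    refine ⟨i, 25, by norm_num, by norm_num, ?_, ?_, ?_⟩
    · simp [Valid, h]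
    · simp [cval, coefc, lastRole, restc]
    · simp [cePair]
  | lox3 i h hi he =>
    refine ⟨i, 33, by norm_num, by norm_num, ?_, ?_, ?_⟩
    · simp [Valid, h, hi, he]
    · simp [cval, coefc, lastRole, restc]
      ring
    · simp [cePair]
  | x3x2 i h hi he =>
    refine ⟨i, 32, by norm_num, by norm_num, ?_, ?_, ?_⟩
    · simp [Valid, h, hi, he]
    · simp [cval, coefc, lastRole, restc]
    · simp [cePair]
  | lox2 i h hi =>
    refine ⟨i, 34, by norm_num, by norm_num, ?_, ?_, ?_⟩
    · have : Valid L cen i 34 := by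
        unfold Valid
        iterate 14 right
        exact ⟨rfl, h, hi⟩
      exact this
    · simp [cval, coefc, lastRole, restc]
      ring
    · simp [cePair]
  | x2x1 i h hi =>
    refine ⟨i, 29, by norm_num, by norm_num, ?_, ?_, ?_⟩
    · have : Valid L cen i 29 := by
        unfold Valid
        iterate 9 right
        left
        exact ⟨rfl, h, hi⟩
      exact this
    · simp [cval, coefc, lastRole, restc]
    · simp [cePair]
  | xo h =>
    refine ⟨L.i0, 30, by norm_num, by norm_num, ?_, ?_, ?_⟩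
    · have : Valid L cen L.i0 30 := by
        unfold Valid
        iterate 10 right
        left
        exact ⟨rfl, rfl, h⟩
      exact this
    · simp [cval, coefc, lastRole, restc]
    · simp [cePair]
  | ox h =>
    refine ⟨L.i0, 31, by norm_num, by norm_num, ?_, ?_, ?_⟩
    · have : Valid L cen L.i0 31 := by
        unfold Valid
        iterate 11 right
        left
        exact ⟨rfl, rfl, h⟩
      exact this
    · simp [cval, coefc, lastRole, restc]
      ring
    · simp [cePair]

theorem ce_code {α : Type*} [DecidableEq α] (L : Layout n k) (cen : Fin N → α)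
    (Y : Fin N → ℕ → ℤ) (a b : ℤ) (h : Sp L Y a b) :
    ∃ i s, s ≠ 14 ∧ s ≠ 15 ∧ Valid L cen i s ∧ cval L cen Y i s = a + b ∧
      (cePair L Y i s = (a, b) ∨ cePair L Y i s = (b, a)) := by
  rcases h with h | h
  · obtain ⟨i, s, h1, h2, h3, h4, h5⟩ := ce_code0 L cen Y a b h
    exact ⟨i, s, h1, h2, h3, h4, Or.inl h5⟩
  · obtain ⟨i, s, h1, h2, h3, h4, h5⟩ := ce_code0 L cen Y b a h
    exact ⟨i, s, h1, h2, h3, by rw [h4, add_comm], Or.inr h5⟩

theorem ce_cval_leaf {α : Type*} [DecidableEq α] (L : Layout n k) (cen : Fin N → α)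
    (Y : Fin N → ℕ → ℤ) (i : Fin N) : cval L cen Y i 14 = leafv n Y i := by
  have h1 : coefc 14 = 1 := by norm_num [coefc]
  have h2 : lastRole L i 14 = if n i ≤ 9 then n i - 1 else 9 := by
    unfold lastRole
    rw [if_neg (by norm_num), if_pos rfl]
  have h3 : restc L cen Y i 14 = 0 := by
    unfold restc
    rw [if_pos (by norm_num)]
  rw [cval, h1, h2, h3, one_mul, add_zero, leafv]
  split_ifs <;> rfl

theorem ce_exists_last {α : Type*} (cen : Fin N → α) (i : Fin N) :
    ∃ j, cen j = cen i ∧ ∀ j', j < j' → cen j' ≠ cen j := by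
  classical
  have hne : (univ.filter fun j => cen j = cen i).Nonempty := ⟨i, by simp⟩
  refine ⟨(univ.filter fun j => cen j = cen i).max' hne, ?_, ?_⟩
  · have := Finset.max'_mem _ hne
    simpa using this
  · intro j' hj' he
    have h1 : cen ((univ.filter fun j => cen j = cen i).max' hne) = cen i := by
      have := Finset.max'_mem _ hne
      simpa using this
    have h2 : j' ∈ (univ.filter fun j => cen j = cen i) := by
      simp [he, h1]
    exact absurd (Finset.le_max' _ _ h2) (not_le.mpr hj')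

end

theorem even_ok {N : ℕ} {n : Fin N → ℕ} {k : ℤ} {α : Type*} [DecidableEq α]
    (hn : ∀ i, 1 ≤ n i) (L : Layout n k) (Bl : Blocks L) (cen : Fin N → α)
    (Y : Fin N → ℕ → ℤ) (hY : Adm Bl Y)
    (h : ∀ i j s t, Valid L cen i s → Valid L cen j t → cval L cen Y i s = cval L cen Y j t →
      i = j ∧ s = t) : EvenOK L cen Y := by
  have vleaf : ∀ i, Valid L cen i 14 := fun i => Or.inr (Or.inl rfl)
  have vroot : ∀ i, (∀ j, i < j → cen j ≠ cen i) → Valid L cen i 15 := fun i hi =>
    Or.inr (Or.inr (Or.inl ⟨rfl, hi⟩))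
  refine ⟨?_, ?_, ?_, ?_, ?_⟩
  · intro a b c d hab hcd he
    obtain ⟨i, s, -, -, h3, h4, h5⟩ := ce_code L cen Y a b hab
    obtain ⟨j, t, -, -, g3, g4, g5⟩ := ce_code L cen Y c d hcd
    obtain ⟨rfl, rfl⟩ := h i j s t h3 g3 (by rw [h4, g4, he])
    rcases h5 with h5 | h5 <;> rcases g5 with g5 | g5 <;>
      rw [h5] at g5 <;> simp only [Prod.mk.injEq] at g5
    · exact Or.inl g5
    · exact Or.inr g5
    · exact Or.inr ⟨g5.2, g5.1⟩
    · exact Or.inl ⟨g5.2, g5.1⟩
  · intro i a b hab he
    obtain ⟨j, s, h1, -, h3, h4, -⟩ := ce_code L cen Y a b hab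
    have := h i j 14 s (vleaf i) h3 (by rw [ce_cval_leaf, h4, he])
    exact h1 this.2.symm
  · intro i a b hab he
    obtain ⟨j, s, -, h2, h3, h4, -⟩ := ce_code L cen Y a b hab
    obtain ⟨l, hl, hl'⟩ := ce_exists_last cen i
    have := h l j 15 s (vroot l hl') h3 (by rw [cval_root L cen Y l hl', hl, h4, he])
    exact h2 this.2.symm
  · intro i j he
    obtain ⟨l, hl, hl'⟩ := ce_exists_last cen i
    have := h l j 15 14 (vroot l hl') (vleaf j) (by rw [cval_root L cen Y l hl', hl, ce_cval_leaf, he])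
    omega
  · intro i j he
    obtain ⟨l, hl, hl'⟩ := ce_exists_last cen i
    obtain ⟨r, hr, hr'⟩ := ce_exists_last cen j
    have := h l r 15 15 (vroot l hl') (vroot r hr')
      (by rw [cval_root L cen Y l hl', cval_root L cen Y r hr', hl, hr, he])
    rw [← hl, ← hr, this.1]

end Pool.SpA
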