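import Pool.Agent.SpA.Greedy
import Pool.Agent.SpA.ChooseDist
import Pool.Agent.SpA.ChooseEnd

/-!
# SpA/Choose

The choice of the values of the holes (note 3500, section 3), through `greedy`.
-/

namespace Pool.SpA

open Finset

theorem ch_lastRole_lt {N : ℕ} {n : Fin N → ℕ} {k : ℤ} (L : Layout n k) (i : Fin N) (s : ℕ) :
    lastRole L i s < 14 := by
  unfold lastRole
  by_cases h1 : s < 14
  · rw [if_pos h1]
    exact h1
  rw [if_neg h1]
  by_cases h2 : s = 14
  · rw [if_pos h2]
    by_cases h : n i ≤ 9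
    · rw [if_pos h]
      omega
    · rw [if_neg h]
      norm_num
  rw [if_neg h2]
  by_cases h3 : s = 15
  · rw [if_pos h3]
    norm_num
  rw [if_neg h3]
  by_cases h4 : s ≤ 23
  · rw [if_pos h4]
    omega
  rw [if_neg h4]
  by_cases h5 : s = 24
  · rw [if_pos h5]
    norm_num
  rw [if_neg h5]
  by_cases h6 : s = 25
  · rw [if_pos h6]
    norm_num
  rw [if_neg h6]
  by_cases h7 : s = 26
  · rw [if_pos h7]
    by_cases h : i = L.i0
    · rw [if_pos h]
      norm_num
    · rw [if_neg h]
      norm_num
  rw [if_neg h7]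
  by_cases h8 : s = 27
  · rw [if_pos h8]
    norm_num
  rw [if_neg h8]
  by_cases h9 : s = 28
  · rw [if_pos h9]
    norm_num
  rw [if_neg h9]
  by_cases h10 : s = 29
  · rw [if_pos h10]
    norm_num
  rw [if_neg h10]
  by_cases h11 : s = 30
  · rw [if_pos h11]
    norm_num
  rw [if_neg h11]
  by_cases h12 : s = 31
  · rw [if_pos h12]
    norm_num
  rw [if_neg h12]
  by_cases h13 : s = 32
  · rw [if_pos h13]
    norm_num
  rw [if_neg h13]
  by_cases h14 : s = 33
  · rw [if_pos h14]
    norm_num
  rw [if_neg h14]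
  norm_num

theorem ch_famc_lt {N : ℕ} {n : Fin N → ℕ} {k : ℤ} (L : Layout n k) (i : Fin N) (s : ℕ)
    (hs : s < 35) : famc L i s < 23 := by
  unfold famc
  split_ifs <;> omega

theorem ch_has_lt {N : ℕ} {n : Fin N → ℕ} {i0 : Fin N} {i : Fin N} {r : ℕ} (h : Has n i0 i r) :
    r < 14 := by
  unfold Has at h
  split_ifs at h <;> omega

theorem ch_valid_lt {N : ℕ} {n : Fin N → ℕ} {k : ℤ} {α : Type*} {L : Layout n k} {cen : Fin N → α}
    {i : Fin N} {s : ℕ} (h : Valid L cen i s) : s < 35 := by
  unfold Valid at h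
  omega

/-- the values of the variables as a function of leg and role -/
def chfun {N : ℕ} (y : (Fin N ×ₗ Fin 14) → ℤ) (i : Fin N) (r : ℕ) : ℤ :=
  if h : r < 14 then y (toLex (i, ⟨r, h⟩)) else 0

/-- the domain of a variable -/
noncomputable def chdom {N : ℕ} {n : Fin N → ℕ} {k : ℤ} {L : Layout n k} (Bl : Blocks L)
    (v : Fin N ×ₗ Fin 14) : Finset ℤ :=
  if Has n L.i0 (ofLex v).1 (ofLex v).2 then
    (Ico (Bl.B (ofLex v).1 (ofLex v).2) (Bl.B (ofLex v).1 (ofLex v).2 + 600)).filter
      (fun x => if 12 ≤ ((ofLex v).2 : ℕ) then Odd x else Even x)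
  else Icc 0 299

theorem ch_card_domc {N : ℕ} {n : Fin N → ℕ} {k : ℤ} {L : Layout n k} (Bl : Blocks L)
    (v : Fin N ×ₗ Fin 14) : 300 ≤ (chdom Bl v).card := by
  unfold chdom
  by_cases h : Has n L.i0 (ofLex v).1 (ofLex v).2
  · rw [if_pos h]
    have hev := Bl.even _ _ h
    set b := Bl.B (ofLex v).1 (ofLex v).2 with hb
    by_cases h12 : 12 ≤ ((ofLex v).2 : ℕ)
    · have hsub : (range 300).image (fun j : ℕ => b + 2 * (j : ℤ) + 1) ⊆
          (Ico b (b + 600)).filter
            (fun x => if 12 ≤ ((ofLex v).2 : ℕ) then Odd x else Even x) := by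
        intro x hx
        rw [mem_image] at hx
        obtain ⟨j, hj, rfl⟩ := hx
        rw [mem_range] at hj
        rw [mem_filter, mem_Ico, if_pos h12]
        obtain ⟨c, hc⟩ := hev
        refine ⟨by omega, ⟨c + j, by omega⟩⟩
      calc 300 = ((range 300).image (fun j : ℕ => b + 2 * (j : ℤ) + 1)).card := by
            rw [card_image_of_injective, card_range]
            intro x y hxy
            simp only at hxy
            omega
        _ ≤ _ := card_le_card hsub
    · have hsub : (range 300).image (fun j : ℕ => b + 2 * (j : ℤ)) ⊆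
          (Ico b (b + 600)).filter
            (fun x => if 12 ≤ ((ofLex v).2 : ℕ) then Odd x else Even x) := by
        intro x hx
        rw [mem_image] at hx
        obtain ⟨j, hj, rfl⟩ := hx
        rw [mem_range] at hj
        rw [mem_filter, mem_Ico, if_neg h12]
        obtain ⟨c, hc⟩ := hev
        refine ⟨by omega, ⟨c + j, by omega⟩⟩
      calc 300 = ((range 300).image (fun j : ℕ => b + 2 * (j : ℤ))).card := by
            rw [card_image_of_injective, card_range]
            intro x y hxy
            simp only at hxy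
            omega
        _ ≤ _ := card_le_card hsub
  · rw [if_neg h]
    simp

theorem ch_diam_domc {N : ℕ} {n : Fin N → ℕ} {k : ℤ} {L : Layout n k} (Bl : Blocks L)
    (v : Fin N ×ₗ Fin 14) : ∀ x ∈ chdom Bl v, ∀ x' ∈ chdom Bl v, x - x' < 600 := by
  intro x hx x' hx'
  unfold chdom at hx hx'
  by_cases h : Has n L.i0 (ofLex v).1 (ofLex v).2
  · rw [if_pos h, mem_filter, mem_Ico] at hx hx'
    omega
  · rw [if_neg h, mem_Icc] at hx hx'
    omega

theorem ch_adm_of_dom {N : ℕ} {n : Fin N → ℕ} {k : ℤ} {L : Layout n k} (Bl : Blocks L)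
    (y : (Fin N ×ₗ Fin 14) → ℤ) (hy : ∀ v, y v ∈ chdom Bl v) : Adm Bl (chfun y) := by
  intro i r hr
  have h14 := ch_has_lt hr
  have h1 := hy (toLex (i, ⟨r, h14⟩))
  have hr' : Has n L.i0 (ofLex (toLex (i, (⟨r, h14⟩ : Fin 14)))).1
      (ofLex (toLex (i, (⟨r, h14⟩ : Fin 14)))).2 := hr
  unfold chdom at h1
  rw [if_pos hr', mem_filter, mem_Ico] at h1
  have h2 : chfun y i r = y (toLex (i, ⟨r, h14⟩)) := by
    unfold chfun
    rw [dif_pos h14]
  rw [h2]
  exact ⟨h1.1.1, h1.1.2, h1.2⟩

theorem exists_choice {N : ℕ} {α : Type*} [LinearOrder α] {n : Fin N → ℕ} {k : ℤ}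
    (cen : Fin N → α) (hn : ∀ i, 1 ≤ n i) (hcen : Monotone cen)
    (hdeg : ∀ i j, cen i ≤ cen j →
      (univ.filter fun i' => cen i' = cen i).card ≤ (univ.filter fun j' => cen j' = cen j).card)
    (hone : ∀ i, n i = 1 → ∃ j, j ≠ i ∧ cen j = cen i)
    (hk : 0 ≤ 2 * k + (∑ i, n i : ℕ) + 1) (hm : 2 ≤ ∑ i, n i)
    (L : Layout n k) (Bl : Blocks L) :
    ∃ y, Adm Bl y ∧ EvenOK L cen y := by
  classical
  have hval : ∀ (y : (Fin N ×ₗ Fin 14) → ℤ) (e : Fin N × Fin 35),
      coefc (e.2 : ℕ) * y (toLex (e.1, ⟨lastRole L e.1 e.2, ch_lastRole_lt L e.1 e.2⟩)) +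
        restc L cen (chfun y) e.1 e.2 = cval L cen (chfun y) e.1 e.2 := by
    intro y e
    unfold cval chfun
    rw [dif_pos (ch_lastRole_lt L e.1 e.2)]
  obtain ⟨y, hyD, hinj⟩ := greedy (V := Fin N ×ₗ Fin 14) (E := Fin N × Fin 35) (Φ := Fin 23)
    600 (by norm_num) (chdom Bl) (univ.filter fun e => Valid L cen e.1 (e.2 : ℕ))
    (fun e => toLex (e.1, ⟨lastRole L e.1 e.2, ch_lastRole_lt L e.1 e.2⟩))
    (fun e => coefc (e.2 : ℕ)) (fun e y => restc L cen (chfun y) e.1 e.2)
    (fun e => ⟨famc L e.1 e.2, ch_famc_lt L e.1 e.2 e.2.2⟩)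
    (by
      intro e
      unfold coefc
      split_ifs
      · exact Or.inr rfl
      · exact Or.inl rfl)
    (by
      intro e he y y' hyy
      rw [mem_filter] at he
      apply rest_congr hn L cen e.1 e.2 he.2
      intro j r hr hlt
      unfold chfun
      rw [dif_pos hr, dif_pos hr]
      apply hyy
      rw [Prod.Lex.toLex_lt_toLex]
      rcases hlt with h | ⟨h, h'⟩
      · exact Or.inl h
      · exact Or.inr ⟨h, h'⟩)
    (ch_diam_domc Bl)
    (by
      intro y hy e he e' he' hf hne
      rw [mem_filter] at he he'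
      have hA := ch_adm_of_dom Bl y hy
      rw [hval, hval]
      have hf' : famc L e.1 e.2 = famc L e'.1 e'.2 := by
        have := congrArg Fin.val hf
        simpa using this
      by_cases h2 : famc L e.1 e.2 = 2
      · have h15 : ∀ (i : Fin N) (s : ℕ), famc L i s = 2 → s = 15 := by
          intro i s h
          unfold famc at h
          split_ifs at h <;> omega
        have hs := h15 _ _ h2
        have ht := h15 _ _ (hf' ▸ h2)
        have hv := he.2
        have hv' := he'.2
        rw [hs] at hv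
        rw [ht] at hv'
        have hl : ∀ j, e.1 < j → cen j ≠ cen e.1 := by
          unfold Valid at hv
          rcases hv with h | h | h | h | h | h | h | h | h | h | h | h | h | h | h
          all_goals first
            | exact h.2
            | omega
        have hl' : ∀ j, e'.1 < j → cen j ≠ cen e'.1 := by
          unfold Valid at hv'
          rcases hv' with h | h | h | h | h | h | h | h | h | h | h | h | h | h | h
          all_goals first
            | exact h.2
            | omega
        rw [hs, ht, cval_root L cen _ e.1 hl, cval_root L cen _ e'.1 hl']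
        apply sep_root hn L Bl cen hcen hdeg _ hA _ _ hl hl'
        intro h1
        apply hne
        exact Prod.ext h1 (Fin.ext (hs.trans ht.symm))
      · apply sep_ne_two hn L Bl cen _ hA _ _ _ _ he.2 he'.2 hf' h2
        rintro ⟨h1, h3⟩
        exact hne (Prod.ext h1 (Fin.ext h3)))
    (by
      intro y hy e he e' he' hne hl hc
      rw [mem_filter] at he he'
      have hA := ch_adm_of_dom Bl y hy
      have h1 : e.1 = e'.1 := by
        have := congrArg (fun v => (ofLex v).1) hl
        simpa using this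
      have h2 : lastRole L e.1 e.2 = lastRole L e'.1 e'.2 := by
        have := congrArg (fun v => ((ofLex v).2 : ℕ)) hl
        simpa using this
      have hv := he.2
      rw [h1] at hv h2 ⊢
      refine dist hn hk hm L Bl cen hone _ hA e'.1 e.2 e'.2 hv he'.2 ?_ h2 hc
      intro h3
      exact hne (Prod.ext h1 (Fin.ext h3)))
    (by
      intro v
      have hmap : ((univ.filter fun e : Fin N × Fin 35 => Valid L cen e.1 (e.2 : ℕ)).filter
          (fun e => toLex (e.1, (⟨lastRole L e.1 e.2, ch_lastRole_lt L e.1 e.2⟩ : Fin 14)) = v)).card =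
          (((univ.filter fun e : Fin N × Fin 35 => Valid L cen e.1 (e.2 : ℕ)).filter
          (fun e => toLex (e.1, (⟨lastRole L e.1 e.2, ch_lastRole_lt L e.1 e.2⟩ : Fin 14)) =
            v)).image (fun e => (e.2 : ℕ))).card := by
        rw [card_image_of_injOn]
        intro e he e' he' h
        simp only [coe_filter, mem_filter, mem_univ, true_and, Set.mem_ofPred_eq] at he he'
        have h1 : e.1 = e'.1 := by
          have := congrArg (fun v => (ofLex v).1) (he.2.trans he'.2.symm)
          simpa using this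
        exact Prod.ext h1 (Fin.ext h)
      rw [hmap]
      apply few hn L cen (ofLex v).1 (ofLex v).2
      intro s hs
      rw [mem_image] at hs
      obtain ⟨e, he, rfl⟩ := hs
      rw [mem_filter, mem_filter] at he
      have h1 : e.1 = (ofLex v).1 := by
        have := congrArg (fun v => (ofLex v).1) he.2
        simpa using this
      have h2 : lastRole L e.1 e.2 = ((ofLex v).2 : ℕ) := by
        have := congrArg (fun v => ((ofLex v).2 : ℕ)) he.2
        simpa using this
      rw [← h1]
      exact ⟨he.1.2, h2⟩)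
    (by
      intro v
      have := ch_card_domc Bl v
      simp only [Fintype.card_fin]
      omega)
  refine ⟨chfun y, ch_adm_of_dom Bl y hyD, even_ok hn L Bl cen _ (ch_adm_of_dom Bl y hyD) ?_⟩
  intro i j s t hs ht h
  have h3 := hinj (i, ⟨s, ch_valid_lt hs⟩) (by rw [mem_filter]; exact ⟨mem_univ _, hs⟩)
    (j, ⟨t, ch_valid_lt ht⟩) (by rw [mem_filter]; exact ⟨mem_univ _, ht⟩)
    (by
      rw [hval, hval]
      exact h)
  have h4 := Prod.ext_iff.1 h3
  exact ⟨h4.1, by simpa using congrArg Fin.val h4.2⟩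

end Pool.SpA
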