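import Pool.Agent.SpA.Facts

/-!
# SpA/ChooseDefs: the codes of the even sums (definitions only)

A code is `(i, s)`, `i` a leg, `s < 35`:
  0..13 `2 y(i,s)`; 14 leaf; 15 root; 16..23 `z_{r+1}+z_{r+2}` (`r = s-16`); 24 `z2+lo'`; 25 `u+hi`;
  26 `u+hi'` (for the special leg `u'+hi'`); 27 `u'+(k+1)` or `u'+u`; 28 `u+(k+1)`; 29 `x1+x2`;
  30 `x2+(k+m)`; 31 `x1+(k+m)`; 32 `x3+x2`; 33 `x3+lo`; 34 `x2+lo`.
-/

namespace Pool.SpA

open Finset

variable {N : ℕ} {n : Fin N → ℕ} {k : ℤ} {α : Type*} [DecidableEq α]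

/-- the valid codes -/
def Valid (L : Layout n k) (cen : Fin N → α) (i : Fin N) (s : ℕ) : Prop :=
  (s < 14 ∧ Has n L.i0 i s) ∨
  (s = 14) ∨
  (s = 15 ∧ ∀ j, i < j → cen j ≠ cen i) ∨
  (16 ≤ s ∧ s ≤ 23 ∧ Has n L.i0 i (s - 16) ∧ Has n L.i0 i (s - 15)) ∨
  (s = 24 ∧ 10 ≤ n i) ∨
  (s = 25 ∧ 10 ≤ n i) ∨
  (s = 26 ∧ 10 ≤ n i) ∨
  (s = 27 ∧ i = L.i0) ∨
  (s = 28 ∧ i = L.i0 ∧ o1 k = 1) ∨
  (s = 29 ∧ 10 ≤ n i ∧ (i ≠ L.i0 ∨ o2 k (∑ i, n i) = 0)) ∨
  (s = 30 ∧ i = L.i0 ∧ o2 k (∑ i, n i) = 1) ∨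
  (s = 31 ∧ i = L.i0 ∧ o2 k (∑ i, n i) = 1) ∨
  (s = 32 ∧ 10 ≤ n i ∧ i ≠ L.i0 ∧ Even (n i)) ∨
  (s = 33 ∧ 10 ≤ n i ∧ i ≠ L.i0 ∧ Even (n i)) ∨
  (s = 34 ∧ 10 ≤ n i ∧ (i = L.i0 ∨ ¬ Even (n i)))

/-- the role of the last variable of the code -/
def lastRole (L : Layout n k) (i : Fin N) (s : ℕ) : ℕ :=
  if s < 14 then s
  else if s = 14 then (if n i ≤ 9 then n i - 1 else 9)
  else if s = 15 then 0
  else if s ≤ 23 then s - 15
  else if s = 24 then 1
  else if s = 25 then 12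
  else if s = 26 then (if i = L.i0 then 13 else 12)
  else if s = 27 then 13
  else if s = 28 then 12
  else if s = 29 then 10
  else if s = 30 then 10
  else if s = 31 then 9
  else if s = 32 then 11
  else if s = 33 then 11
  else 10

/-- coefficient of the last variable -/
def coefc (s : ℕ) : ℤ := if s < 14 then 2 else 1

/-- the part of the sum which depends on earlier variables only -/
def restc (L : Layout n k) (cen : Fin N → α) (Y : Fin N → ℕ → ℤ) (i : Fin N) (s : ℕ) : ℤ :=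
  if s ≤ 14 then 0
  else if s = 15 then ∑ j ∈ univ.filter (fun j => j < i ∧ cen j = cen i), Y j 0
  else if s ≤ 23 then Y i (s - 16)
  else if s = 24 then L.q i
  else if s = 25 then L.p i + L.a i - 1
  else if s = 26 then L.q i + L.b i - 1
  else if s = 27 then (if o1 k = 1 then k + 1 else Y i 12)
  else if s = 28 then k + 1
  else if s = 29 then Y i 9
  else if s = 30 then k + (∑ i, n i : ℕ)
  else if s = 31 then k + (∑ i, n i : ℕ)
  else if s = 32 then Y i 10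
  else L.p i

/-- the family of the code (a number below 23) -/
def famc (L : Layout n k) (i : Fin N) (s : ℕ) : ℕ :=
  if s < 14 then 0
  else if s = 14 then 1
  else if s = 15 then 2
  else if s ≤ 23 then s - 13
  else if s = 24 then 11
  else if s = 25 then 12
  else if s = 26 then (if i = L.i0 then 14 else 13)
  else s - 12

/-- value of the code -/
def cval (L : Layout n k) (cen : Fin N → α) (Y : Fin N → ℕ → ℤ) (i : Fin N) (s : ℕ) : ℤ :=
  coefc s * Y i (lastRole L i s) + restc L cen Y i s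

end Pool.SpA
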