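import Pool.Agent.SpA.ChooseDefs

/-!
# SpA/ChooseRoot

The root sums are 600-separated.

`cval_root`: if `i` is the last leg of its root then the value of the code `(i,15)` is the root sum.
`sep_root`: for two last legs `i < j` of different roots: every leg `a` of `cen i` is `≤ i`, every leg
`b` of `cen j` is `> i`, so `y a 0 ≤ y i 0 ≤ y b 0 - 601`; `card A ≤ card A'` (`hdeg`) and `y i 0 > 0`.
-/

namespace Pool.SpA

open Finset

variable {N : ℕ} {n : Fin N → ℕ} {k : ℤ} {α : Type*}

theorem cval_root [DecidableEq α] (L : Layout n k) (cen : Fin N → α)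
    (Y : Fin N → ℕ → ℤ) (i : Fin N) (hi : ∀ j, i < j → cen j ≠ cen i) :
    cval L cen Y i 15 = rs cen Y (cen i) := by
  have h1 : (univ.filter fun j => cen j = cen i) =
      insert i (univ.filter fun j => j < i ∧ cen j = cen i) := by
    ext j
    simp only [mem_filter, mem_univ, true_and, mem_insert]
    constructor
    · intro h
      rcases lt_trichotomy j i with h2 | h2 | h2
      · exact Or.inr ⟨h2, h⟩
      · exact Or.inl h2
      · exact absurd h (hi j h2)
    · rintro (h | h)
      · rw [h]
      · exact h.2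
  have h2 : i ∉ (univ.filter fun j => j < i ∧ cen j = cen i) := by simp
  have h3 : cval L cen Y i 15 =
      Y i 0 + ∑ j ∈ univ.filter (fun j => j < i ∧ cen j = cen i), Y j 0 := by
    simp [cval, coefc, lastRole, restc]
  rw [h3, rs, h1, sum_insert h2]

private theorem has_zero_root (hn : ∀ i, 1 ≤ n i) (i0 i : Fin N) : Has n i0 i 0 := by
  unfold Has
  split_ifs
  · exact hn i
  · exact Or.inl rfl

/-- the case of two last legs `i < j` -/
theorem sep_root_aux [LinearOrder α] (hn : ∀ i, 1 ≤ n i) (L : Layout n k) (Bl : Blocks L)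
    (cen : Fin N → α) (hcen : Monotone cen)
    (hdeg : ∀ i j, cen i ≤ cen j →
      (univ.filter fun i' => cen i' = cen i).card ≤ (univ.filter fun j' => cen j' = cen j).card)
    (Y : Fin N → ℕ → ℤ) (hY : Adm Bl Y) (i j : Fin N)
    (hi : ∀ j', i < j' → cen j' ≠ cen i) (hij : i < j) :
    rs cen Y (cen i) + 600 ≤ rs cen Y (cen j) := by
  have hlt : cen i < cen j := lt_of_le_of_ne (hcen hij.le) (hi j hij).symm
  have h0 := has_zero_root hn L.i0
  have hpos : 2 ≤ Y i 0 := hole_two Bl hY i 0 (h0 i)
  have hA : ∀ a ∈ (univ.filter fun i' => cen i' = cen i), Y a 0 ≤ Y i 0 := by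
    intro a ha
    have ha' : cen a = cen i := (mem_filter.mp ha).2
    rcases lt_trichotomy a i with h | h | h
    · have := hole_lt Bl hY a i 0 0 (h0 a) (h0 i) (Or.inr ⟨rfl, h⟩)
      linarith
    · rw [h]
    · exact absurd ha' (hi a h)
  have hA' : ∀ b ∈ (univ.filter fun j' => cen j' = cen j), Y i 0 + 601 ≤ Y b 0 := by
    intro b hb
    have hb' : cen b = cen j := (mem_filter.mp hb).2
    have hib : i < b := by
      by_contra hcon
      push Not at hcon
      have := hcen hcon
      rw [hb'] at this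
      exact absurd this (not_le.mpr hlt)
    exact hole_lt Bl hY i b 0 0 (h0 i) (h0 b) (Or.inr ⟨rfl, hib⟩)
  have h1 := sum_le_card_nsmul _ _ _ hA
  have h2 := card_nsmul_le_sum _ _ _ hA'
  have h3 := hdeg i j hlt.le
  have h4 : 0 < (univ.filter fun i' => cen i' = cen i).card :=
    card_pos.mpr ⟨i, by simp⟩
  rw [nsmul_eq_mul] at h1 h2
  have h3' : ((univ.filter fun i' => cen i' = cen i).card : ℤ) ≤
      ((univ.filter fun j' => cen j' = cen j).card : ℤ) := by exact_mod_cast h3
  have h4' : (1 : ℤ) ≤ ((univ.filter fun i' => cen i' = cen i).card : ℤ) := by exact_mod_cast h4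
  unfold rs
  nlinarith

theorem sep_root [LinearOrder α] (hn : ∀ i, 1 ≤ n i) (L : Layout n k) (Bl : Blocks L)
    (cen : Fin N → α) (hcen : Monotone cen)
    (hdeg : ∀ i j, cen i ≤ cen j →
      (univ.filter fun i' => cen i' = cen i).card ≤ (univ.filter fun j' => cen j' = cen j).card)
    (Y : Fin N → ℕ → ℤ) (hY : Adm Bl Y) (i j : Fin N)
    (hi : ∀ j', i < j' → cen j' ≠ cen i) (hj : ∀ j', j < j' → cen j' ≠ cen j) (hne : i ≠ j) :
    600 ≤ |rs cen Y (cen i) - rs cen Y (cen j)| := by
  rcases lt_or_gt_of_ne hne with h | h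
  · have := sep_root_aux hn L Bl cen hcen hdeg Y hY i j hi h
    rw [abs_sub_comm, abs_of_nonneg (by linarith)]
    linarith
  · have := sep_root_aux hn L Bl cen hcen hdeg Y hY j i hj h
    rw [abs_of_nonneg (by linarith)]
    linarith

end Pool.SpA
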