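import Pool.Agent.SpA.Pairs

/-!
# SpA/Facts

Order facts about the tiles and the holes.  `p`, `q` are the tile starts
(`Layout.p`, `Layout.q`): first tiles `[p i, p i + a i)`, second tiles `[q i, q i + b i)` come in the
order `I_1 < I_2 < ... < I'_1 < I'_2 < ...` and fill `[k+1+o1, k+1+m-o2)` (`L.endp`).  All by splitting
sums over `j < i`.
-/

namespace Pool.SpA

open Finset

private theorem sum_filter_add_le {N : ℕ} (f : Fin N → ℕ) (i : Fin N) (S : Finset (Fin N))
    (h : ∀ j, j ≤ i → j ∈ S) :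
    (∑ j ∈ univ.filter (· < i), (f j : ℤ)) + f i ≤ ∑ j ∈ S, (f j : ℤ) := by
  have hni : i ∉ univ.filter (· < i) := by simp
  have h1 : (∑ j ∈ univ.filter (· < i), (f j : ℤ)) + f i =
      ∑ j ∈ insert i (univ.filter (· < i)), (f j : ℤ) := by
    rw [sum_insert hni, add_comm]
  rw [h1]
  apply sum_le_sum_of_subset_of_nonneg
  · intro j hj
    rw [mem_insert, mem_filter] at hj
    rcases hj with rfl | hj
    · exact h _ le_rfl
    · exact h _ hj.2.le
  · intro j _ _
    positivity

private theorem sum_nonneg_nat {N : ℕ} (f : Fin N → ℕ) (S : Finset (Fin N)) :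
    (0 : ℤ) ≤ ∑ j ∈ S, (f j : ℤ) := sum_nonneg fun j _ => by positivity

private theorem even_sum_nat {N : ℕ} (f : Fin N → ℕ) (S : Finset (Fin N)) (h : ∀ i, Even (f i)) :
    Even (∑ j ∈ S, (f j : ℤ)) := by
  apply Finset.even_sum
  intro j _
  exact_mod_cast h j

private theorem even_o1 (k : ℤ) : Even (k + 1 + o1 k) := by
  unfold o1
  split_ifs with h
  · push_cast
    exact h.add_odd odd_one
  · rw [Int.not_odd_iff_even] at h
    simpa using h

section tiles

variable {N : ℕ} {n : Fin N → ℕ} {k : ℤ} (L : Layout n k)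

theorem p_ge (i : Fin N) : k + 1 + o1 k ≤ L.p i := by
  unfold Layout.p
  have := sum_nonneg_nat L.a (univ.filter (· < i))
  linarith

theorem p_lt (i j : Fin N) (h : i < j) : L.p i + L.a i ≤ L.p j := by
  unfold Layout.p
  have := sum_filter_add_le L.a i (univ.filter (· < j)) (fun l hl => by
    rw [mem_filter]; exact ⟨mem_univ _, lt_of_le_of_lt hl h⟩)
  linarith

theorem p_q (i j : Fin N) : L.p i + L.a i ≤ L.q j := by
  unfold Layout.p Layout.q
  have h1 := sum_filter_add_le L.a i univ (fun l _ => mem_univ _)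
  have h2 := sum_nonneg_nat L.b (univ.filter (· < j))
  linarith

theorem q_lt (i j : Fin N) (h : i < j) : L.q i + L.b i ≤ L.q j := by
  unfold Layout.q
  have := sum_filter_add_le L.b i (univ.filter (· < j)) (fun l hl => by
    rw [mem_filter]; exact ⟨mem_univ _, lt_of_le_of_lt hl h⟩)
  linarith

theorem q_le (i : Fin N) : L.q i + L.b i ≤ k + 1 + (∑ i, n i : ℕ) - o2 k (∑ i, n i) := by
  have h0 := L.endp
  unfold Layout.q
  have h1 := sum_filter_add_le L.b i univ (fun l _ => mem_univ _)
  push_cast at h0 ⊢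
  linarith

theorem q_nonneg (i : Fin N) : 0 ≤ L.q i := by
  have h0 := L.nonneg
  unfold Layout.q
  have h2 := sum_nonneg_nat L.b (univ.filter (· < i))
  linarith

theorem p_even (i : Fin N) : Even (L.p i) := by
  unfold Layout.p
  exact (even_o1 k).add (even_sum_nat L.a _ L.evena)

theorem q_even (i : Fin N) : Even (L.q i) := by
  unfold Layout.q
  exact ((even_o1 k).add (even_sum_nat L.a _ L.evena)).add (even_sum_nat L.b _ L.evenb)

/-- `p + a` is nondecreasing -/
theorem pa_le (i j : Fin N) (h : i < j) : L.p i + L.a i ≤ L.p j + L.a j := by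
  have := p_lt L i j h
  have h2 : (0 : ℤ) ≤ L.a j := by positivity
  linarith

/-- `q + b` is nondecreasing -/
theorem qb_le (i j : Fin N) (h : i < j) : L.q i + L.b i ≤ L.q j + L.b j := by
  have := q_lt L i j h
  have h2 : (0 : ℤ) ≤ L.b j := by positivity
  linarith

/-- first tiles: a number is in at most one -/
theorem p_unique (i j : Fin N) (x : ℤ) (h1 : L.p i ≤ x) (h2 : x < L.p i + L.a i) (h3 : L.p j ≤ x)
    (h4 : x < L.p j + L.a j) : i = j := by
  rcases lt_trichotomy i j with h | h | h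
  · have := p_lt L i j h
    omega
  · exact h
  · have := p_lt L j i h
    omega

/-- second tiles: a number is in at most one -/
theorem q_unique (i j : Fin N) (x : ℤ) (h1 : L.q i ≤ x) (h2 : x < L.q i + L.b i) (h3 : L.q j ≤ x)
    (h4 : x < L.q j + L.b j) : i = j := by
  rcases lt_trichotomy i j with h | h | h
  · have := q_lt L i j h
    omega
  · exact h
  · have := q_lt L j i h
    omega

end tiles

section holes

variable {N : ℕ} {n : Fin N → ℕ} {k : ℤ} {L : Layout n k} (Bl : Blocks L) {y : Fin N → ℕ → ℤ}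
  (hy : Adm Bl y)

include hy

/-- the two orders of holes: value of an earlier block is smaller by more than 600 -/
theorem hole_lt (i j : Fin N) (r s : ℕ) (hi : Has n L.i0 i r) (hj : Has n L.i0 j s)
    (h : r < s ∨ (r = s ∧ i < j)) : y i r + 601 ≤ y j s := by
  have h1 := Bl.gap i r j s hi hj h
  have h2 := hy i r hi
  have h3 := hy j s hj
  have h4 := h2.2.1
  have h5 := h3.1
  omega

/-- different holes are far from each other -/
theorem hole_ne (i j : Fin N) (r s : ℕ) (hi : Has n L.i0 i r) (hj : Has n L.i0 j s)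
    (h : ¬ (i = j ∧ r = s)) : 601 ≤ |y i r - y j s| := by
  have key : (r < s ∨ (r = s ∧ i < j)) ∨ (s < r ∨ (s = r ∧ j < i)) := by
    rcases lt_trichotomy r s with h1 | h1 | h1
    · exact Or.inl (Or.inl h1)
    · rcases lt_trichotomy i j with h2 | h2 | h2
      · exact Or.inl (Or.inr ⟨h1, h2⟩)
      · exact absurd ⟨h2, h1⟩ h
      · exact Or.inr (Or.inr ⟨h1.symm, h2⟩)
    · exact Or.inr (Or.inl h1)
  rcases key with h1 | h1
  · have h2 := hole_lt Bl hy i j r s hi hj h1
    rw [abs_sub_comm]
    exact le_trans (by linarith) (le_abs_self _)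
  · have h2 := hole_lt Bl hy j i s r hj hi h1
    exact le_trans (by linarith) (le_abs_self _)

theorem hole_two (i : Fin N) (r : ℕ) (hi : Has n L.i0 i r) : 2 ≤ y i r := by
  have h1 := Bl.two i r hi
  have h2 := (hy i r hi).1
  linarith

/-- a hole is in the interior of a second tile -/
theorem hole_tile (i : Fin N) (r : ℕ) (hi : Has n L.i0 i r) :
    ∃ j, 10 ≤ n j ∧ L.q j + 2 ≤ y i r ∧ y i r + 3 ≤ L.q j + L.b j := by
  obtain ⟨j, h1, h2, h3⟩ := Bl.tile i r hi
  have h4 := (hy i r hi).1
  have h5 := (hy i r hi).2.1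
  exact ⟨j, h1, by linarith, by omega⟩

/-- a hole is no end of a tile and not one of the extra labels -/
theorem hole_ne_ends (i : Fin N) (r : ℕ) (hi : Has n L.i0 i r) (j : Fin N) (hj : 10 ≤ n j) :
    y i r ≠ L.p j ∧ y i r ≠ L.p j + L.a j - 1 ∧ y i r ≠ L.q j ∧ y i r ≠ L.q j + L.b j - 1 ∧
      (o1 k = 1 → y i r ≠ k + 1) ∧ (o2 k (∑ i, n i) = 1 → y i r ≠ k + (∑ i, n i : ℕ)) := by
  obtain ⟨l, _, h2, h3⟩ := hole_tile Bl hy i r hi
  have h4 := p_q L j l
  have h5 : (0 : ℤ) ≤ L.a j := by positivity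
  have h6 : (2 : ℤ) ≤ L.b j := by exact_mod_cast L.twob j hj
  have h7 := p_ge L l
  have h8 := p_q L l l
  have h9 := q_le L l
  have h10 : (0 : ℤ) ≤ L.a l := by positivity
  have h11 : (0 : ℤ) ≤ L.b l := by positivity
  have h12 : (0 : ℤ) ≤ o1 k := by positivity
  have h13 : (0 : ℤ) ≤ o2 k (∑ i, n i) := by positivity
  have h14 : (l < j → L.q l + L.b l ≤ L.q j) := q_lt L l j
  have h15 : (j < l → L.q j + L.b j ≤ L.q l) := q_lt L j l
  have h16 : l = j → L.q l = L.q j ∧ L.b l = L.b j := fun h => by rw [h]; exact ⟨rfl, rfl⟩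
  refine ⟨by omega, by omega, ?_, ?_, fun _ => by omega, fun _ => by omega⟩
  · rcases lt_trichotomy l j with h | h | h
    · have := h14 h
      omega
    · have := h16 h
      omega
    · have := h15 h
      omega
  · rcases lt_trichotomy l j with h | h | h
    · have := h14 h
      omega
    · have := h16 h
      omega
    · have := h15 h
      omega

end holes

end Pool.SpA
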