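import Pool.Agent.SpA.OfLists

/-!
# SpA/TileList

The list of the numbers of a tile `[q, q+b)` which are not holes, in increasing order; the
holes `Hs` are isolated and in the interior.  Also the full tile in decreasing order.

`tl Hs q b` is defined by recursion from the left end.
-/

namespace Pool.SpA

open Finset

/-- the numbers of `[q, q+b)` which are not in `Hs`, increasing -/
def tl (Hs : Finset ℤ) (q : ℤ) : ℕ → List ℤ
  | 0 => []
  | b + 1 => if q ∈ Hs then tl Hs (q + 1) b else q :: tl Hs (q + 1) b

theorem tl_mem (Hs : Finset ℤ) (b : ℕ) : ∀ (q x : ℤ),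
    x ∈ tl Hs q b ↔ q ≤ x ∧ x < q + b ∧ x ∉ Hs := by
  induction b with
  | zero =>
    intro q x
    simp only [tl, List.not_mem_nil, Nat.cast_zero, add_zero, false_iff, not_and]
    intro h1 h2
    omega
  | succ b ih =>
    intro q x
    unfold tl
    push_cast
    split_ifs with h
    · rw [ih]
      constructor
      · rintro ⟨h1, h2, h3⟩
        exact ⟨by omega, by omega, h3⟩
      · rintro ⟨h1, h2, h3⟩
        have : x ≠ q := by rintro rfl; exact h3 h
        exact ⟨by omega, by omega, h3⟩
    · rw [List.mem_cons, ih]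
      constructor
      · rintro (rfl | ⟨h1, h2, h3⟩)
        · exact ⟨le_rfl, by omega, h⟩
        · exact ⟨by omega, by omega, h3⟩
      · rintro ⟨h1, h2, h3⟩
        by_cases hx : x = q
        · left; exact hx
        · right; exact ⟨by omega, by omega, h3⟩

theorem tl_nodup (Hs : Finset ℤ) (b : ℕ) : ∀ q : ℤ, (tl Hs q b).Nodup := by
  induction b with
  | zero => intro q; exact List.nodup_nil
  | succ b ih =>
    intro q
    unfold tl
    split_ifs with h
    · exact ih _
    · rw [List.nodup_cons]
      refine ⟨fun hm => ?_, ih _⟩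
      have := ((tl_mem Hs b _ _).1 hm).1
      omega

theorem tl_length (Hs : Finset ℤ) (b : ℕ) : ∀ q : ℤ,
    (tl Hs q b).length + (Hs.filter fun x => q ≤ x ∧ x < q + b).card = b := by
  induction b with
  | zero =>
    intro q
    have : (Hs.filter fun x => q ≤ x ∧ x < q + ((0 : ℕ) : ℤ)) = ∅ := by
      apply Finset.filter_eq_empty_iff.2
      intro x _ hx
      simp at hx
      omega
    rw [this]
    rfl
  | succ b ih =>
    intro q
    have h1 := ih (q + 1)
    unfold tl
    split_ifs with h
    · have e : (Hs.filter fun x => q ≤ x ∧ x < q + ((b + 1 : ℕ) : ℤ)) =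
          insert q (Hs.filter fun x => q + 1 ≤ x ∧ x < q + 1 + (b : ℤ)) := by
        ext x
        simp only [Finset.mem_filter, Finset.mem_insert]
        push_cast
        constructor
        · rintro ⟨h2, h3, h4⟩
          by_cases hx : x = q
          · left; exact hx
          · right; exact ⟨h2, by omega, by omega⟩
        · rintro (rfl | ⟨h2, h3, h4⟩)
          · exact ⟨h, le_rfl, by omega⟩
          · exact ⟨h2, by omega, by omega⟩
      rw [e, Finset.card_insert_of_notMem (by
        intro hm
        have := (Finset.mem_filter.1 hm).2.1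
        omega)]
      omega
    · have e : (Hs.filter fun x => q ≤ x ∧ x < q + ((b + 1 : ℕ) : ℤ)) =
          (Hs.filter fun x => q + 1 ≤ x ∧ x < q + 1 + (b : ℤ)) := by
        ext x
        simp only [Finset.mem_filter]
        push_cast
        constructor
        · rintro ⟨h2, h3, h4⟩
          have : x ≠ q := by rintro rfl; exact h h2
          exact ⟨h2, by omega, by omega⟩
        · rintro ⟨h2, h3, h4⟩
          exact ⟨h2, by omega, by omega⟩
      rw [e, List.length_cons]
      omega

theorem tl_head (Hs : Finset ℤ) (hiso : ∀ x ∈ Hs, x + 1 ∉ Hs) (b : ℕ) (q y : ℤ)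
    (hy : y ∈ (tl Hs q b).head?) : (q ∉ Hs ∧ y = q) ∨ (q ∈ Hs ∧ y = q + 1) := by
  cases b with
  | zero => simp [tl] at hy
  | succ b =>
    unfold tl at hy
    split_ifs at hy with h
    · right
      refine ⟨h, ?_⟩
      cases b with
      | zero => simp [tl] at hy
      | succ b =>
        unfold tl at hy
        rw [if_neg (hiso q h)] at hy
        simp at hy
        exact hy.symm
    · left
      simp at hy
      exact ⟨h, hy.symm⟩

theorem tl_chain (Hs : Finset ℤ) (hiso : ∀ x ∈ Hs, x + 1 ∉ Hs) (b : ℕ) : ∀ q : ℤ,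
    (tl Hs q b).IsChain (fun x y => y = x + 1 ∨ (x + 1 ∈ Hs ∧ y = x + 2)) := by
  induction b with
  | zero => intro q; exact List.IsChain.nil
  | succ b ih =>
    intro q
    unfold tl
    split_ifs with h
    · exact ih _
    · rw [List.isChain_cons]
      refine ⟨fun y hy => ?_, ih _⟩
      rcases tl_head Hs hiso b (q + 1) y hy with ⟨_, h2⟩ | ⟨h1, h2⟩
      · left; exact h2
      · right; exact ⟨h1, by omega⟩

theorem tl_last (Hs : Finset ℤ) (b : ℕ) : ∀ q : ℤ, q + b ∉ Hs →
    (tl Hs q (b + 1)).getLast? = some (q + b) := by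
  induction b with
  | zero =>
    intro q h
    simp only [Nat.cast_zero, add_zero] at h ⊢
    simp [tl, h]
  | succ b ih =>
    intro q h
    have h1 := ih (q + 1) (by push_cast at h ⊢; rwa [add_assoc, add_comm (1 : ℤ)])
    have e : q + ((b + 1 : ℕ) : ℤ) = q + 1 + (b : ℤ) := by push_cast; ring
    rw [e]
    rw [tl]
    split_ifs with h2
    · exact h1
    · rw [List.getLast?_cons, h1]
      rfl

theorem tile_list (q : ℤ) (b : ℕ) (Hs : Finset ℤ) (hb : 2 ≤ b)
    (hin : ∀ x ∈ Hs, q + 1 ≤ x ∧ x + 2 ≤ q + b) (hiso : ∀ x ∈ Hs, x + 1 ∉ Hs) :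
    ∃ B : List ℤ, B.length + Hs.card = b ∧ B.Nodup ∧ (∀ x, x ∈ B ↔ q ≤ x ∧ x < q + b ∧ x ∉ Hs) ∧
      B.head? = some q ∧ B.getLast? = some (q + b - 1) ∧
      B.IsChain (fun x y => y = x + 1 ∨ (x + 1 ∈ Hs ∧ y = x + 2)) := by
  refine ⟨tl Hs q b, ?_, tl_nodup Hs b q, tl_mem Hs b q, ?_, ?_, tl_chain Hs hiso b q⟩
  · have h := tl_length Hs b q
    rwa [Finset.filter_true_of_mem (fun x hx => ⟨by have := hin x hx; omega,
      by have := hin x hx; omega⟩)] at h
  · obtain ⟨b', rfl⟩ : ∃ b', b = b' + 1 := ⟨b - 1, by omega⟩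
    have h : q ∉ Hs := fun h => by have := hin q h; omega
    rw [tl, if_neg h]
    rfl
  · obtain ⟨b', rfl⟩ : ∃ b', b = b' + 1 := ⟨b - 1, by omega⟩
    have h : q + b' ∉ Hs := fun h => by have := hin _ h; push_cast at this; omega
    rw [tl_last Hs b' q h]
    congr 1
    push_cast
    ring

/-- `p + a - 1, ..., p` -/
def dl (p : ℤ) : ℕ → List ℤ
  | 0 => []
  | a + 1 => (p + a) :: dl p a

theorem dl_mem (p : ℤ) (a : ℕ) (x : ℤ) : x ∈ dl p a ↔ p ≤ x ∧ x < p + a := by
  induction a with
  | zero =>
    simp only [dl, List.not_mem_nil, Nat.cast_zero, add_zero, false_iff, not_and]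
    intro h
    omega
  | succ a ih =>
    rw [dl, List.mem_cons, ih]
    push_cast
    omega

theorem down_list (p : ℤ) (a : ℕ) (ha : 1 ≤ a) :
    ∃ D : List ℤ, D.length = a ∧ D.Nodup ∧ (∀ x, x ∈ D ↔ p ≤ x ∧ x < p + a) ∧
      D.head? = some (p + a - 1) ∧ D.getLast? = some p ∧ D.IsChain (fun x y => x = y + 1) := by
  refine ⟨dl p a, ?_, ?_, dl_mem p a, ?_, ?_, ?_⟩
  · clear ha
    induction a with
    | zero => rfl
    | succ a ih => rw [dl, List.length_cons, ih]
  · clear ha
    induction a with
    | zero => exact List.nodup_nil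
    | succ a ih =>
      rw [dl, List.nodup_cons]
      refine ⟨fun h => ?_, ih⟩
      have := ((dl_mem p a _).1 h).2
      omega
  · obtain ⟨a', rfl⟩ : ∃ a', a = a' + 1 := ⟨a - 1, by omega⟩
    rw [dl, List.head?_cons]
    congr 1
    push_cast
    ring
  · induction a with
    | zero => omega
    | succ a ih =>
      cases a with
      | zero => simp [dl]
      | succ a =>
        rw [dl, List.getLast?_cons, ih (by omega)]
        rfl
  · clear ha
    induction a with
    | zero => exact List.IsChain.nil
    | succ a ih =>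
      rw [dl, List.isChain_cons]
      refine ⟨fun y hy => ?_, ih⟩
      cases a with
      | zero => simp [dl] at hy
      | succ a =>
        rw [dl, List.head?_cons, Option.mem_some_iff] at hy
        push_cast
        omega

end Pool.SpA
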