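import Pool.Agent.SpA.Pairs
import Pool.Agent.SpA.TileList
import Pool.Agent.SpA.Facts

/-!
# SpA/ListsEx

The lists of labels of the legs (from the root outwards; note 3500, section 1).
-/

namespace Pool.SpA

open Finset

namespace LX

variable {N : ℕ} {n : Fin N → ℕ} {k : ℤ}

theorem has_lt {i0 i : Fin N} {r : ℕ} (h : Has n i0 i r) : r < 14 := by
  unfold Has at h
  split_ifs at h <;> omega

/-- the labels of the leg `i` -/
def Owned (L : Layout n k) (y : Fin N → ℕ → ℤ) (i : Fin N) (x : ℤ) : Prop :=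
  (∃ r, Has n L.i0 i r ∧ x = y i r) ∨ (L.p i ≤ x ∧ x < L.p i + L.a i) ∨
  (L.q i ≤ x ∧ x < L.q i + L.b i ∧ ∀ j r, Has n L.i0 j r → y j r ≠ x) ∨
  (i = L.i0 ∧ o1 k = 1 ∧ x = k + 1) ∨
  (i = L.i0 ∧ o2 k (∑ i, n i) = 1 ∧ x = k + (∑ i, n i : ℕ))

variable {L : Layout n k}

theorem ten_le_sum (L : Layout n k) : 10 ≤ ∑ i, n i :=
  le_trans L.long (Finset.single_le_sum (f := n) (fun _ _ => Nat.zero_le _) (mem_univ L.i0))

variable (Bl : Blocks L) {y : Fin N → ℕ → ℤ} (hy : Adm Bl y)

include hy

theorem hole_lo (i j : Fin N) (r : ℕ) (h : Has n L.i0 i r) : L.p j + L.a j + 2 ≤ y i r := by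
  obtain ⟨t, _, h1, _⟩ := hole_tile Bl hy i r h
  have := p_q L j t
  omega

theorem hole_hi (i : Fin N) (r : ℕ) (h : Has n L.i0 i r) :
    y i r + 3 ≤ k + 1 + (∑ i, n i : ℕ) - o2 k (∑ i, n i) := by
  obtain ⟨t, _, _, h2⟩ := hole_tile Bl hy i r h
  have := q_le L t
  omega

theorem owned_bounds (i : Fin N) (x : ℤ) (h : Owned L y i x) :
    k < x ∧ x ≤ k + (∑ i, n i : ℕ) := by
  have hm := ten_le_sum L
  have p0 := p_ge L i
  have q0 := q_le L i
  have pq := p_q L i i
  rcases h with ⟨r, hr, rfl⟩ | ⟨h1, h2⟩ | ⟨h1, h2, _⟩ | ⟨_, h1, rfl⟩ | ⟨_, h1, rfl⟩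
  · have h3 := hole_lo Bl hy i i r hr
    have h4 := hole_hi Bl hy i r hr
    omega
  all_goals omega

theorem owned_inj (i j : Fin N) (x : ℤ) (h : Owned L y i x) (h' : Owned L y j x) : i = j := by
  by_contra hne
  have hm := ten_le_sum L
  have p0 := p_ge L i
  have p1 := p_ge L j
  have q0 := q_le L i
  have q1 := q_le L j
  have pq := p_q L i i
  have pq1 := p_q L i j
  have pq2 := p_q L j i
  have pq3 := p_q L j j
  have hh : ∀ i' r, Has n L.i0 i' r → L.p i + L.a i + 2 ≤ y i' r ∧ L.p j + L.a j + 2 ≤ y i' r ∧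
      y i' r + 3 ≤ k + 1 + (∑ i, n i : ℕ) - o2 k (∑ i, n i) := fun i' r hr =>
    ⟨hole_lo Bl hy i' i r hr, hole_lo Bl hy i' j r hr, hole_hi Bl hy i' r hr⟩
  rcases h with ⟨r, hr, hx⟩ | ⟨h1, h2⟩ | ⟨h1, h2, h3⟩ | ⟨e, h1, hx⟩ | ⟨e, h1, hx⟩ <;>
  rcases h' with ⟨s, hs, hx'⟩ | ⟨h1', h2'⟩ | ⟨h1', h2', h3'⟩ | ⟨e', h1', hx'⟩ | ⟨e', h1', hx'⟩
  · have := hole_ne Bl hy i j r s hr hs (fun h => hne h.1)
    rw [← hx, ← hx', sub_self, abs_zero] at this
    omega
  · have := hh i r hr; omega
  · exact h3' i r hr hx.symm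
  · have := hh i r hr; omega
  · have := hh i r hr; omega
  · have := hh j s hs; omega
  · exact hne (p_unique L i j x h1 h2 h1' h2')
  · omega
  · omega
  · omega
  · exact h3 j s hs hx'.symm
  · omega
  · exact hne (q_unique L i j x h1 h2 h1' h2')
  · omega
  · omega
  · have := hh j s hs; omega
  · omega
  · omega
  · exact hne (e.trans e'.symm)
  · exact hne (e.trans e'.symm)
  · have := hh j s hs; omega
  · omega
  · omega
  · exact hne (e.trans e'.symm)
  · exact hne (e.trans e'.symm)

/-- the block of a hole whose value lies in a second tile starts in that tile -/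
theorem block_in (i j : Fin N) (r : ℕ) (h : Has n L.i0 j r) (h1 : L.q i ≤ y j r)
    (h2 : y j r < L.q i + L.b i) : L.q i + 2 ≤ Bl.B j r ∧ Bl.B j r + 602 ≤ L.q i + L.b i := by
  obtain ⟨t, _, h3, h4⟩ := Bl.tile j r h
  obtain ⟨h5, h6, _⟩ := hy j r h
  have : t = i := q_unique L t i (y j r) (by omega) (by omega) h1 h2
  subst this
  exact ⟨h3, h4⟩

theorem exists_B (i : Fin N) (hi : 10 ≤ n i) : ∃ B : List ℤ, B.length + L.h i = L.b i ∧ B.Nodup ∧
    (∀ x, x ∈ B ↔ L.q i ≤ x ∧ x < L.q i + L.b i ∧ ∀ j r, Has n L.i0 j r → y j r ≠ x) ∧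
    B.head? = some (L.q i) ∧ B.getLast? = some (L.q i + L.b i - 1) ∧
    B.IsChain (Link (Sp L y)) := by
  set T := (univ ×ˢ range 14).filter (fun x : Fin N × ℕ => Has n L.i0 x.1 x.2 ∧
    L.q i ≤ Bl.B x.1 x.2 ∧ Bl.B x.1 x.2 < L.q i + L.b i) with hT
  have hTm : ∀ x : Fin N × ℕ, x ∈ T ↔ Has n L.i0 x.1 x.2 ∧
      L.q i ≤ Bl.B x.1 x.2 ∧ Bl.B x.1 x.2 < L.q i + L.b i := by
    intro x
    simp only [hT, mem_filter, mem_product, mem_univ, true_and, mem_range, and_iff_right_iff_imp]
    exact fun h => has_lt h.1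
  set Hs := T.image (fun x => y x.1 x.2) with hHs
  have hmem : ∀ x, x ∈ Hs ↔ ∃ j r, Has n L.i0 j r ∧ L.q i ≤ Bl.B j r ∧
      Bl.B j r < L.q i + L.b i ∧ y j r = x := by
    intro x
    rw [hHs, mem_image]
    constructor
    · rintro ⟨z, hz, rfl⟩
      obtain ⟨h1, h2, h3⟩ := (hTm z).1 hz
      exact ⟨z.1, z.2, h1, h2, h3, rfl⟩
    · rintro ⟨j, r, h1, h2, h3, rfl⟩
      exact ⟨(j, r), (hTm _).2 ⟨h1, h2, h3⟩, rfl⟩
  have hcard : Hs.card = L.h i := by
    rw [hHs, card_image_of_injOn]
    · exact Bl.count i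
    · intro x hx x' hx' hxx
      have h1 := ((hTm x).1 (mem_coe.1 hx)).1
      have h2 := ((hTm x').1 (mem_coe.1 hx')).1
      by_contra hne
      have h3 := hole_ne Bl hy x.1 x'.1 x.2 x'.2 h1 h2 (fun h => hne (Prod.ext h.1 h.2))
      simp only at hxx
      rw [hxx, sub_self, abs_zero] at h3
      omega
  have hval : ∀ x ∈ Hs, L.q i + 2 ≤ x ∧ x + 3 ≤ L.q i + L.b i := by
    intro x hx
    obtain ⟨j, r, h1, h2, h3, rfl⟩ := (hmem x).1 hx
    obtain ⟨t, _, h4, h5⟩ := Bl.tile j r h1
    obtain ⟨h6, h7, _⟩ := hy j r h1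
    have : t = i := q_unique L t i (Bl.B j r) (by omega) (by omega) h2 h3
    subst this
    omega
  have hall : ∀ j r, Has n L.i0 j r → L.q i ≤ y j r → y j r < L.q i + L.b i → y j r ∈ Hs := by
    intro j r h1 h2 h3
    obtain ⟨h4, h5⟩ := block_in Bl hy i j r h1 h2 h3
    exact (hmem _).2 ⟨j, r, h1, by omega, by omega, rfl⟩
  obtain ⟨B, b1, b2, b3, b4, b5, b6⟩ := tile_list (L.q i) (L.b i) Hs (L.twob i hi)
    (fun x hx => by have := hval x hx; omega)
    (fun x hx hx' => by
      obtain ⟨j, r, h1, _, _, h2⟩ := (hmem x).1 hx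
      obtain ⟨j', r', h1', _, _, h2'⟩ := (hmem (x + 1)).1 hx'
      by_cases e : j = j' ∧ r = r'
      · obtain ⟨rfl, rfl⟩ := e
        omega
      · have h3 := hole_ne Bl hy j j' r r' h1 h1' e
        rw [h2, h2', show x - (x + 1) = -1 by ring] at h3
        norm_num at h3)
  refine ⟨B, by rw [← hcard]; exact b1, b2, fun x => ?_, b4, b5, ?_⟩
  · rw [b3]
    refine and_congr_right fun h1 => and_congr_right fun h2 => ⟨fun h3 j r hj he => ?_,
      fun h3 h4 => ?_⟩
    · subst he
      exact h3 (hall j r hj h1 h2)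
    · obtain ⟨j, r, h5, _, _, h6⟩ := (hmem x).1 h4
      exact h3 j r h5 h6
  · refine b6.imp ?_
    rintro a b (rfl | ⟨h1, rfl⟩)
    · exact Or.inl rfl
    · obtain ⟨j, r, h5, _, _, h6⟩ := (hmem _).1 h1
      have h7 := Sp0.hole (L := L) (y := y) j r h5
      rw [h6] at h7
      refine Or.inr (Or.inr (Or.inl ?_))
      convert h7 using 1 <;> ring

theorem assemble (i : Fin N) (hi : 10 ≤ n i) (U X : List ℤ) (u1 u2 x1 : ℤ)
    (hUh : U.head? = some u1) (hUl : U.getLast? = some u2) (hXh : X.head? = some x1)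
    (hXl : X.getLast? = some (y i 9))
    (cU : U.IsChain (Link (Sp L y))) (cX : X.IsChain (Link (Sp L y)))
    (l1 : Sp L y (L.q i + L.b i - 1) u1) (l2 : Sp L y u2 (L.p i + L.a i - 1))
    (l3 : Sp L y (L.p i) x1)
    (nd : ([y i 0, y i 1] ++ U ++ X).Nodup)
    (own : ∀ x ∈ U ++ X, (∃ r, Has n L.i0 i r ∧ x = y i r) ∨ (i = L.i0 ∧ o1 k = 1 ∧ x = k + 1) ∨
      (i = L.i0 ∧ o2 k (∑ i, n i) = 1 ∧ x = k + (∑ i, n i : ℕ)))
    (len : n i + L.h i = L.a i + L.b i + 2 + U.length + X.length) :
    ∃ l : List ℤ, l.length = n i ∧ (∀ x ∈ l, Owned L y i x) ∧ l.Nodup ∧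
      l.IsChain (Link (Sp L y)) ∧ l.head? = some (y i 0) ∧ l.getLast? = some (leafv n y i) := by
  obtain ⟨B, b1, b2, b3, b4, b5, b6⟩ := exists_B Bl hy i hi
  obtain ⟨D, d1, d2, d3, d4, d5, d6⟩ := down_list (L.p i) (L.a i) (by have := L.twoa i hi; omega)
  have has0 : Has n L.i0 i 0 := by
    unfold Has; rw [if_neg (by omega)]; exact Or.inl rfl
  have has1 : Has n L.i0 i 1 := by
    unfold Has; rw [if_neg (by omega)]; exact Or.inr (Or.inl rfl)
  have own' : ∀ x ∈ [y i 0, y i 1] ++ U ++ X, (∃ r, Has n L.i0 i r ∧ x = y i r) ∨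
      (i = L.i0 ∧ o1 k = 1 ∧ x = k + 1) ∨
      (i = L.i0 ∧ o2 k (∑ i, n i) = 1 ∧ x = k + (∑ i, n i : ℕ)) := by
    intro x hx
    rw [List.append_assoc, List.mem_append] at hx
    rcases hx with hx | hx
    · simp only [List.mem_cons, List.not_mem_nil, or_false] at hx
      rcases hx with rfl | rfl
      · exact Or.inl ⟨0, has0, rfl⟩
      · exact Or.inl ⟨1, has1, rfl⟩
    · exact own x hx
  have hm := ten_le_sum L
  have p0 := p_ge L i
  have q0 := q_le L i
  have pq := p_q L i i
  have hWD : ∀ x ∈ [y i 0, y i 1] ++ U ++ X, x ∉ D := by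
    intro x hx hD
    rw [d3] at hD
    rcases own' x hx with ⟨r, hr, rfl⟩ | ⟨_, h1, rfl⟩ | ⟨_, h1, rfl⟩
    · have := hole_lo Bl hy i i r hr
      omega
    · omega
    · omega
  have hWB : ∀ x ∈ [y i 0, y i 1] ++ U ++ X, x ∉ B := by
    intro x hx hB
    rw [b3] at hB
    rcases own' x hx with ⟨r, hr, rfl⟩ | ⟨_, h1, rfl⟩ | ⟨_, h1, rfl⟩
    · exact hB.2.2 i r hr rfl
    · omega
    · omega
  have hBD : ∀ x ∈ B, x ∉ D := by
    intro x hB hD
    rw [b3] at hB
    rw [d3] at hD
    omega
  have hUne : U ≠ [] := by rintro rfl; simp at hUh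
  have hXne : X ≠ [] := by rintro rfl; simp at hXh
  have hBne : B ≠ [] := by rintro rfl; simp at b4
  have hDne : D ≠ [] := by rintro rfl; simp at d4
  refine ⟨[y i 0, y i 1] ++ (B ++ (U ++ (D ++ X))), ?_, ?_, ?_, ?_, ?_, ?_⟩
  · simp only [List.length_append, List.length_cons, List.length_nil]
    omega
  · intro x hx
    have hx' : x ∈ [y i 0, y i 1] ++ U ++ X ∨ x ∈ B ∨ x ∈ D := by
      simp only [List.mem_append] at hx ⊢
      tauto
    rcases hx' with hx' | hx' | hx'
    · rcases own' x hx' with h | h | h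
      · exact Or.inl h
      · exact Or.inr (Or.inr (Or.inr (Or.inl h)))
      · exact Or.inr (Or.inr (Or.inr (Or.inr h)))
    · exact Or.inr (Or.inr (Or.inl ((b3 x).1 hx')))
    · exact Or.inr (Or.inl ((d3 x).1 hx'))
  · have hp : ([y i 0, y i 1] ++ (B ++ (U ++ (D ++ X)))).Perm
        (([y i 0, y i 1] ++ U ++ X) ++ (B ++ D)) := by
      rw [← Multiset.coe_eq_coe]
      simp only [← Multiset.coe_add]
      abel
    rw [hp.nodup_iff]
    refine List.nodup_append'.2 ⟨nd, List.nodup_append'.2 ⟨b2, d2, ?_⟩, ?_⟩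
    · exact fun x h1 h2 => hBD x h1 h2
    · intro x h1 h2
      rcases List.mem_append.1 h2 with h2 | h2
      · exact hWB x h1 h2
      · exact hWD x h1 h2
  · refine List.IsChain.append ?_ (List.IsChain.append b6 (List.IsChain.append cU
      (List.IsChain.append ?_ cX ?_) ?_) ?_) ?_
    · rw [List.isChain_cons_cons]
      exact ⟨Or.inr (Or.inr (Or.inl (Sp0.zz i 0 (by omega) has0 has1))), List.isChain_singleton _⟩
    · exact d6.imp fun a b h => Or.inr (Or.inl h)
    · intro a ha b hb
      rw [d5] at ha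
      rw [hXh] at hb
      simp only [Option.mem_def, Option.some.injEq] at ha hb
      subst ha hb
      exact Or.inr (Or.inr l3)
    · intro a ha b hb
      rw [hUl] at ha
      rw [List.head?_append_of_ne_nil _ hDne, d4] at hb
      simp only [Option.mem_def, Option.some.injEq] at ha hb
      subst ha hb
      exact Or.inr (Or.inr l2)
    · intro a ha b hb
      rw [b5] at ha
      rw [List.head?_append_of_ne_nil _ hUne, hUh] at hb
      simp only [Option.mem_def, Option.some.injEq] at ha hb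
      subst ha hb
      exact Or.inr (Or.inr l1)
    · intro a ha b hb
      rw [List.head?_append_of_ne_nil _ hBne, b4] at hb
      simp only [List.getLast?_cons_cons, List.getLast?_singleton, Option.mem_def,
        Option.some.injEq] at ha hb
      subst ha hb
      exact Or.inr (Or.inr (Or.inl (Sp0.zlo i hi)))
  · simp
  · rw [List.getLast?_append_of_ne_nil _ (by simp [hBne]),
      List.getLast?_append_of_ne_nil _ (by simp [hUne]),
      List.getLast?_append_of_ne_nil _ (by simp [hDne]),
      List.getLast?_append_of_ne_nil _ hXne, hXl]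
    unfold leafv
    rw [if_neg (by omega)]

theorem short_list (i : Fin N) (h1 : 1 ≤ n i) (hi : n i ≤ 9) :
    ∃ l : List ℤ, l.length = n i ∧ (∀ x ∈ l, Owned L y i x) ∧ l.Nodup ∧
      l.IsChain (Link (Sp L y)) ∧ l.head? = some (y i 0) ∧ l.getLast? = some (leafv n y i) := by
  have has : ∀ r, r < n i → Has n L.i0 i r := fun r hr => by
    unfold Has; rw [if_pos hi]; exact hr
  refine ⟨(List.range (n i)).map (y i), by simp, ?_, ?_, ?_, ?_, ?_⟩
  · intro x hx
    simp only [List.mem_map, List.mem_range] at hx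
    obtain ⟨r, hr, rfl⟩ := hx
    exact Or.inl ⟨r, has r hr, rfl⟩
  · refine List.Nodup.map_on ?_ List.nodup_range
    intro r hr s hs he
    rw [List.mem_range] at hr hs
    by_contra hne
    have := hole_ne Bl hy i i r s (has r hr) (has s hs) (fun h => hne h.2)
    rw [he, sub_self, abs_zero] at this
    omega
  · rw [List.isChain_iff_getElem]
    intro r hr
    simp only [List.length_map, List.length_range] at hr
    simp only [List.getElem_map, List.getElem_range]
    exact Or.inr (Or.inr (Or.inl (Sp0.zz i r (by omega) (has r (by omega)) (has (r + 1) hr))))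
  · rw [List.head?_map, List.head?_range, if_neg (by omega)]
    rfl
  · rw [List.getLast?_map, List.getLast?_range, if_neg (by omega)]
    unfold leafv
    rw [if_pos hi]
    rfl

theorem long_list (i : Fin N) (hi : 10 ≤ n i) :
    ∃ l : List ℤ, l.length = n i ∧ (∀ x ∈ l, Owned L y i x) ∧ l.Nodup ∧
      l.IsChain (Link (Sp L y)) ∧ l.head? = some (y i 0) ∧ l.getLast? = some (leafv n y i) := by
  have hn9 : ¬ n i ≤ 9 := by omega
  have has0 : Has n L.i0 i 0 := by
    unfold Has; rw [if_neg hn9]; tauto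
  have has1 : Has n L.i0 i 1 := by
    unfold Has; rw [if_neg hn9]; tauto
  have has9 : Has n L.i0 i 9 := by
    unfold Has; rw [if_neg hn9]; tauto
  have has10 : Has n L.i0 i 10 := by
    unfold Has; rw [if_neg hn9]; tauto
  have has12 : Has n L.i0 i 12 := by
    unfold Has; rw [if_neg hn9]; tauto
  have e1 := hole_lt Bl hy i i 0 1 has0 has1 (by omega)
  have e2 := hole_lt Bl hy i i 1 9 has1 has9 (by omega)
  have e3 := hole_lt Bl hy i i 9 10 has9 has10 (by omega)
  have e4 := hole_lt Bl hy i i 10 12 has10 has12 (by omega)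
  have hm := ten_le_sum L
  have p0 := p_ge L i
  have lo := hole_lo Bl hy i i 0 has0
  by_cases hi0 : i = L.i0
  · have has13 : Has n L.i0 i 13 := by
      unfold Has; rw [if_neg hn9]; tauto
    have e5 := hole_lt Bl hy i i 12 13 has12 has13 (by omega)
    have hi13 := hole_hi Bl hy i 13 has13
    have len := L.len0
    have ho1 : o1 k = 0 ∨ o1 k = 1 := by unfold o1; split_ifs <;> simp
    have ho2 : o2 k (∑ i, n i) = 0 ∨ o2 k (∑ i, n i) = 1 := by unfold o2; split_ifs <;> simp
    have s1 : Sp L y (L.q i + L.b i - 1) (y i 13) := by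
      subst hi0; exact Or.inl Sp0.hiu0
    have s2 : Sp L y (y i 12) (L.p i + L.a i - 1) := Or.inl (Sp0.uhi i hi)
    have s3 : Sp L y (L.p i) (y i 10) := Or.inl (Sp0.lox2 i hi (Or.inl hi0))
    rcases ho1 with ho1 | ho1 <;> rcases ho2 with ho2 | ho2
    · refine assemble Bl hy i hi [y i 13, y i 12] [y i 10, y i 9] (y i 13) (y i 12) (y i 10)
        (by simp) (by simp) (by simp) (by simp) ?_ ?_ s1 s2 s3 ?_ ?_ ?_
      · rw [List.isChain_cons_cons]
        refine ⟨Or.inr (Or.inr (Or.inl ?_)), List.isChain_singleton _⟩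
        subst hi0; exact Sp0.uu ho1
      · rw [List.isChain_cons_cons]
        exact ⟨Or.inr (Or.inr (Or.inl (Sp0.x2x1 i hi (Or.inr ho2)))), List.isChain_singleton _⟩
      · simp only [List.cons_append, List.nil_append, List.nodup_cons, List.mem_cons,
          List.not_mem_nil, or_false, not_false_eq_true, List.nodup_nil, and_true]
        omega
      · intro x hx
        simp only [List.cons_append, List.nil_append, List.mem_cons, List.not_mem_nil,
          or_false] at hx
        rcases hx with rfl | rfl | rfl | rfl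
        · exact Or.inl ⟨13, has13, rfl⟩
        · exact Or.inl ⟨12, has12, rfl⟩
        · exact Or.inl ⟨10, has10, rfl⟩
        · exact Or.inl ⟨9, has9, rfl⟩
      · rw [← hi0] at len
        simp only [List.length_cons, List.length_nil]
        omega
    · refine assemble Bl hy i hi [y i 13, y i 12] [y i 10, k + (∑ i, n i : ℕ), y i 9] (y i 13)
        (y i 12) (y i 10) (by simp) (by simp) (by simp) (by simp) ?_ ?_ s1 s2 s3 ?_ ?_ ?_
      · rw [List.isChain_cons_cons]
        refine ⟨Or.inr (Or.inr (Or.inl ?_)), List.isChain_singleton _⟩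
        subst hi0; exact Sp0.uu ho1
      · rw [List.isChain_cons_cons, List.isChain_cons_cons]
        refine ⟨Or.inr (Or.inr (Or.inl ?_)), Or.inr (Or.inr (Or.inl ?_)),
          List.isChain_singleton _⟩
        · subst hi0; exact Sp0.xo ho2
        · subst hi0; exact Sp0.ox ho2
      · simp only [List.cons_append, List.nil_append, List.nodup_cons, List.mem_cons,
          List.not_mem_nil, or_false, not_false_eq_true, List.nodup_nil, and_true]
        omega
      · intro x hx
        simp only [List.cons_append, List.nil_append, List.mem_cons, List.not_mem_nil,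
          or_false] at hx
        rcases hx with rfl | rfl | rfl | rfl | rfl
        · exact Or.inl ⟨13, has13, rfl⟩
        · exact Or.inl ⟨12, has12, rfl⟩
        · exact Or.inl ⟨10, has10, rfl⟩
        · exact Or.inr (Or.inr ⟨hi0, ho2, rfl⟩)
        · exact Or.inl ⟨9, has9, rfl⟩
      · rw [← hi0] at len
        simp only [List.length_cons, List.length_nil]
        omega
    · refine assemble Bl hy i hi [y i 13, k + 1, y i 12] [y i 10, y i 9] (y i 13) (y i 12)
        (y i 10) (by simp) (by simp) (by simp) (by simp) ?_ ?_ s1 s2 s3 ?_ ?_ ?_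
      · rw [List.isChain_cons_cons, List.isChain_cons_cons]
        refine ⟨Or.inr (Or.inr (Or.inl ?_)), Or.inr (Or.inr (Or.inl ?_)),
          List.isChain_singleton _⟩
        · subst hi0; exact Sp0.uo ho1
        · subst hi0; exact Sp0.ou ho1
      · rw [List.isChain_cons_cons]
        exact ⟨Or.inr (Or.inr (Or.inl (Sp0.x2x1 i hi (Or.inr ho2)))), List.isChain_singleton _⟩
      · simp only [List.cons_append, List.nil_append, List.nodup_cons, List.mem_cons,
          List.not_mem_nil, or_false, not_false_eq_true, List.nodup_nil, and_true]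
        omega
      · intro x hx
        simp only [List.cons_append, List.nil_append, List.mem_cons, List.not_mem_nil,
          or_false] at hx
        rcases hx with rfl | rfl | rfl | rfl | rfl
        · exact Or.inl ⟨13, has13, rfl⟩
        · exact Or.inr (Or.inl ⟨hi0, ho1, rfl⟩)
        · exact Or.inl ⟨12, has12, rfl⟩
        · exact Or.inl ⟨10, has10, rfl⟩
        · exact Or.inl ⟨9, has9, rfl⟩
      · rw [← hi0] at len
        simp only [List.length_cons, List.length_nil]
        omega
    · refine assemble Bl hy i hi [y i 13, k + 1, y i 12] [y i 10, k + (∑ i, n i : ℕ), y i 9]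
        (y i 13) (y i 12) (y i 10) (by simp) (by simp) (by simp) (by simp) ?_ ?_ s1 s2 s3 ?_ ?_ ?_
      · rw [List.isChain_cons_cons, List.isChain_cons_cons]
        refine ⟨Or.inr (Or.inr (Or.inl ?_)), Or.inr (Or.inr (Or.inl ?_)),
          List.isChain_singleton _⟩
        · subst hi0; exact Sp0.uo ho1
        · subst hi0; exact Sp0.ou ho1
      · rw [List.isChain_cons_cons, List.isChain_cons_cons]
        refine ⟨Or.inr (Or.inr (Or.inl ?_)), Or.inr (Or.inr (Or.inl ?_)),
          List.isChain_singleton _⟩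
        · subst hi0; exact Sp0.xo ho2
        · subst hi0; exact Sp0.ox ho2
      · simp only [List.cons_append, List.nil_append, List.nodup_cons, List.mem_cons,
          List.not_mem_nil, or_false, not_false_eq_true, List.nodup_nil, and_true]
        omega
      · intro x hx
        simp only [List.cons_append, List.nil_append, List.mem_cons, List.not_mem_nil,
          or_false] at hx
        rcases hx with rfl | rfl | rfl | rfl | rfl | rfl
        · exact Or.inl ⟨13, has13, rfl⟩
        · exact Or.inr (Or.inl ⟨hi0, ho1, rfl⟩)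
        · exact Or.inl ⟨12, has12, rfl⟩
        · exact Or.inl ⟨10, has10, rfl⟩
        · exact Or.inr (Or.inr ⟨hi0, ho2, rfl⟩)
        · exact Or.inl ⟨9, has9, rfl⟩
      · rw [← hi0] at len
        simp only [List.length_cons, List.length_nil]
        omega
  · have len := L.len i hi hi0
    unfold nh at len
    rw [if_neg hn9, if_neg hi0] at len
    have s1 : Sp L y (L.q i + L.b i - 1) (y i 12) := Or.inl (Sp0.hiu i hi hi0)
    have s2 : Sp L y (y i 12) (L.p i + L.a i - 1) := Or.inl (Sp0.uhi i hi)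
    by_cases he : Even (n i)
    · have has11 : Has n L.i0 i 11 := by
        unfold Has; rw [if_neg hn9]; tauto
      have e5 := hole_lt Bl hy i i 10 11 has10 has11 (by omega)
      have e6 := hole_lt Bl hy i i 11 12 has11 has12 (by omega)
      rw [if_pos he] at len
      refine assemble Bl hy i hi [y i 12] [y i 11, y i 10, y i 9] (y i 12) (y i 12) (y i 11)
        (by simp) (by simp) (by simp) (by simp) (List.isChain_singleton _) ?_ s1 s2
        (Or.inl (Sp0.lox3 i hi hi0 he)) ?_ ?_ ?_
      · rw [List.isChain_cons_cons, List.isChain_cons_cons]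
        exact ⟨Or.inr (Or.inr (Or.inl (Sp0.x3x2 i hi hi0 he))),
          Or.inr (Or.inr (Or.inl (Sp0.x2x1 i hi (Or.inl hi0)))), List.isChain_singleton _⟩
      · simp only [List.cons_append, List.nil_append, List.nodup_cons, List.mem_cons,
          List.not_mem_nil, or_false, not_false_eq_true, List.nodup_nil, and_true]
        omega
      · intro x hx
        simp only [List.cons_append, List.nil_append, List.mem_cons, List.not_mem_nil,
          or_false] at hx
        rcases hx with rfl | rfl | rfl | rfl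
        · exact Or.inl ⟨12, has12, rfl⟩
        · exact Or.inl ⟨11, has11, rfl⟩
        · exact Or.inl ⟨10, has10, rfl⟩
        · exact Or.inl ⟨9, has9, rfl⟩
      · simp only [List.length_cons, List.length_nil]
        omega
    · rw [if_neg he] at len
      refine assemble Bl hy i hi [y i 12] [y i 10, y i 9] (y i 12) (y i 12) (y i 10)
        (by simp) (by simp) (by simp) (by simp) (List.isChain_singleton _) ?_ s1 s2
        (Or.inl (Sp0.lox2 i hi (Or.inr he))) ?_ ?_ ?_
      · rw [List.isChain_cons_cons]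
        exact ⟨Or.inr (Or.inr (Or.inl (Sp0.x2x1 i hi (Or.inl hi0)))), List.isChain_singleton _⟩
      · simp only [List.cons_append, List.nil_append, List.nodup_cons, List.mem_cons,
          List.not_mem_nil, or_false, not_false_eq_true, List.nodup_nil, and_true]
        omega
      · intro x hx
        simp only [List.cons_append, List.nil_append, List.mem_cons, List.not_mem_nil,
          or_false] at hx
        rcases hx with rfl | rfl | rfl
        · exact Or.inl ⟨12, has12, rfl⟩
        · exact Or.inl ⟨10, has10, rfl⟩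
        · exact Or.inl ⟨9, has9, rfl⟩
      · simp only [List.length_cons, List.length_nil]
        omega

end LX

open LX

theorem exists_lists {N : ℕ} {n : Fin N → ℕ} {k : ℤ} (hn : ∀ i, 1 ≤ n i)
    (L : Layout n k) (Bl : Blocks L) (y : Fin N → ℕ → ℤ) (hy : Adm Bl y) :
    ∃ l : Fin N → List ℤ, (∀ i, (l i).length = n i) ∧
      (∀ i, ∀ x ∈ l i, k < x ∧ x ≤ k + (∑ i, n i : ℕ)) ∧
      (∀ i, (l i).Nodup) ∧ (∀ i j x, x ∈ l i → x ∈ l j → i = j) ∧
      (∀ i, (l i).IsChain (Link (Sp L y))) ∧
      (∀ i, (l i).head? = some (y i 0)) ∧ (∀ i, (l i).getLast? = some (leafv n y i)) := by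
  have h : ∀ i, ∃ l : List ℤ, l.length = n i ∧ (∀ x ∈ l, Owned L y i x) ∧ l.Nodup ∧
      l.IsChain (Link (Sp L y)) ∧ l.head? = some (y i 0) ∧ l.getLast? = some (leafv n y i) := by
    intro i
    by_cases hi : n i ≤ 9
    · exact short_list Bl hy i (hn i) hi
    · exact long_list Bl hy i (by omega)
  choose l h1 h2 h3 h4 h5 h6 using h
  exact ⟨l, h1, fun i x hx => owned_bounds Bl hy i x (h2 i x hx), h3,
    fun i j x hi hj => owned_inj Bl hy i j x (h2 i x hi) (h2 j x hj), h4, h5, h6⟩

/-- the sums of special pairs are even -/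
theorem sp_even {N : ℕ} {n : Fin N → ℕ} {k : ℤ} (L : Layout n k) (Bl : Blocks L)
    (y : Fin N → ℕ → ℤ) (hy : Adm Bl y) (a b : ℤ) (h : Sp L y a b) : Even (a + b) := by
  have ev : ∀ i r, Has n L.i0 i r → r ≤ 11 → Even (y i r) := fun i r h1 h2 => by
    have := (hy i r h1).2.2
    rwa [if_neg (by omega)] at this
  have od : ∀ i r, Has n L.i0 i r → 12 ≤ r → Odd (y i r) := fun i r h1 h2 => by
    have := (hy i r h1).2.2
    rwa [if_pos h2] at this
  have hasL : ∀ i, 10 ≤ n i → Has n L.i0 i 0 ∧ Has n L.i0 i 1 ∧ Has n L.i0 i 9 ∧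
      Has n L.i0 i 10 ∧ Has n L.i0 i 12 := fun i hi => by
    unfold Has
    rw [if_neg (by omega), if_neg (by omega), if_neg (by omega), if_neg (by omega),
      if_neg (by omega)]
    tauto
  have has13 : Has n L.i0 L.i0 13 := by
    have := L.long
    unfold Has; rw [if_neg (by omega)]; tauto
  have has11 : ∀ i, 10 ≤ n i → i ≠ L.i0 → Even (n i) → Has n L.i0 i 11 := fun i hi h1 h2 => by
    unfold Has; rw [if_neg (by omega)]; tauto
  have pe := p_even L
  have qe := q_even L
  have ae : ∀ i, Even (L.a i : ℤ) := fun i => (Int.even_coe_nat _).2 (L.evena i)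
  have be : ∀ i, Even (L.b i : ℤ) := fun i => (Int.even_coe_nat _).2 (L.evenb i)
  have ho1 : o1 k = 1 → Odd (k + 1) := fun h => by
    unfold o1 at h
    by_contra hc
    rw [if_neg hc] at h
    omega
  have ho2 : o2 k (∑ i, n i) = 1 → Even (k + (∑ i, n i : ℕ)) := fun h => by
    unfold o2 at h
    by_contra hc
    rw [if_neg hc] at h
    omega
  have key : ∀ a b, Sp0 L y a b → Even (a + b) := by
    intro a b h
    cases h with
    | hole i r h => exact ⟨y i r, by ring⟩
    | zz i r hr h h' => exact (ev i r h (by omega)).add (ev i (r + 1) h' (by omega))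
    | zlo i h => exact (ev i 1 (hasL i h).2.1 (by omega)).add (qe i)
    | hiu i h hi =>
      exact ((((qe i).add (be i)).sub_odd odd_one).add_odd (od i 12 (hasL i h).2.2.2.2 (by omega)))
    | hiu0 =>
      exact ((((qe _).add (be _)).sub_odd odd_one).add_odd (od _ 13 has13 (by omega)))
    | uo h => exact (od _ 13 has13 (by omega)).add_odd (ho1 h)
    | ou h => exact (ho1 h).add_odd (od _ 12 (hasL _ L.long).2.2.2.2 (by omega))
    | uu h => exact (od _ 13 has13 (by omega)).add_odd (od _ 12 (hasL _ L.long).2.2.2.2 (by omega))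
    | uhi i h =>
      exact (od i 12 (hasL i h).2.2.2.2 (by omega)).add_odd
        (((pe i).add (ae i)).sub_odd odd_one)
    | lox3 i h hi he => exact (pe i).add (ev i 11 (has11 i h hi he) (by omega))
    | x3x2 i h hi he =>
      exact (ev i 11 (has11 i h hi he) (by omega)).add (ev i 10 (hasL i h).2.2.2.1 (by omega))
    | lox2 i h hi => exact (pe i).add (ev i 10 (hasL i h).2.2.2.1 (by omega))
    | x2x1 i h hi =>
      exact (ev i 10 (hasL i h).2.2.2.1 (by omega)).add (ev i 9 (hasL i h).2.2.1 (by omega))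
    | xo h => exact (ev _ 10 (hasL _ L.long).2.2.2.1 (by omega)).add (ho2 h)
    | ox h => exact (ho2 h).add (ev _ 9 (hasL _ L.long).2.2.1 (by omega))
  rcases h with h | h
  · exact key a b h
  · rw [add_comm]
    exact key b a h

end Pool.SpA
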