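import Pool.Agent.SpA.Defs

/-!
# SpA/OfLists

From lists of labels (listed from the root outwards) to a good labeling.

Proof.  `f i t = (l i).getD t 0`.  Labels are distinct by `hnd`, `hdisj`.  A vertex sum at `(i,t)`
with `t + 1 < n i` is `a + b` with `a = f i t`, `b = f i (t+1)` consecutive in `l i`; by `hchain`
either `|a - b| = 1` (odd sum) or `Sp a b` (even sum).  Two odd sums `a + b = c + d` with
`|a-b| = |c-d| = 1` have `{a,b} = {c,d}`; two even ones too, by `hinj`.  As labels are distinct, the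
position of `a` is `(i,t)` and of `b` is `(i,t+1)`, so the positions agree (`{t,t+1} = {s,s+1}`
gives `t = s`).  The last vertex has the sum `lf i`, which is even; two of them are
different as labels are distinct; compare with odd sums by parity, with special pairs by `hleaf`.
Same for the roots.
-/

namespace Pool.SpA

open Finset

/-- the relation between consecutive labels of a leg -/
def Link (Sp : ℤ → ℤ → Prop) (a b : ℤ) : Prop := b = a + 1 ∨ a = b + 1 ∨ Sp a b

private theorem link_cases {Sp : ℤ → ℤ → Prop} (hev : ∀ a b, Sp a b → Even (a + b)) {a b : ℤ}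
    (h : Link Sp a b) : (Odd (a + b) ∧ (b = a + 1 ∨ a = b + 1)) ∨ (Even (a + b) ∧ Sp a b) := by
  rcases h with h | h | h
  · left
    refine ⟨⟨a, by rw [h]; ring⟩, Or.inl h⟩
  · left
    refine ⟨⟨b, by rw [h]; ring⟩, Or.inr h⟩
  · exact Or.inr ⟨hev a b h, h⟩

private theorem link_pair {Sp : ℤ → ℤ → Prop} (hev : ∀ a b, Sp a b → Even (a + b))
    (hinj : ∀ a b c d, Sp a b → Sp c d → a + b = c + d → (a = c ∧ b = d) ∨ (a = d ∧ b = c))
    {a b c d : ℤ} (h : Link Sp a b) (h' : Link Sp c d) (e : a + b = c + d) :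
    (a = c ∧ b = d) ∨ (a = d ∧ b = c) := by
  rcases link_cases hev h with ⟨h1, h2⟩ | ⟨h1, h2⟩ <;>
    rcases link_cases hev h' with ⟨h3, h4⟩ | ⟨h3, h4⟩
  · rcases h2 with h2 | h2 <;> rcases h4 with h4 | h4
    · left; constructor <;> omega
    · right; constructor <;> omega
    · right; constructor <;> omega
    · left; constructor <;> omega
  · rw [e] at h1
    exact absurd h3 (Int.not_even_iff_odd.2 h1)
  · rw [← e] at h3
    exact absurd h1 (Int.not_even_iff_odd.2 h3)
  · exact hinj a b c d h2 h4 e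

theorem good_of_lists {N : ℕ} {α : Type*} [DecidableEq α] (n : Fin N → ℕ) (cen : Fin N → α) (k : ℤ)
    (hn : ∀ i, 1 ≤ n i) (l : Fin N → List ℤ) (Sp : ℤ → ℤ → Prop) (hd lf : Fin N → ℤ)
    (hlen : ∀ i, (l i).length = n i)
    (hlab : ∀ i, ∀ x ∈ l i, k < x ∧ x ≤ k + (∑ i, n i : ℕ))
    (hnd : ∀ i, (l i).Nodup) (hdisj : ∀ i j x, x ∈ l i → x ∈ l j → i = j)
    (hchain : ∀ i, (l i).IsChain (Link Sp))
    (hhead : ∀ i, (l i).head? = some (hd i)) (hlast : ∀ i, (l i).getLast? = some (lf i))
    (hev : ∀ a b, Sp a b → Even (a + b))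
    (hinj : ∀ a b c d, Sp a b → Sp c d → a + b = c + d → (a = c ∧ b = d) ∨ (a = d ∧ b = c))
    (hleafev : ∀ i, Even (lf i))
    (hleaf : ∀ i a b, Sp a b → lf i ≠ a + b)
    (hrootev : ∀ i, Even (rs cen (fun i _ => hd i) (cen i)))
    (hroot : ∀ i a b, Sp a b → rs cen (fun i _ => hd i) (cen i) ≠ a + b)
    (hrl : ∀ i j, rs cen (fun i _ => hd i) (cen i) ≠ lf j)
    (hrr : ∀ i j, rs cen (fun i _ => hd i) (cen i) = rs cen (fun i _ => hd i) (cen j) →
      cen i = cen j) :
    Good n cen k (fun i t => (l i).getD t 0) := by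
  have hget : ∀ i t (ht : t < n i), (l i).getD t 0 = (l i)[t]'(by rw [hlen]; exact ht) := by
    intro i t ht
    exact List.getD_eq_getElem _ _ (by rw [hlen]; exact ht)
  have hmem : ∀ i t, t < n i → (l i).getD t 0 ∈ l i := by
    intro i t ht
    rw [hget i t ht]
    exact List.getElem_mem _
  have hI : ∀ i j t s, t < n i → s < n j → (l i).getD t 0 = (l j).getD s 0 → i = j ∧ t = s := by
    intro i j t s ht hs h
    have hij : i = j := hdisj i j ((l i).getD t 0) (hmem i t ht) (by rw [h]; exact hmem j s hs)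
    subst hij
    refine ⟨rfl, ?_⟩
    rw [hget i t ht, hget i s hs] at h
    exact (List.Nodup.getElem_inj_iff (hnd i)).1 h
  have hL : ∀ i t, t + 1 < n i → Link Sp ((l i).getD t 0) ((l i).getD (t + 1) 0) := by
    intro i t ht
    rw [hget i t (by omega), hget i (t + 1) ht]
    exact List.isChain_iff_getElem.1 (hchain i) t (by rw [hlen]; exact ht)
  have h0 : ∀ i, (l i).getD 0 0 = hd i := by
    intro i
    have h := hhead i
    rw [List.head?_eq_getElem?] at h
    rw [List.getD_eq_getElem?_getD, h]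
    rfl
  have hE : ∀ i t, t < n i → ¬ (t + 1 < n i) → (l i).getD t 0 = lf i := by
    intro i t ht ht'
    have h := hlast i
    rw [List.getLast?_eq_getElem?, hlen] at h
    rw [List.getD_eq_getElem?_getD]
    have e : t = n i - 1 := by omega
    rw [e, h]
    rfl
  have hR : ∀ c, rs cen (fun i t => (l i).getD t 0) c = rs cen (fun i _ => hd i) c := by
    intro c
    unfold rs
    refine Finset.sum_congr rfl fun i _ => ?_
    exact h0 i
  refine ⟨fun i t ht => (hlab i _ (hmem i t ht)).1, fun i t ht => (hlab i _ (hmem i t ht)).2, hI,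
    ?_, ?_, ?_⟩
  · intro i j t s ht hs h
    unfold vs at h
    beta_reduce at h
    split_ifs at h with h1 h2 h2
    · rcases link_pair hev hinj (hL i t h1) (hL j s h2) h with ⟨h3, h4⟩ | ⟨h3, h4⟩
      · exact hI i j t s ht hs h3
      · obtain ⟨h5, h6⟩ := hI i j t (s + 1) ht h2 h3
        obtain ⟨h7, h8⟩ := hI i j (t + 1) s h1 hs h4
        omega
    · rw [hE j s hs h2] at h
      rcases link_cases hev (hL i t h1) with ⟨h3, -⟩ | ⟨-, h3⟩
      · rw [h] at h3
        exact absurd (hleafev j) (Int.not_even_iff_odd.2 h3)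
      · exact absurd h.symm (hleaf j _ _ h3)
    · rw [hE i t ht h1] at h
      rcases link_cases hev (hL j s h2) with ⟨h3, -⟩ | ⟨-, h3⟩
      · rw [← h] at h3
        exact absurd (hleafev i) (Int.not_even_iff_odd.2 h3)
      · exact absurd h (hleaf i _ _ h3)
    · exact hI i j t s ht hs h
  · intro i j h
    rw [hR, hR] at h
    exact hrr i j h
  · intro i j t ht h
    rw [hR] at h
    unfold vs at h
    beta_reduce at h
    split_ifs at h with h1
    · rcases link_cases hev (hL i t h1) with ⟨h3, -⟩ | ⟨-, h3⟩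
      · rw [h] at h3
        exact absurd (hrootev j) (Int.not_even_iff_odd.2 h3)
      · exact absurd h.symm (hroot j _ _ h3)
    · rw [hE i t ht h1] at h
      exact hrl j i h.symm

end Pool.SpA
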