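import Pool.Agent.SpA.LayoutEx
import Pool.Agent.SpA.BlocksEx
import Pool.Agent.SpA.Choose
import Pool.Agent.SpA.ListsEx
import Pool.Agent.SpA.OfLists

/-!
# SpA/Core

`core_sorted`: put the modules together.  `core`: sort the legs by (degree of the root, root)
(`Tuple.sort` with keys in `ℕ ×ₗ Fin N`, the root being represented by its first leg), and for
`2k+m+1 < 0` use `-f` and `-k-m-1`.
-/

namespace Pool.SpA

open Finset

theorem core_sorted {N : ℕ} {α : Type*} [LinearOrder α] (n : Fin N → ℕ) (cen : Fin N → α) (k : ℤ)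
    (hN : 0 < N) (hn : ∀ i, 1 ≤ n i) (hcen : Monotone cen)
    (hdeg : ∀ i j, cen i ≤ cen j →
      (univ.filter fun i' => cen i' = cen i).card ≤ (univ.filter fun j' => cen j' = cen j).card)
    (hone : ∀ i, n i = 1 → ∃ j, j ≠ i ∧ cen j = cen i)
    (hm : 100000 * N ≤ ∑ i, n i) (hk : 0 ≤ 2 * k + (∑ i, n i : ℕ) + 1) :
    ∃ f, Good n cen k f := by
  obtain ⟨L⟩ := exists_layout n k hN hn hm hk
  obtain ⟨Bl⟩ := exists_blocks L
  obtain ⟨y, hy, hE⟩ := exists_choice cen hn hcen hdeg hone hk (by omega) L Bl
  obtain ⟨l, h1, h2, h3, h4, h5, h6, h7⟩ := exists_lists hn L Bl y hy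
  have hev : ∀ i r, Has n L.i0 i r → r < 12 → Even (y i r) := by
    intro i r h h'
    have := (hy i r h).2.2
    rwa [if_neg (by omega)] at this
  refine ⟨_, good_of_lists n cen k hn l (Sp L y) (fun i => y i 0) (leafv n y) h1 h2 h3 h4 h5 h6 h7
    (sp_even L Bl y hy) hE.pair ?_ hE.leaf ?_ hE.root hE.rootleaf hE.rootroot⟩
  · intro i
    unfold leafv
    by_cases h : n i ≤ 9
    · rw [if_pos h]
      have := hn i
      apply hev
      · unfold Has
        rw [if_pos h]
        omega
      · omega
    · rw [if_neg h]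
      apply hev
      · unfold Has
        rw [if_neg h]
        omega
      · omega
  · intro i
    unfold rs
    apply Finset.even_sum
    intro j _
    apply hev
    · unfold Has
      have := hn j
      split_ifs
      · omega
      · omega
    · omega

theorem good_neg {N : ℕ} {α : Type*} [DecidableEq α] (n : Fin N → ℕ) (cen : Fin N → α) (k : ℤ)
    (f : Fin N → ℕ → ℤ) (hf : Good n cen (-k - (∑ i, n i : ℕ) - 1) f) :
    Good n cen k (fun i t => - f i t) := by
  have hvs : ∀ i t, vs n (fun i t => - f i t) i t = - vs n f i t := by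
    intro i t
    unfold vs
    split_ifs
    · ring
    · rfl
  have hrs : ∀ c, rs cen (fun i t => - f i t) c = - rs cen f c := by
    intro c
    unfold rs
    rw [← Finset.sum_neg_distrib]
  refine ⟨?_, ?_, ?_, ?_, ?_, ?_⟩
  · intro i t ht
    have := hf.hi i t ht
    linarith
  · intro i t ht
    have := hf.lo i t ht
    omega
  · intro i j t s ht hs h
    exact hf.inj i j t s ht hs (neg_injective h)
  · intro i j t s ht hs h
    rw [hvs, hvs] at h
    exact hf.vinj i j t s ht hs (neg_injective h)
  · intro i j h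
    rw [hrs, hrs] at h
    exact hf.rinj i j (neg_injective h)
  · intro i j t ht h
    rw [hvs, hrs] at h
    exact hf.vr i j t ht (neg_injective h)

theorem good_perm {N : ℕ} {α β : Type*} [DecidableEq α] [DecidableEq β] (n : Fin N → ℕ)
    (cen : Fin N → α) (cen' : Fin N → β) (k : ℤ) (σ : Equiv.Perm (Fin N))
    (h : ∀ i j, cen' i = cen' j ↔ cen (σ i) = cen (σ j))
    (f : Fin N → ℕ → ℤ) (hf : Good (fun i => n (σ i)) cen' k f) :
    Good n cen k (fun i t => f (σ.symm i) t) := by
  have hsum : ∑ i, n (σ i) = ∑ i, n i := Equiv.sum_comp σ n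
  have hvs : ∀ i t, vs n (fun i t => f (σ.symm i) t) i t =
      vs (fun i => n (σ i)) f (σ.symm i) t := by
    intro i t
    unfold vs
    simp only [Equiv.apply_symm_apply]
  have hrs : ∀ i, rs cen (fun i t => f (σ.symm i) t) (cen i) = rs cen' f (cen' (σ.symm i)) := by
    intro i
    unfold rs
    apply Finset.sum_equiv σ.symm
    · intro j
      rw [mem_filter, mem_filter, h]
      simp
    · intro j _
      rfl
  have hlt : ∀ i t, t < n i → t < n (σ (σ.symm i)) := by
    intro i t ht
    rwa [Equiv.apply_symm_apply]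
  refine ⟨?_, ?_, ?_, ?_, ?_, ?_⟩
  · intro i t ht
    exact hf.lo _ t (hlt i t ht)
  · intro i t ht
    have := hf.hi _ t (hlt i t ht)
    rwa [hsum] at this
  · intro i j t s ht hs he
    have := hf.inj _ _ t s (hlt i t ht) (hlt j s hs) he
    exact ⟨σ.symm.injective this.1, this.2⟩
  · intro i j t s ht hs he
    rw [hvs, hvs] at he
    have := hf.vinj _ _ t s (hlt i t ht) (hlt j s hs) he
    exact ⟨σ.symm.injective this.1, this.2⟩
  · intro i j he
    rw [hrs, hrs] at he
    have := hf.rinj _ _ he
    rw [h] at this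
    simpa using this
  · intro i j t ht he
    rw [hvs, hrs] at he
    exact hf.vr _ _ t (hlt i t ht) he

theorem core_pos {N : ℕ} {α : Type*} [DecidableEq α] (n : Fin N → ℕ) (cen : Fin N → α) (k : ℤ)
    (hN : 0 < N) (hn : ∀ i, 1 ≤ n i) (hone : ∀ i, n i = 1 → ∃ j, j ≠ i ∧ cen j = cen i)
    (hm : 100000 * N ≤ ∑ i, n i) (hk : 0 ≤ 2 * k + (∑ i, n i : ℕ) + 1) :
    ∃ f, Good n cen k f := by
  have hne : ∀ i, (univ.filter fun j => cen j = cen i).Nonempty := by
    intro i
    exact ⟨i, by simp⟩
  set key : Fin N → ℕ ×ₗ Fin N := fun i =>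
    toLex ((univ.filter fun j => cen j = cen i).card, (univ.filter fun j => cen j = cen i).min'
      (hne i)) with hkey
  have hkey2 : ∀ i j, key i = key j ↔ cen i = cen j := by
    intro i j
    constructor
    · intro h
      have h1 : (univ.filter fun j' => cen j' = cen i).min' (hne i) =
          (univ.filter fun j' => cen j' = cen j).min' (hne j) := by
        have := congrArg (fun v => (ofLex v).2) h
        simpa [hkey] using this
      have h2 := (univ.filter fun j' => cen j' = cen i).min'_mem (hne i)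
      have h3 := (univ.filter fun j' => cen j' = cen j).min'_mem (hne j)
      rw [mem_filter] at h2 h3
      rw [← h2.2, h1, h3.2]
    · intro h
      have : (univ.filter fun j' => cen j' = cen i) = (univ.filter fun j' => cen j' = cen j) := by
        rw [h]
      simp only [hkey, this]
  set σ := Tuple.sort key with hσ
  have hmono : Monotone (key ∘ σ) := Tuple.monotone_sort key
  have hcard : ∀ i, (univ.filter fun j => (key ∘ σ) j = (key ∘ σ) i).card =
      (univ.filter fun j => cen j = cen (σ i)).card := by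
    intro i
    apply Finset.card_equiv σ
    intro j
    rw [mem_filter, mem_filter]
    simp only [Function.comp_apply, hkey2, mem_univ, true_and]
  have hsum : ∑ i, n (σ i) = ∑ i, n i := Equiv.sum_comp σ n
  obtain ⟨f, hf⟩ := core_sorted (fun i => n (σ i)) (key ∘ σ) k hN (fun i => hn _) hmono
    (by
      intro i j hij
      rw [hcard, hcard]
      have h1 := (Prod.Lex.toLex_le_toLex.1 hij : _)
      rcases h1 with h1 | ⟨h1, -⟩
      · exact le_of_lt h1
      · exact le_of_eq h1)
    (by
      intro i hi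
      obtain ⟨j, hj, hj'⟩ := hone (σ i) hi
      refine ⟨σ.symm j, ?_, ?_⟩
      · intro h
        apply hj
        rw [← h, Equiv.apply_symm_apply]
      · simp only [Function.comp_apply, Equiv.apply_symm_apply, hkey2]
        exact hj')
    (by rw [hsum]; exact hm) (by rw [hsum]; exact hk)
  refine ⟨_, good_perm n cen (key ∘ σ) k σ ?_ f hf⟩
  intro i j
  simp only [Function.comp_apply, hkey2]

theorem core {N : ℕ} {α : Type*} [DecidableEq α] (n : Fin N → ℕ) (cen : Fin N → α) (k : ℤ)
    (hN : 0 < N) (hn : ∀ i, 1 ≤ n i) (hone : ∀ i, n i = 1 → ∃ j, j ≠ i ∧ cen j = cen i)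
    (hm : 100000 * N ≤ ∑ i, n i) :
    ∃ f, Good n cen k f := by
  by_cases hk : 0 ≤ 2 * k + (∑ i, n i : ℕ) + 1
  · exact core_pos n cen k hN hn hone hm hk
  · obtain ⟨f, hf⟩ := core_pos n cen (-k - (∑ i, n i : ℕ) - 1) hN hn hone hm (by omega)
    exact ⟨_, good_neg n cen k f hf⟩

end Pool.SpA
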