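import Pool.Agent.SpA.Defs

/-!
# SpA/CoreS

Sorting of the legs and change of sign (helper22 for helper75): `core` from `core_sorted`.
-/

namespace Pool.SpA

open Finset

theorem good_neg {N : ℕ} {α : Type*} [DecidableEq α] {n : Fin N → ℕ} {cen : Fin N → α} {k : ℤ}
    {f : Fin N → ℕ → ℤ} (h : Good n cen (-k - (∑ i, n i : ℕ) - 1) f) :
    Good n cen k (fun i t => - f i t) := by
  have hvs : ∀ i t, vs n (fun i t => - f i t) i t = - vs n f i t := by
    intro i t
    unfold vs
    split_ifs
    · ring
    · rfl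
  have hrs : ∀ c, rs cen (fun i t => - f i t) c = - rs cen f c := by
    intro c
    unfold rs
    rw [Finset.sum_neg_distrib]
  refine ⟨?_, ?_, ?_, ?_, ?_, ?_⟩
  · intro i t ht
    have := h.hi i t ht
    show k < - f i t
    omega
  · intro i t ht
    have := h.lo i t ht
    show - f i t ≤ k + (∑ i, n i : ℕ)
    omega
  · intro i j t s ht hs he
    have he' : - f i t = - f j s := he
    exact h.inj i j t s ht hs (neg_inj.1 he')
  · intro i j t s ht hs he
    rw [hvs, hvs] at he
    exact h.vinj i j t s ht hs (neg_inj.1 he)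
  · intro i j he
    rw [hrs, hrs] at he
    exact h.rinj i j (neg_inj.1 he)
  · intro i j t ht he
    rw [hvs, hrs] at he
    exact h.vr i j t ht (neg_inj.1 he)

theorem good_perm {N : ℕ} {α β : Type*} [DecidableEq α] [DecidableEq β] {n : Fin N → ℕ}
    {cen : Fin N → α} {k : ℤ} (σ : Equiv.Perm (Fin N)) (cen' : Fin N → β)
    (hc : ∀ i j, cen' i = cen' j ↔ cen (σ i) = cen (σ j)) {f : Fin N → ℕ → ℤ}
    (h : Good (fun i => n (σ i)) cen' k f) :
    Good n cen k (fun i t => f (σ.symm i) t) := by
  have hn : ∀ i, n i = n (σ (σ.symm i)) := fun i => by rw [Equiv.apply_symm_apply]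
  have hsum : ∑ i, n (σ i) = ∑ i, n i := Equiv.sum_comp σ n
  have hvs : ∀ i t, vs n (fun i t => f (σ.symm i) t) i t =
      vs (fun i => n (σ i)) f (σ.symm i) t := by
    intro i t
    unfold vs
    simp only [Equiv.apply_symm_apply]
  have hrs : ∀ i, rs cen (fun i t => f (σ.symm i) t) (cen i) = rs cen' f (cen' (σ.symm i)) := by
    intro i
    unfold rs
    symm
    apply Finset.sum_bij (fun j _ => σ j)
    · intro j hj
      rw [Finset.mem_filter] at hj ⊢
      have := (hc j (σ.symm i)).1 hj.2
      rw [Equiv.apply_symm_apply] at this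
      exact ⟨Finset.mem_univ _, this⟩
    · intro j _ j' _ hjj
      exact σ.injective hjj
    · intro j hj
      rw [Finset.mem_filter] at hj
      refine ⟨σ.symm j, ?_, Equiv.apply_symm_apply σ j⟩
      rw [Finset.mem_filter, hc, Equiv.apply_symm_apply, Equiv.apply_symm_apply]
      exact ⟨Finset.mem_univ _, hj.2⟩
    · intro j _
      show f j 0 = f (σ.symm (σ j)) 0
      rw [Equiv.symm_apply_apply]
  have hi' : ∀ i, σ (σ.symm i) = i := fun i => Equiv.apply_symm_apply σ i
  refine ⟨?_, ?_, ?_, ?_, ?_, ?_⟩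
  · intro i t ht
    exact h.lo (σ.symm i) t (by show t < n (σ (σ.symm i)); rw [hi']; exact ht)
  · intro i t ht
    have := h.hi (σ.symm i) t (by show t < n (σ (σ.symm i)); rw [hi']; exact ht)
    rw [hsum] at this
    exact this
  · intro i j t s ht hs he
    have := h.inj (σ.symm i) (σ.symm j) t s (by show t < n (σ (σ.symm i)); rw [hi']; exact ht)
      (by show s < n (σ (σ.symm j)); rw [hi']; exact hs) he
    exact ⟨σ.symm.injective this.1, this.2⟩
  · intro i j t s ht hs he
    rw [hvs, hvs] at he
    have := h.vinj (σ.symm i) (σ.symm j) t s (by show t < n (σ (σ.symm i)); rw [hi']; exact ht)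
      (by show s < n (σ (σ.symm j)); rw [hi']; exact hs) he
    exact ⟨σ.symm.injective this.1, this.2⟩
  · intro i j he
    rw [hrs, hrs] at he
    have := h.rinj _ _ he
    rw [hc, hi', hi'] at this
    exact this
  · intro i j t ht he
    rw [hvs, hrs] at he
    exact h.vr (σ.symm i) (σ.symm j) t (by show t < n (σ (σ.symm i)); rw [hi']; exact ht) he

end Pool.SpA
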