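import Mathlib

/-!
# Shifted antimagic labelings of spider forests (MP_9fc547_co): definitions

Paper proof: team note 3500.  Constants: `w = 600` (half block), blocks at distance `1200`,
`C0 = 100000`.
-/

namespace Pool.SpA

open Finset

open Classical in
/-- the degree of the vertex `v` -/
noncomputable def deg {V : Type*} [Fintype V] (G : SimpleGraph V) (v : V) : ℕ :=
  (univ.filter fun w => G.Adj v w).card

/-- `G` is a spider forest: it has no cycle, every component has at least two edges (contains a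
vertex of degree at least two), and no component has two vertices of degree at least three. -/
structure IsSpiderForest {V : Type*} [Fintype V] (G : SimpleGraph V) : Prop where
  acyclic : G.IsAcyclic
  two : ∀ v, ∃ b, G.Reachable v b ∧ 2 ≤ deg G b
  one : ∀ a b, G.Reachable a b → 3 ≤ deg G a → 3 ≤ deg G b → a = b

open Classical in
/-- `G`, with `m` edges, is `k`-shifted antimagic: there is a bijection `f` from the edges onto
`{k+1,...,k+m}` such that the sums of the labels at the vertices are pairwise distinct. -/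
def ShiftedAntimagic {V : Type*} [Fintype V] (G : SimpleGraph V) (k : ℤ) : Prop :=
  ∃ f : Sym2 V → ℤ, Set.BijOn f G.edgeSet (Set.Ioc k (k + G.edgeSet.ncard)) ∧
    Function.Injective fun v => ∑ w ∈ univ.filter (fun w => G.Adj v w), f s(v, w)

open Classical in
/-- the number of leaves (vertices of degree one) -/
noncomputable def leaves {V : Type*} [Fintype V] (G : SimpleGraph V) : ℕ :=
  (univ.filter fun v => deg G v = 1).card

/-- A description of the graph `G` by `N` legs: leg `i` is attached at the vertex `root i` and has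
the `n i` further vertices `vert i 0, ..., vert i (n i - 1)`. -/
structure Legs {V : Type*} (G : SimpleGraph V) (N : ℕ) where
  n : Fin N → ℕ
  root : Fin N → V
  vert : Fin N → ℕ → V
  pos : ∀ i, 1 ≤ n i
  inj : ∀ i j t s, t < n i → s < n j → vert i t = vert j s → i = j ∧ t = s
  root_ne : ∀ i j t, t < n j → root i ≠ vert j t
  cover : ∀ v, (∃ i, root i = v) ∨ ∃ i t, t < n i ∧ vert i t = v
  adj : ∀ u v, G.Adj u v ↔ ∃ i t, t < n i ∧
    ((u = (if t = 0 then root i else vert i (t - 1)) ∧ v = vert i t) ∨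
      (v = (if t = 0 then root i else vert i (t - 1)) ∧ u = vert i t))
  one : ∀ i, n i = 1 → ∃ j, j ≠ i ∧ root j = root i

/-- sum of the labels at the `t`-th vertex of leg `i`, `f i t` being the label of the edge from the
previous vertex to the `t`-th vertex of leg `i` -/
def vs {N : ℕ} (n : Fin N → ℕ) (f : Fin N → ℕ → ℤ) (i : Fin N) (t : ℕ) : ℤ :=
  if t + 1 < n i then f i t + f i (t + 1) else f i t

/-- sum of the labels at the root `c` -/
def rs {N : ℕ} {α : Type*} [DecidableEq α] (cen : Fin N → α) (f : Fin N → ℕ → ℤ) (c : α) : ℤ :=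
  ∑ i ∈ univ.filter (fun i => cen i = c), f i 0

/-- `f` is a good labeling of the legs: labels in `(k, k+m]`, pairwise distinct, and all vertex sums
distinct. -/
structure Good {N : ℕ} {α : Type*} [DecidableEq α] (n : Fin N → ℕ) (cen : Fin N → α) (k : ℤ)
    (f : Fin N → ℕ → ℤ) : Prop where
  lo : ∀ i t, t < n i → k < f i t
  hi : ∀ i t, t < n i → f i t ≤ k + (∑ i, n i : ℕ)
  inj : ∀ i j t s, t < n i → s < n j → f i t = f j s → i = j ∧ t = s
  vinj : ∀ i j t s, t < n i → s < n j → vs n f i t = vs n f j s → i = j ∧ t = s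
  rinj : ∀ i j, rs cen f (cen i) = rs cen f (cen j) → cen i = cen j
  vr : ∀ i j t, t < n i → vs n f i t ≠ rs cen f (cen j)

/-! ### Layout -/

/-- the presence (0 or 1) of the extra odd label `k+1` -/
def o1 (k : ℤ) : ℕ := if Odd (k + 1) then 1 else 0

/-- the presence (0 or 1) of the extra even label `k+m` -/
def o2 (k : ℤ) (m : ℕ) : ℕ := if Even (k + m) then 1 else 0

/-- leg `i` has the role `r`: `z1..z9` are `0..8`, `x1,x2,x3` are `9,10,11`, `u` is `12`, `u'` is
`13`. -/
def Has {N : ℕ} (n : Fin N → ℕ) (i0 : Fin N) (i : Fin N) (r : ℕ) : Prop :=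
  if n i ≤ 9 then r < n i
  else r = 0 ∨ r = 1 ∨ r = 9 ∨ r = 10 ∨ r = 12 ∨ (r = 11 ∧ i ≠ i0 ∧ Even (n i)) ∨
    (r = 13 ∧ i = i0)

instance {N : ℕ} (n : Fin N → ℕ) (i0 : Fin N) (i : Fin N) (r : ℕ) : Decidable (Has n i0 i r) := by
  unfold Has; infer_instance

/-- number of holes used by leg `i` -/
def nh {N : ℕ} (n : Fin N → ℕ) (i0 : Fin N) (i : Fin N) : ℕ :=
  if n i ≤ 9 then n i else if i = i0 then 6 else if Even (n i) then 6 else 5

/-- All the numbers of the construction: `i0` is the special leg, `h i` the number of holes in the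
second tile of leg `i`, `a i` and `b i` the lengths of its first and second tile. -/
structure Layout {N : ℕ} (n : Fin N → ℕ) (k : ℤ) where
  i0 : Fin N
  h : Fin N → ℕ
  a : Fin N → ℕ
  b : Fin N → ℕ
  long : 10 ≤ n i0
  short : ∀ i, n i ≤ 9 → h i = 0 ∧ a i = 0 ∧ b i = 0
  evena : ∀ i, Even (a i)
  evenb : ∀ i, Even (b i)
  twoa : ∀ i, 10 ≤ n i → 2 ≤ a i
  twob : ∀ i, 10 ≤ n i → 2 ≤ b i
  len : ∀ i, 10 ≤ n i → i ≠ i0 → n i + h i = a i + b i + nh n i0 i
  len0 : n i0 + h i0 = a i0 + b i0 + 6 + o1 k + o2 k (∑ i, n i)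
  host : ∀ i, 0 < h i → 1200 * h i + 4 ≤ b i
  tot : ∑ i, h i = ∑ i, nh n i0 i
  endp : k + 1 + o1 k + ∑ i, (a i : ℤ) + ∑ i, (b i : ℤ) + o2 k (∑ i, n i) = k + 1 + (∑ i, n i : ℕ)
  nonneg : 0 ≤ k + 1 + o1 k + ∑ i, (a i : ℤ)

namespace Layout

variable {N : ℕ} {n : Fin N → ℕ} {k : ℤ} (L : Layout n k)

/-- start of the first tile of leg `i` (`lo_i`) -/
def p (i : Fin N) : ℤ := k + 1 + o1 k + ∑ j ∈ univ.filter (· < i), (L.a j : ℤ)

/-- start of the second tile of leg `i` (`lo'_i`) -/
def q (i : Fin N) : ℤ := k + 1 + o1 k + ∑ j, (L.a j : ℤ) + ∑ j ∈ univ.filter (· < i), (L.b j : ℤ)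

end Layout

/-- A placement of the holes in blocks: `B i r` is the start of the block of the hole `(i,r)`. -/
structure Blocks {N : ℕ} {n : Fin N → ℕ} {k : ℤ} (L : Layout n k) where
  B : Fin N → ℕ → ℤ
  even : ∀ i r, Has n L.i0 i r → Even (B i r)
  two : ∀ i r, Has n L.i0 i r → 2 ≤ B i r
  gap : ∀ i r i' r', Has n L.i0 i r → Has n L.i0 i' r' → (r < r' ∨ (r = r' ∧ i < i')) →
    B i r + 1200 ≤ B i' r'
  tile : ∀ i r, Has n L.i0 i r → ∃ j, 10 ≤ n j ∧ L.q j + 2 ≤ B i r ∧ B i r + 602 ≤ L.q j + L.b j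
  count : ∀ j, ((univ ×ˢ range 14).filter (fun x : Fin N × ℕ => Has n L.i0 x.1 x.2 ∧
    L.q j ≤ B x.1 x.2 ∧ B x.1 x.2 < L.q j + L.b j)).card = L.h j

/-- the value `y i r` is an admissible value of the hole `(i,r)` -/
def Adm {N : ℕ} {n : Fin N → ℕ} {k : ℤ} {L : Layout n k} (Bl : Blocks L)
    (y : Fin N → ℕ → ℤ) : Prop :=
  ∀ i r, Has n L.i0 i r → Bl.B i r ≤ y i r ∧ y i r < Bl.B i r + 600 ∧
    (if 12 ≤ r then Odd (y i r) else Even (y i r))

end Pool.SpA
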