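import Mathlib

/-!
# SpA/Greedy

Greedy choice.  `V` = variables (processed in increasing order), `D v` = domain of `v`,
`E` = expressions, `S` = the expressions which count; the expression `e` has the value
`coef e * y (last e) + rest e y`, where `rest e y` depends only on the variables before `last e`.

Proof.  By induction on a finite initial segment of `V` (e.g. `Finset.induction_on_max` on
`univ`, or induction on the number of processed variables through `Fintype.orderIsoFinOfCardEq` /
strong induction): there is an admissible `y` (all `y v ∈ D v`; start with any one) such that the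
values of the `e ∈ S` with `last e` among the processed variables are distinct.  Step: the new
variable is `v`; replace `y` by `Function.update y v x`, `x ∈ D v`.  Values of processed `e` do not
change (`hrest`, and `last e ≠ v`).  For `e ∈ S` with `last e = v` the value is
`coef e * x + rest e y`.  Forbidden `x`:
* for some `e ∈ S` with `last e = v` and some processed `e' ∈ S`: `coef e * x + rest e y = val e' y`.
  As `x` runs through `D v` the left side stays in an interval of length `< 2w`
  (`hdiam`, `coef e ≤ 2`), so for each family at most 2 such `e'` can occur (three members of one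
  family are pairwise at distance `≥ w`, so two of them are at distance `≥ 2w`), and each `e'`
  forbids at most one `x`: at most `3 * 2 * card Φ` values of `x`;
* two different `e, e' ∈ S` with `last = v` get the same value: by `hdist` this needs
  `coef e ≠ coef e'`, so it happens for at most one `x` for each of the (at most 3) unordered
  pairs.
Since `D v` has more than `6 * card Φ + 3` elements there is a good `x`.
-/

namespace Pool.SpA

open Finset

/-- At most two admissible values of a form meet a separated family. -/
theorem greedy_two {E : Type*} (w : ℤ) (D : Finset ℤ) (hdiam : ∀ x ∈ D, ∀ x' ∈ D, x - x' < w)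
    (c r : ℤ) (hc : c = 1 ∨ c = 2) (val : E → ℤ) (A : Set E)
    (hsep : ∀ e ∈ A, ∀ e' ∈ A, e ≠ e' → w ≤ |val e - val e'|)
    [DecidablePred fun x : ℤ => ∃ e ∈ A, c * x + r = val e] :
    (D.filter fun x => ∃ e ∈ A, c * x + r = val e).card ≤ 2 := by
  by_contra hcon
  push Not at hcon
  obtain ⟨x1, x2, x3, h1, h2, h3, n12, n13, n23⟩ := Finset.two_lt_card_iff.1 hcon
  simp only [Finset.mem_filter] at h1 h2 h3
  obtain ⟨d1, e1, a1, v1⟩ := h1
  obtain ⟨d2, e2, a2, v2⟩ := h2
  obtain ⟨d3, e3, a3, v3⟩ := h3
  have key : ∀ x x' e e', x ≠ x' → e ∈ A → e' ∈ A → c * x + r = val e → c * x' + r = val e' →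
      w ≤ c * x - c * x' ∨ w ≤ c * x' - c * x := by
    intro x x' e e' hx he he' hv hv'
    have hee : e ≠ e' := by
      rintro rfl
      rw [← hv'] at hv
      rcases hc with rfl | rfl <;> omega
    have h := hsep e he e' he' hee
    rw [← hv, ← hv'] at h
    rcases le_abs.1 h with h | h
    · left; linarith
    · right; linarith
  have k12 := key x1 x2 e1 e2 n12 a1 a2 v1 v2
  have k13 := key x1 x3 e1 e3 n13 a1 a3 v1 v3
  have k23 := key x2 x3 e2 e3 n23 a2 a3 v2 v3
  have i12 := hdiam x1 d1 x2 d2
  have i21 := hdiam x2 d2 x1 d1
  have i13 := hdiam x1 d1 x3 d3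
  have i31 := hdiam x3 d3 x1 d1
  have i23 := hdiam x2 d2 x3 d3
  have i32 := hdiam x3 d3 x2 d2
  rcases hc with rfl | rfl <;> omega

theorem greedy {V E Φ : Type*} [Fintype V] [LinearOrder V] [DecidableEq E] [Fintype Φ]
    [DecidableEq Φ] (w : ℤ) (hw : 0 < w) (D : V → Finset ℤ) (S : Finset E)
    (last : E → V) (coef : E → ℤ) (rest : E → (V → ℤ) → ℤ) (fam : E → Φ)
    (hcoef : ∀ e, coef e = 1 ∨ coef e = 2)
    (hrest : ∀ e ∈ S, ∀ y y' : V → ℤ, (∀ v, v < last e → y v = y' v) → rest e y = rest e y')
    (hdiam : ∀ v, ∀ x ∈ D v, ∀ x' ∈ D v, x - x' < w)
    (hsep : ∀ y : V → ℤ, (∀ v, y v ∈ D v) → ∀ e ∈ S, ∀ e' ∈ S, fam e = fam e' → e ≠ e' →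
      w ≤ |(coef e * y (last e) + rest e y) - (coef e' * y (last e') + rest e' y)|)
    (hdist : ∀ y : V → ℤ, (∀ v, y v ∈ D v) → ∀ e ∈ S, ∀ e' ∈ S, e ≠ e' → last e = last e' →
      coef e = coef e' → rest e y ≠ rest e' y)
    (hfew : ∀ v, (S.filter fun e => last e = v).card ≤ 3)
    (hcard : ∀ v, 6 * Fintype.card Φ + 3 < (D v).card) :
    ∃ y : V → ℤ, (∀ v, y v ∈ D v) ∧ ∀ e ∈ S, ∀ e' ∈ S,
      coef e * y (last e) + rest e y = coef e' * y (last e') + rest e' y → e = e' := by
  classical
  have hmain : ∀ s : Finset V, ∃ y : V → ℤ, (∀ v, y v ∈ D v) ∧ ∀ e ∈ S, ∀ e' ∈ S,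
      last e ∈ s → last e' ∈ s →
      coef e * y (last e) + rest e y = coef e' * y (last e') + rest e' y → e = e' := by
    intro s
    induction s using Finset.induction_on_max with
    | empty =>
      have hne : ∀ v, ∃ x, x ∈ D v := by
        intro v
        have := hcard v
        exact Finset.card_pos.1 (by omega)
      choose y hy using hne
      exact ⟨y, hy, fun e _ e' _ h => absurd h (Finset.notMem_empty _)⟩
    | insert a s hs ih =>
      obtain ⟨y, hyD, hy⟩ := ih
      set T := S.filter fun e => last e = a with hT
      let val : E → ℤ := fun e => coef e * y (last e) + rest e y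
      let bad1 : E → Φ → Finset ℤ := fun e φ =>
        (D a).filter fun x => ∃ e' ∈ {e' : E | e' ∈ S ∧ last e' ∈ s ∧ fam e' = φ},
          coef e * x + rest e y = val e'
      have hb1 : ∀ e φ, (bad1 e φ).card ≤ 2 := by
        intro e φ
        refine greedy_two w (D a) (hdiam a) (coef e) (rest e y) (hcoef e) val _ ?_
        rintro e1 ⟨h1, h2, h3⟩ e2 ⟨h4, h5, h6⟩ h7
        exact hsep y hyD e1 h1 e2 h4 (h3.trans h6.symm) h7
      let bad2 : Finset ℤ := ((T.filter fun e => coef e = 2) ×ˢ (T.filter fun e => coef e = 1)).image
        fun q => rest q.2 y - rest q.1 y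
      have hb2 : bad2.card ≤ 3 := by
        refine le_trans Finset.card_image_le ?_
        rw [Finset.card_product]
        have h1 : (T.filter fun e => coef e = 2).card + (T.filter fun e => coef e = 1).card ≤ 3 := by
          rw [← Finset.card_union_of_disjoint]
          · refine le_trans (Finset.card_le_card ?_) (hfew a)
            intro e he
            rcases Finset.mem_union.1 he with h | h
            · exact (Finset.mem_filter.1 h).1
            · exact (Finset.mem_filter.1 h).1
          · rw [Finset.disjoint_left]
            intro e h1 h2
            have h3 := (Finset.mem_filter.1 h1).2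
            have h4 := (Finset.mem_filter.1 h2).2
            omega
        have h2 : (T.filter fun e => coef e = 2).card ≤ 3 := by omega
        have h3 : (T.filter fun e => coef e = 1).card ≤ 3 := by omega
        generalize (T.filter fun e => coef e = 2).card = p at *
        generalize (T.filter fun e => coef e = 1).card = q at *
        interval_cases p <;> omega
      let bad : Finset ℤ := (T.biUnion fun e => univ.biUnion fun φ => bad1 e φ) ∪ bad2
      have hbad : bad.card ≤ 6 * Fintype.card Φ + 3 := by
        refine le_trans (Finset.card_union_le _ _) ?_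
        have h1 : (T.biUnion fun e => univ.biUnion fun φ => bad1 e φ).card ≤
            T.card * (Fintype.card Φ * 2) := by
          refine Finset.card_biUnion_le_card_mul _ _ _ fun e _ => ?_
          refine le_trans (Finset.card_biUnion_le_card_mul _ _ 2 fun φ _ => hb1 e φ) ?_
          rw [Finset.card_univ]
        have h2 : T.card * (Fintype.card Φ * 2) ≤ 3 * (Fintype.card Φ * 2) :=
          Nat.mul_le_mul_right _ (hfew a)
        omega
      obtain ⟨x, hxD, hx⟩ : ∃ x ∈ D a, x ∉ bad := by
        by_contra hcon
        push Not at hcon
        have h1 := Finset.card_le_card (s := D a) (t := bad) hcon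
        have h2 := hcard a
        omega
      have hx2 : x ∉ bad2 := fun h => hx (Finset.mem_union_right _ h)
      have hx1 : ∀ e ∈ S, last e = a → ∀ e' ∈ S, last e' ∈ s →
          coef e * x + rest e y ≠ val e' := by
        intro e he hea e' he' hes heq
        apply hx
        refine Finset.mem_union_left _ (Finset.mem_biUnion.2 ⟨e, ?_, Finset.mem_biUnion.2
          ⟨fam e', Finset.mem_univ _, ?_⟩⟩)
        · exact Finset.mem_filter.2 ⟨he, hea⟩
        · exact Finset.mem_filter.2 ⟨hxD, e', ⟨he', hes, rfl⟩, heq⟩
      refine ⟨Function.update y a x, ?_, ?_⟩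
      · intro v
        by_cases hv : v = a
        · subst hv
          rw [Function.update_self]
          exact hxD
        · rw [Function.update_of_ne hv]
          exact hyD v
      · have hr : ∀ e ∈ S, last e ∈ insert a s → rest e (Function.update y a x) = rest e y := by
          intro e he hle
          refine hrest e he _ _ fun v hv => ?_
          rw [Function.update_of_ne]
          rintro rfl
          rcases Finset.mem_insert.1 hle with h | h
          · exact absurd (h ▸ hv) (lt_irrefl _)
          · exact absurd (hs _ h) (not_lt.2 hv.le)
        have hva : ∀ e ∈ S, last e = a → coef e * Function.update y a x (last e) +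
            rest e (Function.update y a x) = coef e * x + rest e y := by
          intro e he hle
          rw [hr e he (by rw [hle]; exact Finset.mem_insert_self _ _), hle, Function.update_self]
        have hvs : ∀ e ∈ S, last e ∈ s → coef e * Function.update y a x (last e) +
            rest e (Function.update y a x) = val e := by
          intro e he hle
          rw [hr e he (Finset.mem_insert_of_mem hle), Function.update_of_ne (hs _ hle).ne]
        intro e he e' he' hle hle' heq
        rcases Finset.mem_insert.1 hle with h1 | h1 <;> rcases Finset.mem_insert.1 hle' with h2 | h2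
        · rw [hva e he h1, hva e' he' h2] at heq
          by_contra hne
          by_cases hcc : coef e = coef e'
          · apply hdist y hyD e he e' he' hne (h1.trans h2.symm) hcc
            rw [hcc] at heq
            exact add_left_cancel heq
          · apply hx2
            rcases hcoef e with c1 | c1 <;> rcases hcoef e' with c2 | c2
            · exact absurd (c1.trans c2.symm) hcc
            · refine Finset.mem_image.2 ⟨(e', e), Finset.mem_product.2 ⟨?_, ?_⟩, ?_⟩
              · exact Finset.mem_filter.2 ⟨Finset.mem_filter.2 ⟨he', h2⟩, c2⟩
              · exact Finset.mem_filter.2 ⟨Finset.mem_filter.2 ⟨he, h1⟩, c1⟩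
              · rw [c1, c2] at heq
                show rest e y - rest e' y = x
                linarith
            · refine Finset.mem_image.2 ⟨(e, e'), Finset.mem_product.2 ⟨?_, ?_⟩, ?_⟩
              · exact Finset.mem_filter.2 ⟨Finset.mem_filter.2 ⟨he, h1⟩, c1⟩
              · exact Finset.mem_filter.2 ⟨Finset.mem_filter.2 ⟨he', h2⟩, c2⟩
              · rw [c1, c2] at heq
                show rest e' y - rest e y = x
                linarith
            · exact absurd (c1.trans c2.symm) hcc
        · rw [hva e he h1, hvs e' he' h2] at heq
          exact absurd heq (hx1 e he h1 e' he' h2)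
        · rw [hvs e he h1, hva e' he' h2] at heq
          exact absurd heq.symm (hx1 e' he' h2 e he h1)
        · rw [hvs e he h1, hvs e' he' h2] at heq
          exact hy e he e' he' h1 h2 heq
  obtain ⟨y, hyD, hy⟩ := hmain univ
  exact ⟨y, hyD, fun e he e' he' h => hy e he e' he' (mem_univ _) (mem_univ _) h⟩

end Pool.SpA
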