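import Pool.Agent.SpA.Defs

/-!
# SpA/LayoutEx

Existence of the layout (note 3500, section 1).  Proved by helper22 for helper75.
-/

namespace Pool.SpA

open Finset

theorem pack {ι : Type*} [DecidableEq ι] (s : Finset ι) (cap : ι → ℕ) (G : ℕ)
    (h : G ≤ ∑ i ∈ s, cap i) :
    ∃ g : ι → ℕ, (∀ i ∈ s, g i ≤ cap i) ∧ (∀ i, i ∉ s → g i = 0) ∧ ∑ i ∈ s, g i = G := by
  induction s using Finset.induction_on generalizing G with
  | empty =>
    rw [Finset.sum_empty] at h
    refine ⟨fun _ => 0, fun i hi => absurd hi (Finset.notMem_empty i), fun _ _ => rfl, ?_⟩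
    rw [Finset.sum_empty]
    omega
  | insert a s ha ih =>
    rw [Finset.sum_insert ha] at h
    by_cases hG : G ≤ ∑ i ∈ s, cap i
    · obtain ⟨g, h1, h2, h3⟩ := ih G hG
      refine ⟨g, ?_, ?_, ?_⟩
      · intro i hi
        rcases Finset.mem_insert.1 hi with rfl | hi
        · rw [h2 i ha]
          exact Nat.zero_le _
        · exact h1 i hi
      · intro i hi
        exact h2 i (fun hh => hi (Finset.mem_insert_of_mem hh))
      · rw [Finset.sum_insert ha, h2 a ha, h3, zero_add]
    · refine ⟨fun i => if i = a then G - ∑ i ∈ s, cap i else if i ∈ s then cap i else 0,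
        ?_, ?_, ?_⟩
      · intro i hi
        rcases Finset.mem_insert.1 hi with rfl | hi
        · show (if i = i then G - ∑ i ∈ s, cap i else if i ∈ s then cap i else 0) ≤ cap i
          rw [if_pos rfl]
          omega
        · have hia : i ≠ a := fun hh => ha (hh ▸ hi)
          show (if i = a then G - ∑ i ∈ s, cap i else if i ∈ s then cap i else 0) ≤ cap i
          rw [if_neg hia, if_pos hi]
      · intro i hi
        rw [Finset.mem_insert, not_or] at hi
        show (if i = a then G - ∑ i ∈ s, cap i else if i ∈ s then cap i else 0) = 0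
        rw [if_neg hi.1, if_neg hi.2]
      · rw [Finset.sum_insert ha]
        have h4 : ∑ x ∈ s, (if x = a then G - ∑ i ∈ s, cap i else if x ∈ s then cap x else 0) =
            ∑ x ∈ s, cap x := by
          apply Finset.sum_congr rfl
          intro i hi
          have hia : i ≠ a := fun hh => ha (hh ▸ hi)
          rw [if_neg hia, if_pos hi]
        rw [h4, if_pos rfl]
        omega

theorem exists_layout {N : ℕ} (n : Fin N → ℕ) (k : ℤ) (hN : 0 < N) (hn : ∀ i, 1 ≤ n i)
    (hm : 100000 * N ≤ ∑ i, n i) (hk : 0 ≤ 2 * k + (∑ i, n i : ℕ) + 1) :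
    Nonempty (Layout n k) := by
  obtain ⟨i0, -, hi0⟩ := Finset.exists_max_image (univ : Finset (Fin N)) n
    ⟨⟨0, hN⟩, Finset.mem_univ _⟩
  -- the special leg is long
  have hlong : 100000 ≤ n i0 := by
    have h1 : ∑ i, n i ≤ ∑ _i : Fin N, n i0 := Finset.sum_le_sum (fun i _ => hi0 i (Finset.mem_univ i))
    rw [Finset.sum_const, Finset.card_univ, Fintype.card_fin, smul_eq_mul] at h1
    have h2 : N * 100000 ≤ N * n i0 := by
      have : N * 100000 = 100000 * N := by ring
      omega
    exact Nat.le_of_mul_le_mul_left h2 hN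
  set m := ∑ i, n i with hmdef
  -- numbers of holes
  have hnh9 : ∀ i, nh n i0 i ≤ 9 := by
    intro i
    unfold nh
    split_ifs <;> omega
  have hnh0 : nh n i0 i0 = 6 := by
    unfold nh
    rw [if_neg (by omega), if_pos rfl]
  have hnhlong : ∀ i, 10 ≤ n i → nh n i0 i ≤ 6 := by
    intro i hi
    unfold nh
    rw [if_neg (by omega)]
    split_ifs <;> omega
  have hnhshort : ∀ i, n i ≤ 9 → nh n i0 i = n i := by
    intro i hi
    unfold nh
    rw [if_pos hi]
  have hnhpar : ∀ i, i ≠ i0 → (nh n i0 i) % 2 = (n i) % 2 := by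
    intro i hi
    unfold nh
    by_cases h9 : n i ≤ 9
    · rw [if_pos h9]
    · rw [if_neg h9, if_neg hi]
      by_cases he : Even (n i)
      · rw [if_pos he]
        rw [Nat.even_iff] at he
        omega
      · rw [if_neg he]
        rw [Nat.not_even_iff] at he
        omega
  set H := ∑ i, nh n i0 i with hH
  have hH9 : H ≤ 9 * N := by
    have h1 : H ≤ ∑ _i : Fin N, 9 := Finset.sum_le_sum (fun i _ => hnh9 i)
    rw [Finset.sum_const, Finset.card_univ, Fintype.card_fin, smul_eq_mul] at h1
    omega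
  -- packing
  have hcap : H / 2 ≤ ∑ i ∈ univ.filter (fun i => 10000 ≤ n i), n i / 10000 := by
    have h1 : ∑ i ∈ univ.filter (fun i => 10000 ≤ n i), n i / 10000 = ∑ i, n i / 10000 := by
      apply Finset.sum_subset (Finset.filter_subset _ _)
      intro i _ hi
      rw [Finset.mem_filter, not_and] at hi
      have := hi (Finset.mem_univ i)
      exact Nat.div_eq_of_lt (by omega)
    rw [h1]
    have h2 : ∑ i, n i ≤ ∑ i, (10000 * (n i / 10000) + 9999) := by
      apply Finset.sum_le_sum
      intro i _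
      omega
    rw [Finset.sum_add_distrib, ← Finset.mul_sum, Finset.sum_const, Finset.card_univ,
      Fintype.card_fin, smul_eq_mul] at h2
    omega
  obtain ⟨g, hg1, hg2, hg3⟩ := pack (univ.filter (fun i => 10000 ≤ n i)) (fun i => n i / 10000)
    (H / 2) hcap
  have hgcap : ∀ i, g i ≤ n i / 10000 := by
    intro i
    by_cases hi : i ∈ univ.filter (fun i => 10000 ≤ n i)
    · exact hg1 i hi
    · rw [hg2 i hi]
      exact Nat.zero_le _
  have hgsum : ∑ i, g i = H / 2 := by
    rw [← hg3]
    symm
    apply Finset.sum_subset (Finset.filter_subset _ _)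
    intro i _ hi
    exact hg2 i hi
  -- the numbers
  let h : Fin N → ℕ := fun i => 2 * g i + (if i = i0 then H % 2 else 0)
  let exc : Fin N → ℕ := fun i => nh n i0 i + (if i = i0 then o1 k + o2 k m else 0)
  let T : Fin N → ℕ := fun i => n i + h i - exc i
  let b : Fin N → ℕ := fun i => if n i ≤ 9 then 0 else 2 * (T i / 4)
  let a : Fin N → ℕ := fun i => if n i ≤ 9 then 0 else T i - 2 * (T i / 4)
  have ho1 : o1 k ≤ 1 := by unfold o1; split_ifs <;> omega
  have ho2 : o2 k m ≤ 1 := by unfold o2; split_ifs <;> omega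
  have hpar12 : (o1 k + o2 k m) % 2 = m % 2 := by
    unfold o1 o2
    have e1 : Odd (k + 1) ↔ k % 2 = 0 := by
      rw [Int.odd_iff]; omega
    have e2 : Even (k + (m : ℤ)) ↔ (k + (m : ℤ)) % 2 = 0 := Int.even_iff
    by_cases c1 : Odd (k + 1)
    · by_cases c2 : Even (k + (m : ℤ))
      · rw [if_pos c1, if_pos c2]
        rw [e1] at c1
        rw [e2] at c2
        omega
      · rw [if_pos c1, if_neg c2]
        rw [e1] at c1
        rw [e2] at c2
        omega
    · by_cases c2 : Even (k + (m : ℤ))
      · rw [if_neg c1, if_pos c2]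
        rw [e1] at c1
        rw [e2] at c2
        omega
      · rw [if_neg c1, if_neg c2]
        rw [e1] at c1
        rw [e2] at c2
        omega
  have hval : ∀ i, h i = 2 * g i + (if i = i0 then H % 2 else 0) := fun i => rfl
  have hexc : ∀ i, exc i = nh n i0 i + (if i = i0 then o1 k + o2 k m else 0) := fun i => rfl
  have hTval : ∀ i, T i = n i + h i - exc i := fun i => rfl
  have hexc8 : ∀ i, 10 ≤ n i → exc i ≤ 8 ∧ (i ≠ i0 → exc i ≤ 6) := by
    intro i hi
    have h1 := hnhlong i hi
    rw [hexc]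
    split_ifs with h2
    · exact ⟨by omega, fun h3 => absurd h2 h3⟩
    · exact ⟨by omega, fun _ => by omega⟩
  have hne : ∀ i, n i ≤ 9 → i ≠ i0 := by
    intro i hi hh
    rw [hh] at hi
    omega
  have hTge : ∀ i, 10 ≤ n i → 4 ≤ T i ∧ exc i ≤ n i + h i := by
    intro i hi
    have h1 := hexc8 i hi
    rw [hTval]
    by_cases h2 : i = i0
    · have : 100000 ≤ n i := by rw [h2]; exact hlong
      omega
    · have := h1.2 h2
      omega
  -- parity of the sum over the other legs
  have hsumpar : (H + n i0) % 2 = m % 2 := by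
    have h1 : H = nh n i0 i0 + ∑ i ∈ univ.erase i0, nh n i0 i :=
      (Finset.add_sum_erase _ _ (Finset.mem_univ i0)).symm
    have h2 : m = n i0 + ∑ i ∈ univ.erase i0, n i :=
      (Finset.add_sum_erase _ _ (Finset.mem_univ i0)).symm
    have h3 : (∑ i ∈ univ.erase i0, nh n i0 i) % 2 = (∑ i ∈ univ.erase i0, n i) % 2 := by
      rw [Finset.sum_nat_mod, Finset.sum_nat_mod (univ.erase i0) 2 n]
      congr 1
      apply Finset.sum_congr rfl
      intro i hi
      exact hnhpar i (Finset.ne_of_mem_erase hi)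
    omega
  have hTeven : ∀ i, 10 ≤ n i → T i % 2 = 0 := by
    intro i hi
    have h1 := (hTge i hi).2
    rw [hTval]
    by_cases h2 : i = i0
    · have e1 : h i = 2 * g i + H % 2 := by rw [hval, if_pos h2]
      have e2 : exc i = 6 + (o1 k + o2 k m) := by rw [hexc, if_pos h2, h2, hnh0]
      have e3 : n i = n i0 := by rw [h2]
      omega
    · have e1 : h i = 2 * g i := by rw [hval, if_neg h2, add_zero]
      have e2 : exc i = nh n i0 i := by rw [hexc, if_neg h2, add_zero]
      have e3 := hnhpar i h2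
      omega
  have hb : ∀ i, 10 ≤ n i → b i = 2 * (T i / 4) := by
    intro i hi
    show (if n i ≤ 9 then 0 else 2 * (T i / 4)) = _
    rw [if_neg (by omega)]
  have ha : ∀ i, 10 ≤ n i → a i = T i - 2 * (T i / 4) := by
    intro i hi
    show (if n i ≤ 9 then 0 else T i - 2 * (T i / 4)) = _
    rw [if_neg (by omega)]
  have hb0 : ∀ i, n i ≤ 9 → b i = 0 := by
    intro i hi
    show (if n i ≤ 9 then 0 else 2 * (T i / 4)) = _
    rw [if_pos hi]
  have ha0 : ∀ i, n i ≤ 9 → a i = 0 := by
    intro i hi
    show (if n i ≤ 9 then 0 else T i - 2 * (T i / 4)) = _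
    rw [if_pos hi]
  have hh0 : ∀ i, n i ≤ 9 → h i = 0 := by
    intro i hi
    have h1 := hgcap i
    have h2 : n i / 10000 = 0 := Nat.div_eq_of_lt (by omega)
    rw [hval, if_neg (hne i hi)]
    omega
  have htot : ∑ i, h i = H := by
    have h1 : ∑ i, h i = ∑ i, 2 * g i + ∑ i, (if i = i0 then H % 2 else 0) :=
      Finset.sum_add_distrib
    rw [h1, ← Finset.mul_sum, hgsum, Finset.sum_ite_eq' univ i0 (fun _ => H % 2),
      if_pos (Finset.mem_univ i0)]
    omega
  have hexcsum : ∑ i, exc i = H + (o1 k + o2 k m) := by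
    have h1 : ∑ i, exc i = ∑ i, nh n i0 i + ∑ i, (if i = i0 then o1 k + o2 k m else 0) :=
      Finset.sum_add_distrib
    rw [h1, Finset.sum_ite_eq' univ i0 (fun _ => o1 k + o2 k m), if_pos (Finset.mem_univ i0)]
  clear_value a b T exc h
  have hall : ∀ i, a i + b i + exc i = n i + h i := by
    intro i
    by_cases h9 : n i ≤ 9
    · rw [ha0 i h9, hb0 i h9, hh0 i h9, hexc, if_neg (hne i h9), hnhshort i h9]
      omega
    · have h10 : 10 ≤ n i := by omega
      rw [ha i h10, hb i h10]
      have h1 := hTge i h10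
      have h2 := hTval i
      omega
  have hsum : ∑ i, a i + ∑ i, b i + (o1 k + o2 k m) = m := by
    have h1 : ∑ i, (a i + b i + exc i) = ∑ i, (n i + h i) :=
      Finset.sum_congr rfl (fun i _ => hall i)
    rw [Finset.sum_add_distrib, Finset.sum_add_distrib, Finset.sum_add_distrib, htot,
      hexcsum] at h1
    omega
  have hab : ∑ i, b i ≤ ∑ i, a i := by
    apply Finset.sum_le_sum
    intro i _
    by_cases h9 : n i ≤ 9
    · rw [hb0 i h9]; exact Nat.zero_le _
    · have h10 : 10 ≤ n i := by omega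
      rw [ha i h10, hb i h10]
      omega
  have hsumZ : (∑ i, (a i : ℤ)) + (∑ i, (b i : ℤ)) + ((o1 k : ℤ) + (o2 k m : ℤ)) = (m : ℤ) := by
    have := congrArg (Nat.cast (R := ℤ)) hsum
    push_cast at this
    exact this
  have habZ : (∑ i, (b i : ℤ)) ≤ (∑ i, (a i : ℤ)) := by
    have := (Nat.cast_le (α := ℤ)).2 hab
    push_cast at this
    exact this
  have ho1Z : (o1 k : ℤ) ≤ 1 := by exact_mod_cast ho1
  have ho2Z : (o2 k m : ℤ) ≤ 1 := by exact_mod_cast ho2
  have ho1Z' : (0 : ℤ) ≤ (o1 k : ℤ) := Int.natCast_nonneg _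
  have ho2Z' : (0 : ℤ) ≤ (o2 k m : ℤ) := Int.natCast_nonneg _
  refine ⟨⟨i0, h, a, b, by omega, fun i hi => ⟨hh0 i hi, ha0 i hi, hb0 i hi⟩, ?_, ?_, ?_, ?_, ?_,
    ?_, ?_, htot, ?_, ?_⟩⟩
  · -- evena
    intro i
    by_cases h9 : n i ≤ 9
    · rw [ha0 i h9]; exact Even.zero
    · have h10 : 10 ≤ n i := by omega
      rw [ha i h10, Nat.even_iff]
      have := hTeven i h10
      omega
  · -- evenb
    intro i
    by_cases h9 : n i ≤ 9
    · rw [hb0 i h9]; exact Even.zero
    · have h10 : 10 ≤ n i := by omega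
      rw [hb i h10]
      exact even_two_mul _
  · -- twoa
    intro i h10
    rw [ha i h10]
    have := (hTge i h10).1
    omega
  · -- twob
    intro i h10
    rw [hb i h10]
    have := (hTge i h10).1
    omega
  · -- len
    intro i h10 hi
    have h1 := hall i
    rw [hexc, if_neg hi] at h1
    omega
  · -- len0
    have h1 := hall i0
    rw [hexc, if_pos rfl, hnh0] at h1
    show n i0 + h i0 = a i0 + b i0 + 6 + o1 k + o2 k m
    omega
  · -- host
    intro i hi
    by_cases h9 : n i ≤ 9
    · rw [hh0 i h9] at hi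
      omega
    · have h10 : 10 ≤ n i := by omega
      have h1 := hexc8 i h10
      have h2 := hTval i
      have h3 := hgcap i
      rw [hb i h10]
      by_cases h4 : i = i0
      · have h5 : h i ≤ 2 * g i + 1 := by
          rw [hval, if_pos h4]; omega
        have h6 : 100000 ≤ n i := by rw [h4]; exact hlong
        omega
      · have h5 : h i = 2 * g i := by rw [hval, if_neg h4, add_zero]
        omega
  · -- endp
    linarith
  · -- nonneg
    linarith

end Pool.SpA
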