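import Pool.Agent.SpA.Defs

/-!
# SpA/Leaf

STUB.  Two facts on acyclic graphs.

`exists_leaf_in`: `u` has a neighbour and `R` has at most one vertex in the component of `u`.  Let `r` be
the root in the component if there is one (else `r = u`).  A longest path starting at `r` (or a
vertex of the component at maximal distance from `r`) ends in a vertex `x ≠ r` of degree one:
another neighbour of `x` would either prolong the path or close a cycle.  `x ∉ R` as `R` has at most
one vertex in the component.

`reach_delete`: `deg G v = 1`, `G.Adj v w`, `G' = G.deleteEdges {s(v,w)}`: vertices `≠ v`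
which are reachable from each other in `G` are so in `G'`.  Proof: let `φ v = w`, `φ x = x` otherwise;
`G.Adj x y` implies `φ x = φ y` or `G'.Adj (φ x) (φ y)`; induction on the walk.
-/

namespace Pool.SpA

open Finset

theorem exists_leaf_in {V : Type*} [Fintype V] (G : SimpleGraph V) (hac : G.IsAcyclic)
    (R : Finset V) (h2 : ∀ r ∈ R, ∀ r' ∈ R, G.Reachable r r' → r = r') (u : V)
    (hu : ∃ v, G.Adj u v) : ∃ v, G.Reachable u v ∧ v ∉ R ∧ deg G v = 1 := by
  sorry

theorem reach_delete {V : Type*} [Fintype V] (G : SimpleGraph V) (v w : V) (hv : deg G v = 1)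
    (hw : G.Adj v w) (x y : V) (hx : x ≠ v) (hy : y ≠ v) (h : G.Reachable x y) :
    (G.deleteEdges {s(v, w)}).Reachable x y := by
  sorry

end Pool.SpA
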