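import Pool.Agent.SpA.Defs

/-!
# SpA/LegsCount

Simple counts for a description by legs.

`edges_card`: the map `(i,t) ↦ s(prev, vert i t)` is a bijection from `{(i,t) : t < n i}` to the
edges (injective: `vert i t` is the endpoint which is farther from the root; if
`s(prev i t, vert i t) = s(prev j s, vert j s)` crosswise, then `vert i t = prev j s`,
`vert j s = prev i t`, so `i = j`, `t = s - 1`, `s = t - 1`, contradiction).
`card_V`: vertices = roots + the `vert i t`.
`roots_le`: at most `N` roots.
`legs_le_leaves`: `vert i (n i - 1)` has degree one, and these are `N` different vertices.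
`legs_pos`: if `V` is nonempty then `N > 0` (`cover`).
-/

namespace Pool.SpA

open Finset

/-- the vertex before `vert i t` -/
def prv {V : Type*} {G : SimpleGraph V} {N : ℕ} (L : Legs G N) (i : Fin N) (t : ℕ) : V :=
  if t = 0 then L.root i else L.vert i (t - 1)

theorem prv_eq_vert {V : Type*} {G : SimpleGraph V} {N : ℕ} (L : Legs G N) {i j : Fin N}
    {t s : ℕ} (ht : t < L.n i) (hs : s < L.n j) (h : prv L i t = L.vert j s) :
    i = j ∧ t = s + 1 := by
  unfold prv at h
  split_ifs at h with h0
  · exact absurd h (L.root_ne i j s hs)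
  · obtain ⟨h1, h2⟩ := L.inj i j (t - 1) s (by omega) hs h
    exact ⟨h1, by omega⟩

theorem adj_iff {V : Type*} {G : SimpleGraph V} {N : ℕ} (L : Legs G N) (u v : V) :
    G.Adj u v ↔ ∃ i t, t < L.n i ∧
      ((u = prv L i t ∧ v = L.vert i t) ∨ (v = prv L i t ∧ u = L.vert i t)) := L.adj u v

theorem edges_card {V : Type*} [Fintype V] {G : SimpleGraph V} {N : ℕ} (L : Legs G N) :
    G.edgeSet.ncard = ∑ i, L.n i := by
  classical
  set T : Finset (Σ _ : Fin N, ℕ) := univ.sigma (fun i => range (L.n i)) with hT
  have himg : G.edgeSet = (fun x : (Σ _ : Fin N, ℕ) => s(prv L x.1 x.2, L.vert x.1 x.2)) ''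
      (T : Set (Σ _ : Fin N, ℕ)) := by
    ext e
    induction e using Sym2.ind with
    | _ u v =>
      rw [SimpleGraph.mem_edgeSet, adj_iff L]
      constructor
      · rintro ⟨i, t, ht, h | h⟩
        · refine ⟨⟨i, t⟩, by simp [hT, ht], ?_⟩
          simp only [h.1, h.2]
        · refine ⟨⟨i, t⟩, by simp [hT, ht], ?_⟩
          simp only [h.1, h.2]
          exact Sym2.eq_swap
      · rintro ⟨⟨i, t⟩, hx, he⟩
        have ht : t < L.n i := by simpa [hT] using hx
        simp only [Sym2.eq_iff] at he
        refine ⟨i, t, ht, ?_⟩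
        rcases he with he | he
        · exact Or.inl ⟨he.1.symm, he.2.symm⟩
        · exact Or.inr ⟨he.1.symm, he.2.symm⟩
  have hinj : Set.InjOn (fun x : (Σ _ : Fin N, ℕ) => s(prv L x.1 x.2, L.vert x.1 x.2))
      (T : Set (Σ _ : Fin N, ℕ)) := by
    rintro ⟨i, t⟩ hx ⟨j, s⟩ hy he
    have ht : t < L.n i := by simpa [hT] using hx
    have hs : s < L.n j := by simpa [hT] using hy
    simp only [Sym2.eq_iff] at he
    rcases he with he | he
    · obtain ⟨h1, h2⟩ := L.inj i j t s ht hs he.2
      subst h1
      subst h2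
      rfl
    · obtain ⟨h1, h2⟩ := prv_eq_vert L ht hs he.1
      obtain ⟨h3, h4⟩ := prv_eq_vert L hs ht he.2.symm
      omega
  rw [himg, hinj.ncard_image, Set.ncard_coe_finset, hT, card_sigma]
  simp

theorem card_V {V : Type*} [Fintype V] [DecidableEq V] {G : SimpleGraph V} {N : ℕ} (L : Legs G N) :
    Fintype.card V = (univ.image L.root).card + ∑ i, L.n i := by
  set T : Finset (Σ _ : Fin N, ℕ) := univ.sigma (fun i => range (L.n i)) with hT
  have hun : (univ : Finset V) = univ.image L.root ∪ T.image (fun x => L.vert x.1 x.2) := by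
    ext v
    simp only [mem_univ, mem_union, mem_image, true_and, true_iff]
    rcases L.cover v with h | ⟨i, t, ht, h⟩
    · exact Or.inl h
    · exact Or.inr ⟨⟨i, t⟩, by simp [hT, ht], h⟩
  have hdis : Disjoint (univ.image L.root) (T.image (fun x => L.vert x.1 x.2)) := by
    rw [disjoint_left]
    intro v hv hw
    obtain ⟨i, -, hi⟩ := mem_image.1 hv
    obtain ⟨⟨j, t⟩, hx, hj⟩ := mem_image.1 hw
    have ht : t < L.n j := by simpa [hT] using hx
    exact L.root_ne i j t ht (hi.trans hj.symm)
  have hinj : Set.InjOn (fun x : (Σ _ : Fin N, ℕ) => L.vert x.1 x.2)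
      (T : Set (Σ _ : Fin N, ℕ)) := by
    rintro ⟨i, t⟩ hx ⟨j, s⟩ hy he
    have ht : t < L.n i := by simpa [hT] using hx
    have hs : s < L.n j := by simpa [hT] using hy
    obtain ⟨h1, h2⟩ := L.inj i j t s ht hs he
    subst h1
    subst h2
    rfl
  rw [← card_univ, hun, card_union_of_disjoint hdis, card_image_of_injOn hinj, hT, card_sigma]
  simp

theorem roots_le {V : Type*} [DecidableEq V] {G : SimpleGraph V} {N : ℕ} (L : Legs G N) :
    (univ.image L.root).card ≤ N := by
  calc (univ.image L.root).card ≤ (univ : Finset (Fin N)).card := card_image_le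
    _ = N := by simp

theorem legs_le_leaves {V : Type*} [Fintype V] {G : SimpleGraph V} {N : ℕ} (L : Legs G N) :
    N ≤ leaves G := by
  classical
  unfold leaves
  have h1 : (univ : Finset (Fin N)).card ≤ (univ.filter fun v => deg G v = 1).card := by
    refine card_le_card_of_injOn (fun i => L.vert i (L.n i - 1)) ?_ ?_
    · intro i _
      have hp := L.pos i
      rw [mem_coe, mem_filter]
      refine ⟨mem_univ _, ?_⟩
      unfold deg
      rw [card_eq_one]
      refine ⟨prv L i (L.n i - 1), ?_⟩
      ext w
      rw [mem_filter, mem_singleton, adj_iff L]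
      constructor
      · rintro ⟨-, j, s, hs, h | h⟩
        · obtain ⟨h2, h3⟩ := prv_eq_vert L hs (show L.n i - 1 < L.n i by omega) h.1.symm
          subst h2
          omega
        · obtain ⟨h2, h3⟩ := L.inj i j _ s (by omega) hs h.2
          subst h2
          rw [h3]
          exact h.1
      · intro h
        exact ⟨mem_univ _, i, L.n i - 1, by omega, Or.inr ⟨h, rfl⟩⟩
    · intro i _ j _ h
      have hi := L.pos i
      have hj := L.pos j
      exact (L.inj i j _ _ (by omega) (by omega) h).1
  simpa using h1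

theorem legs_pos {V : Type*} {G : SimpleGraph V} {N : ℕ} (L : Legs G N) [Nonempty V] : 0 < N := by
  obtain ⟨v⟩ := (inferInstance : Nonempty V)
  rcases L.cover v with ⟨i, -⟩ | ⟨i, -⟩
  · exact i.pos
  · exact i.pos

end Pool.SpA
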