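import Pool.Agent.SpA.Defs

/-!
# SpA/Pairs: the even sums (definitions only)
-/

namespace Pool.SpA

open Finset

/-- the label of the leaf edge of leg `i` -/
def leafv {N : ℕ} (n : Fin N → ℕ) (y : Fin N → ℕ → ℤ) (i : Fin N) : ℤ :=
  if n i ≤ 9 then y i (n i - 1) else y i 9

/-- The (ordered) pairs of labels of adjacent edges with an even sum; `y i r` is the value of the
hole `(i, r)`. -/
inductive Sp0 {N : ℕ} {n : Fin N → ℕ} {k : ℤ} (L : Layout n k) (y : Fin N → ℕ → ℤ) : ℤ → ℤ → Prop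
  /-- the two neighbours of a hole -/
  | hole (i : Fin N) (r : ℕ) (h : Has n L.i0 i r) : Sp0 L y (y i r - 1) (y i r + 1)
  /-- `z_{r+1}, z_{r+2}` -/
  | zz (i : Fin N) (r : ℕ) (hr : r ≤ 7) (h : Has n L.i0 i r) (h' : Has n L.i0 i (r + 1)) :
      Sp0 L y (y i r) (y i (r + 1))
  /-- `z2, lo'` -/
  | zlo (i : Fin N) (h : 10 ≤ n i) : Sp0 L y (y i 1) (L.q i)
  /-- `hi', u` -/
  | hiu (i : Fin N) (h : 10 ≤ n i) (hi : i ≠ L.i0) : Sp0 L y (L.q i + L.b i - 1) (y i 12)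
  /-- `hi', u'` for the special leg -/
  | hiu0 : Sp0 L y (L.q L.i0 + L.b L.i0 - 1) (y L.i0 13)
  /-- `u', k+1` for the special leg -/
  | uo (h : o1 k = 1) : Sp0 L y (y L.i0 13) (k + 1)
  /-- `k+1, u` for the special leg -/
  | ou (h : o1 k = 1) : Sp0 L y (k + 1) (y L.i0 12)
  /-- `u', u` for the special leg -/
  | uu (h : o1 k = 0) : Sp0 L y (y L.i0 13) (y L.i0 12)
  /-- `u, hi` -/
  | uhi (i : Fin N) (h : 10 ≤ n i) : Sp0 L y (y i 12) (L.p i + L.a i - 1)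
  /-- `lo, x3` -/
  | lox3 (i : Fin N) (h : 10 ≤ n i) (hi : i ≠ L.i0) (he : Even (n i)) : Sp0 L y (L.p i) (y i 11)
  /-- `x3, x2` -/
  | x3x2 (i : Fin N) (h : 10 ≤ n i) (hi : i ≠ L.i0) (he : Even (n i)) : Sp0 L y (y i 11) (y i 10)
  /-- `lo, x2` -/
  | lox2 (i : Fin N) (h : 10 ≤ n i) (hi : i = L.i0 ∨ ¬ Even (n i)) : Sp0 L y (L.p i) (y i 10)
  /-- `x2, x1` -/
  | x2x1 (i : Fin N) (h : 10 ≤ n i) (hi : i ≠ L.i0 ∨ o2 k (∑ i, n i) = 0) :
      Sp0 L y (y i 10) (y i 9)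
  /-- `x2, k+m` for the special leg -/
  | xo (h : o2 k (∑ i, n i) = 1) : Sp0 L y (y L.i0 10) (k + (∑ i, n i : ℕ))
  /-- `k+m, x1` for the special leg -/
  | ox (h : o2 k (∑ i, n i) = 1) : Sp0 L y (k + (∑ i, n i : ℕ)) (y L.i0 9)

/-- symmetric version -/
def Sp {N : ℕ} {n : Fin N → ℕ} {k : ℤ} (L : Layout n k) (y : Fin N → ℕ → ℤ) (a b : ℤ) : Prop :=
  Sp0 L y a b ∨ Sp0 L y b a

/-- All even sums are different: sums of special pairs, leaf labels, root sums.  (`y i 0` is the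
label at the root for every leg `i`.) -/
structure EvenOK {N : ℕ} {α : Type*} [DecidableEq α] {n : Fin N → ℕ} {k : ℤ} (L : Layout n k)
    (cen : Fin N → α) (y : Fin N → ℕ → ℤ) : Prop where
  pair : ∀ a b c d, Sp L y a b → Sp L y c d → a + b = c + d → (a = c ∧ b = d) ∨ (a = d ∧ b = c)
  leaf : ∀ i a b, Sp L y a b → leafv n y i ≠ a + b
  root : ∀ i a b, Sp L y a b → rs cen y (cen i) ≠ a + b
  rootleaf : ∀ i j, rs cen y (cen i) ≠ leafv n y j
  rootroot : ∀ i j, rs cen y (cen i) = rs cen y (cen j) → cen i = cen j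

end Pool.SpA
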