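import Pool.Agent.SpA.Leaf

/-!
# SpA/PreLegs

STUB.  Graph theory: an acyclic graph with one root in every component and all other degrees `≤ 2`
consists of legs.

`exists_preLegs`: induction on the number of edges.  No edges: `R = univ` by `h1`; `N = 0`.
Otherwise take `v` from `exists_leaf_in`, `w` its neighbour, `G' = G.deleteEdges {s(v,w)}`,
`R' = insert v R`; hypotheses for `G'`, `R'` by `reach_delete` (`v` is isolated in `G'`).  In the
`PreLegs G' R' N'` no leg is attached at `v`.  If `w ∈ R`: add the new leg `[v]` at `w`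
(`Fin.snoc` or `Fin.cons`).  If `w ∉ R` (and `w ≠ v`): `w = vert i t`, and `t + 1 = n i`, since otherwise
`w` has the neighbours `v`, the previous and the next vertex, so `deg G w ≥ 3`; prolong leg `i` by `v`.
-/

namespace Pool.SpA

open Finset

/-- like `Legs`, with an explicit set `R` of roots -/
structure PreLegs {V : Type*} (G : SimpleGraph V) (R : Finset V) (N : ℕ) where
  n : Fin N → ℕ
  root : Fin N → V
  vert : Fin N → ℕ → V
  pos : ∀ i, 1 ≤ n i
  inj : ∀ i j t s, t < n i → s < n j → vert i t = vert j s → i = j ∧ t = s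
  root_mem : ∀ i, root i ∈ R
  vert_not_mem : ∀ i t, t < n i → vert i t ∉ R
  cover : ∀ v, v ∈ R ∨ ∃ i t, t < n i ∧ vert i t = v
  adj : ∀ u v, G.Adj u v ↔ ∃ i t, t < n i ∧
    ((u = (if t = 0 then root i else vert i (t - 1)) ∧ v = vert i t) ∨
      (v = (if t = 0 then root i else vert i (t - 1)) ∧ u = vert i t))

theorem exists_preLegs {V : Type*} [Fintype V] (G : SimpleGraph V) (R : Finset V)
    (hac : G.IsAcyclic) (h1 : ∀ v, ∃ r ∈ R, G.Reachable v r)
    (h2 : ∀ r ∈ R, ∀ r' ∈ R, G.Reachable r r' → r = r') (h3 : ∀ v, v ∉ R → deg G v ≤ 2) :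
    ∃ N, Nonempty (PreLegs G R N) := by
  sorry

end Pool.SpA
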